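import Pool.Agent.J4H30.AW.PosA

/-!
Project VW, part 14: the parameters for the windows.
-/

set_option autoImplicit false

open Finset Filter

namespace Pool.Agent.J4H30.VW

open Pool.Agent.H410R2.AC Pool.Agent.H410R2.EN Pool.Agent.H143R2.ACF Pool.Agent.J4H30.AW

/-- the size of the primorial -/
lemma prim_le {κ : ℝ} {H z0 : ℕ} (hH : (1 : ℝ) ≤ H)
    (hz0 : (z0 : ℝ) ≤ κ * Real.log H) : (primorial z0 : ℝ) ≤ (H : ℝ) ^ (2 * κ) := by
  have hH0 : (0 : ℝ) < H := by linarith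
  have h1 : (primorial z0 : ℝ) ≤ (4 : ℝ) ^ z0 := by exact_mod_cast primorial_le_four_pow z0
  refine h1.trans ?_
  rw [← Real.rpow_natCast, Real.rpow_def_of_pos (by norm_num), Real.rpow_def_of_pos hH0]
  apply Real.exp_le_exp.mpr
  have h5 : Real.log 4 ≤ 2 := by
    have h6 : (4 : ℝ) = 2 ^ 2 := by norm_num
    rw [h6, Real.log_pow]
    have := Real.log_two_lt_d9
    push_cast
    linarith
  calc Real.log 4 * (z0 : ℝ) ≤ 2 * (z0 : ℝ) := mul_le_mul_of_nonneg_right h5 (Nat.cast_nonneg _)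
    _ ≤ 2 * (κ * Real.log H) := mul_le_mul_of_nonneg_left hz0 (by norm_num)
    _ = Real.log H * (2 * κ) := by ring

/-- the level -/
lemma x_facts {θ : ℝ} {N X X₀ A : ℕ} (hθ : 0 < θ) (hθ4 : θ ≤ 1 / 4) (hX : X = ⌊(N : ℝ) ^ θ⌋₊)
    (b1 : Real.log 2 * (2 / θ) ≤ Real.log N) (b2 : (X₀ : ℝ) + 1 ≤ (N : ℝ) ^ θ)
    (b3 : 4 * (2 : ℝ) ^ (((A + 2 : ℕ) : ℝ) / θ) ≤ (N : ℝ)) (hN16 : 16 ≤ N) :
    (X : ℝ) ≤ (N : ℝ) ^ θ ∧ X₀ ≤ X ∧ 1 ≤ X ∧ θ / 2 * Real.log N ≤ Real.log X ∧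
      (X : ℝ) ^ 2 ≤ (N : ℝ) ^ (1 / 2 : ℝ) ∧
      ∀ M : ℕ, M ≤ N ^ A → (M : ℝ) + 3 * N ≤ (X : ℝ) ^ (((A + 2 : ℕ) : ℝ) / θ) := by
  have hNR : (16 : ℝ) ≤ N := by exact_mod_cast hN16
  have hN0 : (0 : ℝ) < N := by linarith
  have hN1R : (1 : ℝ) ≤ N := by linarith
  have hXle : (X : ℝ) ≤ (N : ℝ) ^ θ := by rw [hX]; exact Nat.floor_le (by positivity)
  have hXX₀ : X₀ ≤ X := by rw [hX]; exact Nat.le_floor (by linarith)
  have hX1 : 1 ≤ X := by
    rw [hX]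
    refine Nat.le_floor ?_
    push_cast
    have : (0 : ℝ) ≤ X₀ := Nat.cast_nonneg _
    linarith
  have hX1R : (1 : ℝ) ≤ X := by exact_mod_cast hX1
  have hXge : (N : ℝ) ^ θ / 2 ≤ X := by
    have h1 := Nat.lt_floor_add_one ((N : ℝ) ^ θ)
    rw [← hX] at h1
    linarith
  refine ⟨hXle, hXX₀, hX1, ?_, ?_, ?_⟩
  · have h1 : Real.log ((N : ℝ) ^ θ / 2) ≤ Real.log X := Real.log_le_log (by positivity) hXge
    rw [Real.log_div (by positivity) (by norm_num), Real.log_rpow hN0] at h1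
    have h2 : Real.log 2 ≤ θ / 2 * Real.log N := by
      calc Real.log 2 = θ / 2 * (Real.log 2 * (2 / θ)) := by field_simp
        _ ≤ θ / 2 * Real.log N := mul_le_mul_of_nonneg_left b1 (by positivity)
    linarith
  · calc (X : ℝ) ^ 2 ≤ ((N : ℝ) ^ θ) ^ 2 := pow_le_pow_left₀ (by linarith) hXle 2
      _ = (N : ℝ) ^ (θ * 2) := by
        rw [← Real.rpow_natCast, ← Real.rpow_mul hN0.le]
        norm_num
      _ ≤ (N : ℝ) ^ (1 / 2 : ℝ) := Real.rpow_le_rpow_of_exponent_le hN1R (by linarith)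
  · intro M hM
    have hMR : (M : ℝ) ≤ (N : ℝ) ^ A := by exact_mod_cast hM
    have hNA : (N : ℝ) ^ A ≤ (N : ℝ) ^ (A + 1) := pow_le_pow_right₀ hN1R (by omega)
    have hNA1 : (N : ℝ) ≤ (N : ℝ) ^ (A + 1) := by
      calc (N : ℝ) = (N : ℝ) ^ 1 := (pow_one _).symm
        _ ≤ (N : ℝ) ^ (A + 1) := pow_le_pow_right₀ hN1R (by omega)
    calc (M : ℝ) + 3 * N ≤ 4 * (N : ℝ) ^ (A + 1) := by linarith
      _ ≤ (N : ℝ) ^ (A + 2) / (2 : ℝ) ^ (((A + 2 : ℕ) : ℝ) / θ) := by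
          rw [le_div_iff₀ (by positivity)]
          calc 4 * (N : ℝ) ^ (A + 1) * (2 : ℝ) ^ (((A + 2 : ℕ) : ℝ) / θ) =
                (N : ℝ) ^ (A + 1) * (4 * (2 : ℝ) ^ (((A + 2 : ℕ) : ℝ) / θ)) := by ring
            _ ≤ (N : ℝ) ^ (A + 1) * N := mul_le_mul_of_nonneg_left b3 (by positivity)
            _ = (N : ℝ) ^ (A + 2) := by ring
      _ = ((N : ℝ) ^ θ / 2) ^ (((A + 2 : ℕ) : ℝ) / θ) := by
          rw [Real.div_rpow (by positivity) (by norm_num), ← Real.rpow_mul hN0.le,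
            mul_div_cancel₀ _ hθ.ne', Real.rpow_natCast]
      _ ≤ (X : ℝ) ^ (((A + 2 : ℕ) : ℝ) / θ) :=
          Real.rpow_le_rpow (by positivity) hXge (by positivity)

/-- the number of members of a residue class in one window -/
lemma j_facts {H W J : ℕ} (hW0 : 0 < W) (hJ : J = H / (2 * W) - 1) (hWH : W * 8 ≤ H) :
    W * (J + 1) * 2 ≤ H ∧ (H : ℝ) ≤ J * (4 * W) ∧ 0 < J := by
  have hdiv : 4 ≤ H / (2 * W) := by
    rw [Nat.le_div_iff_mul_le (by omega)]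
    omega
  have hJs : J + 1 = H / (2 * W) := by
    rw [hJ]
    exact Nat.sub_add_cancel (by omega)
  have hJ3 : 3 ≤ J := by
    rw [← hJs] at hdiv
    omega
  refine ⟨?_, ?_, by omega⟩
  · have := Nat.div_mul_le_self H (2 * W)
    rw [← hJs] at this
    calc W * (J + 1) * 2 = (J + 1) * (2 * W) := by ring
      _ ≤ H := this
  · have h1 := Nat.lt_mul_div_succ H (show 0 < 2 * W by omega)
    rw [← hJs] at h1
    have h2 : 2 * W * (J + 1 + 1) ≤ J * (4 * W) := by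
      have h3 : W * 2 ≤ W * J := Nat.mul_le_mul_left _ (by omega)
      have e1 : 2 * W * (J + 1 + 1) = 2 * (W * J) + 2 * (W * 2) := by ring
      have e2 : J * (4 * W) = 4 * (W * J) := by ring
      omega
    have h3 : H ≤ J * (4 * W) := by omega
    exact_mod_cast h3

/-- the collisions -/
lemma coll {κ δ k : ℝ} {H z0 : ℕ} (hκ0 : 0 < κ) (hz3 : 3 ≤ z0) (hk : 0 ≤ k)
    (hz0gt : κ * Real.log H < z0 + 1) (hZ : 2 / (z0 : ℝ) + k * ((2 / κ) / Real.log z0) ≤ δ) :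
    2 / (z0 : ℝ) + k * (Real.log H / (z0 * Real.log z0)) ≤ δ := by
  refine le_trans ?_ hZ
  have hz3R : (3 : ℝ) ≤ z0 := by exact_mod_cast hz3
  have hlz : 0 < Real.log (z0 : ℝ) := Real.log_pos (by linarith)
  have h1 : Real.log H ≤ 2 / κ * z0 := by
    have h3 : Real.log H ≤ (z0 + 1) / κ := by
      rw [le_div_iff₀ hκ0]
      linarith
    calc Real.log H ≤ (z0 + 1) / κ := h3
      _ ≤ (z0 + z0) / κ := div_le_div_of_nonneg_right (by linarith) hκ0.le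
      _ = 2 / κ * z0 := by ring
  have h2 : Real.log H / (z0 * Real.log z0) ≤ (2 / κ) / Real.log z0 := by
    rw [div_le_div_iff₀ (by positivity) hlz]
    calc Real.log H * Real.log z0 ≤ (2 / κ * z0) * Real.log z0 :=
          mul_le_mul_of_nonneg_right h1 hlz.le
      _ = 2 / κ * (z0 * Real.log z0) := by ring
  have h3 := mul_le_mul_of_nonneg_left h2 hk
  linarith

/-- close pairs -/
lemma close_facts {ε₁ : ℝ} {H L W J : ℕ} (hε₁ : 0 < ε₁) (hW0 : 0 < W) (hHJ : (H : ℝ) ≤ J * (4 * W))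
    (hWH : (W : ℝ) * (8 / ε₁) ≤ H) (hLH : 16 / ε₁ * L ≤ H) :
    2 * ((L / W : ℕ) : ℝ) + 1 ≤ ε₁ * J := by
  have hWR : (0 : ℝ) < W := by exact_mod_cast hW0
  have h1 : ((L / W : ℕ) : ℝ) ≤ L / W := Nat.cast_div_le
  have h2 : (2 * (L : ℝ) + W) ≤ ε₁ * J * W := by
    have h3 : 16 * (L : ℝ) ≤ H * ε₁ := by
      have := mul_le_mul_of_nonneg_right hLH hε₁.le
      have e : 16 / ε₁ * (L : ℝ) * ε₁ = 16 * L := by field_simp
      linarith
    have h4 : 8 * (W : ℝ) ≤ H * ε₁ := by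
      have := mul_le_mul_of_nonneg_right hWH hε₁.le
      have e : (W : ℝ) * (8 / ε₁) * ε₁ = 8 * W := by field_simp
      linarith
    have h5 : (H : ℝ) * ε₁ ≤ J * (4 * W) * ε₁ := mul_le_mul_of_nonneg_right hHJ hε₁.le
    have e : (J : ℝ) * (4 * W) * ε₁ = 4 * (ε₁ * J * W) := by ring
    linarith
  have h3 : 2 * ((L : ℝ) / W) + 1 = (2 * L + W) / W := by
    field_simp
  calc 2 * ((L / W : ℕ) : ℝ) + 1 ≤ 2 * ((L : ℝ) / W) + 1 := by linarith
    _ = (2 * L + W) / W := h3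
    _ ≤ (ε₁ * J * W) / W := div_le_div_of_nonneg_right h2 hWR.le
    _ = ε₁ * J := by field_simp

open Classical in
/-- one start of a window which is bad is bad for many classes -/
lemma many_classes {S F : Finset ℕ} {L z0 X H J N M n : ℕ} {θ c₀ : ℝ} (hc₀ : 0 < c₀)
    (hzX : z0 ≤ X) (hXN : (X : ℝ) ≤ (N : ℝ) ^ θ) (hSL : ∀ s ∈ S, s ≤ L)
    (hJH : primorial z0 * (J + 1) * 2 ≤ H) (hHJ : (H : ℝ) ≤ J * (4 * primorial z0))
    (hF : ∀ b ∈ F, b < primorial z0) (hFW : primorial z0 ≤ 2 * F.card)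
    (hn : (((Ioc (M + n) (M + n + H / 2)).filter (fun m => Gd S N θ m)).card : ℝ) < c₀ / 16 * H) :
    (primorial z0 : ℝ) / 4 ≤ ((F.filter (fun b => (((range J).filter (fun j =>
        Cov S L z0 X (M + b) (eb L (primorial z0) b n + j))).card : ℝ) < c₀ * J)).card : ℝ) := by
  by_contra hcon
  push Not at hcon
  obtain ⟨W, hW⟩ : ∃ W : ℕ, W = primorial z0 := ⟨_, rfl⟩
  have h2 := count_lower (S := S) (L := L) (z0 := z0) (X := X) (H := H) (J := J) (N := N)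
    (M := M) (n := n) (θ := θ) F hF hzX hXN hSL hJH
  obtain ⟨f, hf⟩ : ∃ f : ℕ → ℕ, f = fun b => ((range J).filter (fun j =>
        Cov S L z0 X (M + b) (eb L (primorial z0) b n + j))).card := ⟨_, rfl⟩
  have hfb : ∀ b, ((range J).filter (fun j =>
        Cov S L z0 X (M + b) (eb L (primorial z0) b n + j))).card = f b := fun b => by rw [hf]
  simp only [hfb] at hcon h2
  rw [← hW] at hcon hFW hHJ
  have h3 : (∑ b ∈ F, (f b : ℝ)) ≤
      (((Ioc (M + n) (M + n + H / 2)).filter (fun m => Gd S N θ m)).card : ℝ) := by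
    exact_mod_cast h2
  have h4 : ((F.filter (fun b => ¬ (f b : ℝ) < c₀ * J)).card : ℝ) * (c₀ * J) ≤
      ∑ b ∈ F, (f b : ℝ) := by
    calc ((F.filter (fun b => ¬ (f b : ℝ) < c₀ * J)).card : ℝ) * (c₀ * J) =
          ∑ b ∈ F.filter (fun b => ¬ (f b : ℝ) < c₀ * J), (c₀ * J) := by
            rw [Finset.sum_const, nsmul_eq_mul]
      _ ≤ ∑ b ∈ F.filter (fun b => ¬ (f b : ℝ) < c₀ * J), (f b : ℝ) := by
            refine Finset.sum_le_sum fun b hb => ?_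
            exact not_lt.mp (mem_filter.mp hb).2
      _ ≤ _ := Finset.sum_le_sum_of_subset_of_nonneg (Finset.filter_subset _ _)
            (fun _ _ _ => Nat.cast_nonneg _)
  have h5 : (F.card : ℝ) = ((F.filter (fun b => (f b : ℝ) < c₀ * J)).card : ℝ) +
      ((F.filter (fun b => ¬ (f b : ℝ) < c₀ * J)).card : ℝ) := by
    exact_mod_cast (Finset.card_filter_add_card_filter_not (s := F)
      (fun b => (f b : ℝ) < c₀ * J)).symm
  have h6 : (W : ℝ) ≤ 2 * F.card := by exact_mod_cast hFW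
  have h7 : (W : ℝ) / 4 ≤ ((F.filter (fun b => ¬ (f b : ℝ) < c₀ * J)).card : ℝ) := by linarith
  have h8 : c₀ / 16 * H ≤ (W : ℝ) / 4 * (c₀ * J) := by
    calc c₀ / 16 * H ≤ c₀ / 16 * (J * (4 * W)) :=
          mul_le_mul_of_nonneg_left hHJ (by positivity)
      _ = (W : ℝ) / 4 * (c₀ * J) := by ring
  have h9 : (W : ℝ) / 4 * (c₀ * J) ≤
      ((F.filter (fun b => ¬ (f b : ℝ) < c₀ * J)).card : ℝ) * (c₀ * J) :=
    mul_le_mul_of_nonneg_right h7 (by positivity)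
  linarith

open Classical in
lemma assemble {S : Finset ℕ} {L z0 X H J N M : ℕ} {θ c₀ T : ℝ} (hc₀ : 0 < c₀) (hT : 0 ≤ T)
    (hzX : z0 ≤ X) (hXN : (X : ℝ) ≤ (N : ℝ) ^ θ) (hSL : ∀ s ∈ S, s ≤ L)
    (hJH : primorial z0 * (J + 1) * 2 ≤ H) (hHJ : (H : ℝ) ≤ J * (4 * primorial z0))
    (hcl : ∀ b < primorial z0,
      ((Bset S L z0 (M + b)).card : ℝ) * Real.log z0 ≤ 2 * S.card →
      (((Ioc 0 N).filter (fun n => (((range J).filter (fun j =>
        Cov S L z0 X (M + b) (eb L (primorial z0) b n + j))).card : ℝ) < c₀ * J)).card : ℝ) ≤ T) :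
    (((Ioc 0 N).filter (fun n =>
      (((Ioc (M + n) (M + n + H / 2)).filter (fun m => Gd S N θ m)).card : ℝ) <
        c₀ / 16 * H)).card : ℝ) ≤ 4 * T := by
  have hW0 : 0 < primorial z0 := primorial_pos z0
  have hWR : (0 : ℝ) < primorial z0 := by exact_mod_cast hW0
  obtain ⟨F, hF⟩ : ∃ F : Finset ℕ, F = (range (primorial z0)).filter (fun b =>
      ((Bset S L z0 (M + b)).card : ℝ) * Real.log z0 ≤ 2 * S.card) := ⟨_, rfl⟩
  have hFW : primorial z0 ≤ 2 * F.card := by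
    rw [hF]
    exact avg_good S L z0 M
  have hFlt : ∀ b ∈ F, b < primorial z0 := fun b hb => by
    rw [hF] at hb
    exact mem_range.mp (mem_filter.mp hb).1
  obtain ⟨R, hR⟩ : ∃ R : Finset ℕ, R = (Ioc 0 N).filter (fun n =>
      (((Ioc (M + n) (M + n + H / 2)).filter (fun m => Gd S N θ m)).card : ℝ) <
        c₀ / 16 * H) := ⟨_, rfl⟩
  rw [← hR]
  refine double_count (R := R) (F := F) (fun n b => (((range J).filter (fun j =>
        Cov S L z0 X (M + b) (eb L (primorial z0) b n + j))).card : ℝ) < c₀ * J) T (primorial z0)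
    hWR ?_ ?_ ?_ hT
  · have h1 : F.card ≤ (range (primorial z0)).card := by
      rw [hF]
      exact Finset.card_filter_le _ _
    rw [Finset.card_range] at h1
    exact_mod_cast h1
  · intro n hn
    rw [hR, mem_filter] at hn
    exact many_classes hc₀ hzX hXN hSL hJH hHJ hFlt hFW hn.2
  · intro b hb
    have hb2 := hb
    rw [hF, mem_filter, mem_range] at hb2
    refine le_trans ?_ (hcl b hb2.1 hb2.2)
    rw [Nat.cast_le]
    refine Finset.card_le_card ?_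
    intro n hn
    rw [mem_filter, hR, mem_filter] at hn
    rw [mem_filter]
    exact ⟨hn.1.1, hn.2⟩

end Pool.Agent.J4H30.VW
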