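import Pool.Agent.J4H30.VW.Blk

/-!
Project VW, part 19: most indices are followed by a large gap after a bounded number of steps.
-/

set_option autoImplicit false

open Finset Filter

namespace Pool.Agent.J4H30.VW

open Pool.Agent.H357R2.SI Pool.Agent.J4H30.AW Pool.Agent.H143R2.ACF

lemma ev_facts (κ e : ℝ) (hκ : 0 < κ) (he : 0 < e) : ∀ᶠ X : ℕ in atTop,
    1 ≤ Real.log (X : ℝ) ∧ κ * Real.log X + 1 ≤ (X : ℝ) ^ (1 / 2 : ℝ) ∧
      (X : ℝ) ^ (1 / 2 : ℝ) + 1 ≤ e * (X / Real.log X) ∧ 2 * (X : ℝ) ^ (1 / 2 : ℝ) ≤ X := by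
  filter_upwards [ev_log_ge 1, ev_log (1 / (2 * κ)) (by positivity) (1 / 2) (by norm_num),
    ev_log (e / 2) (by positivity) (1 / 2) (by norm_num), ev_const 2 (1 / 2) (by norm_num),
    eventually_ge_atTop 4] with X h1 h2 h3 h4 h5
  have hX4 : (4 : ℝ) ≤ X := by exact_mod_cast h5
  have hX0 : (0 : ℝ) < X := by linarith
  obtain ⟨r, hr⟩ : ∃ r : ℝ, r = (X : ℝ) ^ (1 / 2 : ℝ) := ⟨_, rfl⟩
  have hrr : r * r = X := by
    rw [hr, ← Real.rpow_add hX0]
    norm_num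
  rw [← hr] at h2 h3 h4 ⊢
  have hr0 : 0 < r := by linarith
  refine ⟨h1, ?_, ?_, ?_⟩
  · have h6 := mul_le_mul_of_nonneg_left h2 hκ.le
    have e1 : κ * (1 / (2 * κ) * r) = r / 2 := by field_simp
    linarith
  · rw [mul_div_assoc', le_div_iff₀ (by linarith)]
    calc (r + 1) * Real.log X ≤ (2 * r) * (e / 2 * r) :=
          mul_le_mul (by linarith) h3 (by linarith) (by linarith)
      _ = e * (r * r) := by ring
      _ = e * X := by rw [hrr]
  · calc 2 * r ≤ r * r := mul_le_mul_of_nonneg_right h4 hr0.le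
      _ = X := hrr

open Classical in
/-- the three parts together -/
lemma three_parts {I : Finset ℕ} {k G H t T X : ℕ} {θ c ηV C₂ e L κ : ℝ}
    (hI : ∀ i ∈ I, (∀ j, i ≤ j → j < i + k → Pn (j + 1) ≤ Pn j + G) ∧ 2 * Pn i ≤ X)
    (hc : 0 < c) (hH : 0 < H) (ht : 0 < t) (hk : 0 < k) (htH : 3 * t ≤ H)
    (hTX : (X : ℝ) ^ θ ≤ T) (hHT : H ≤ T)
    (he : 0 ≤ e) (hηV : ηV * C₂ = e ^ 2) (hC₂ : 0 < C₂) (hL : 0 < L)
    (hV : (((Ioc 0 X).filter (fun n =>
      (((Ioc n (n + H / 2)).filter (fun m => Gd (Icc 1 G) X θ m)).card : ℝ) < c * H)).card : ℝ) ≤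
        ηV * X)
    (hm : ∑ n ∈ range X, (pc n (n + t) : ℝ) ^ 2 ≤ C₂ * X * t ^ 2 / L ^ 2)
    (hm2 : ∑ n ∈ range X, (pc n (n + 2 * H) : ℝ) ^ 2 ≤ C₂ * X * (2 * H : ℕ) ^ 2 / L ^ 2)
    (hHL : (H : ℝ) / L ≤ κ) (hke : 4 * C₂ * κ / k ≤ e) (hT : (T : ℝ) ≤ e * (X / L)) :
    (I.card : ℝ) ≤ 3 * (e * (X / L)) := by
  obtain ⟨I₁, hI₁⟩ : ∃ I₁ : Finset ℕ, I₁ = I.filter (fun i => Pn i ≤ T) := ⟨_, rfl⟩
  obtain ⟨I₂, hI₂⟩ : ∃ I₂ : Finset ℕ, I₂ = I.filter (fun i => T < Pn i ∧ Pn (i + k) ≤ Pn i + H) :=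
    ⟨_, rfl⟩
  obtain ⟨I₃, hI₃⟩ : ∃ I₃ : Finset ℕ, I₃ = I.filter (fun i => T < Pn i ∧ Pn i + H < Pn (i + k)) :=
    ⟨_, rfl⟩
  have hsub : I ⊆ I₁ ∪ (I₂ ∪ I₃) := by
    intro i hi
    rw [mem_union, mem_union, hI₁, hI₂, hI₃, mem_filter, mem_filter, mem_filter]
    rcases le_or_gt (Pn i) T with h | h
    · exact Or.inl ⟨hi, h⟩
    · rcases le_or_gt (Pn (i + k)) (Pn i + H) with h2 | h2
      · exact Or.inr (Or.inl ⟨hi, h, h2⟩)
      · exact Or.inr (Or.inr ⟨hi, h, h2⟩)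
  have hcard : (I.card : ℝ) ≤ I₁.card + (I₂.card + I₃.card) := by
    have h1 := Finset.card_le_card hsub
    have h2 := Finset.card_union_le I₁ (I₂ ∪ I₃)
    have h3 := Finset.card_union_le I₂ I₃
    exact_mod_cast h1.trans (h2.trans (Nat.add_le_add_left h3 _))
  have hXL : 0 ≤ (X : ℝ) / L := div_nonneg (Nat.cast_nonneg _) hL.le
  have h1 : (I₁.card : ℝ) ≤ e * (X / L) := by
    refine le_trans ?_ hT
    have h2 : I₁.card ≤ (range T).card := by
      refine Finset.card_le_card fun i hi => ?_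
      rw [hI₁, mem_filter] at hi
      have := le_Pn i
      rw [mem_range]
      omega
    rw [card_range] at h2
    exact_mod_cast h2
  have h2 : (I₂.card : ℝ) ≤ e * (X / L) := by
    have h3 := part_two (I := I₂) (k := k) (H := H) (X := X) (C₂ := C₂) (L := L)
      (fun i hi => by
        rw [hI₂, mem_filter] at hi
        have := (hI i hi.1).2
        omega) (fun i hi => by
        rw [hI₂, mem_filter] at hi
        exact hi.2.2) hH hk hL hm2
    refine h3.trans (mul_le_mul_of_nonneg_right ?_ hXL)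
    refine le_trans ?_ hke
    exact div_le_div_of_nonneg_right (mul_le_mul_of_nonneg_left hHL (by linarith))
      (Nat.cast_nonneg _)
  have h3 : (I₃.card : ℝ) ≤ e * (X / L) := by
    refine part_three (I := I₃) (k := k) (G := G) (H := H) (t := t) (T := T) (X := X) (θ := θ)
      (c := c) (ηV := ηV) (C₂ := C₂) (e := e) (L := L) (fun i hi => ?_) hc hH ht htH hTX hHT he hηV
      hC₂ hL hV hm
    rw [hI₃, mem_filter] at hi
    obtain ⟨g1, g2⟩ := hI i hi.1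
    exact ⟨g1, g2, hi.2.1, hi.2.2⟩
  linarith

open Classical in
/-- most indices are followed by a large gap after a bounded number of steps -/
theorem bad_idx (C η : ℝ) (hC : 1 ≤ C) (hη : 0 < η) : ∃ k : ℕ, 0 < k ∧ ∃ N₀ : ℕ, ∀ N : ℕ, N₀ ≤ N →
    (((range (2 * N)).filter (fun i => ∀ j, i ≤ j → j < i + k →
      (Pn (j + 1) : ℝ) - Pn j ≤ C * Real.log (Pn j))).card : ℝ) ≤ η * N := by
  obtain ⟨C₂, hC₂, N₂, hN₂, hsec⟩ := second_moment_scales
  have hC₂0 : 0 < C₂ := by linarith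
  obtain ⟨e, he⟩ : ∃ e : ℝ, e = η / 128 := ⟨_, rfl⟩
  have he0 : 0 < e := by rw [he]; positivity
  obtain ⟨c, hc, K, hK, N₁, hV⟩ := pos_V C (1 / 4) (e ^ 2 / C₂) 0 hC (by norm_num) le_rfl
    (by positivity)
  have hKC : 0 < K * C := by positivity
  obtain ⟨κ, hκ⟩ : ∃ κ : ℝ, κ = K * C + 7 := ⟨_, rfl⟩
  have hκ0 : 0 < κ := by linarith
  obtain ⟨k, hk⟩ : ∃ k : ℕ, 4 * C₂ * κ / e ≤ k := exists_nat_ge _
  have hk0 : 0 < k := by
    have h1 : 0 < 4 * C₂ * κ / e := by positivity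
    have h2 : (0 : ℝ) < k := by linarith
    exact_mod_cast h2
  obtain ⟨X₁, hX₁⟩ := eventually_atTop.mp (ev_facts κ e hκ0 he0)
  obtain ⟨N₀, hN₀⟩ := exists_X k (max (max X₁ N₁) (max N₂ 1))
  refine ⟨k, hk0, N₀, fun N hN => ?_⟩
  obtain ⟨X, hX1, hX2, hX3⟩ := hN₀ N hN
  obtain ⟨f1, f2, f3, f4⟩ := hX₁ X (by omega)
  obtain ⟨L, hL⟩ : ∃ L : ℝ, L = Real.log (X : ℝ) := ⟨_, rfl⟩
  have hXR1 : (1 : ℝ) ≤ X := by exact_mod_cast (by omega : 1 ≤ X)
  obtain ⟨H, hH⟩ : ∃ H : ℕ, H = ⌈(K * C + 6) * L⌉₊ := ⟨_, rfl⟩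
  obtain ⟨t, ht⟩ : ∃ t : ℕ, t = ⌈L⌉₊ := ⟨_, rfl⟩
  obtain ⟨T, hT⟩ : ∃ T : ℕ, T = ⌈(X : ℝ) ^ (1 / 2 : ℝ)⌉₊ := ⟨_, rfl⟩
  obtain ⟨G, hG⟩ : ∃ G : ℕ, G = ⌊C * L⌋₊ := ⟨_, rfl⟩
  rw [← hL] at f1 f2 f3 hX3
  have hL0 : 0 < L := by linarith
  have hHlow : (K * C + 6) * L ≤ H := by rw [hH]; exact Nat.le_ceil _
  have hHup : (H : ℝ) ≤ κ * L := by
    have h1 : (H : ℝ) < (K * C + 6) * L + 1 := by rw [hH]; exact Nat.ceil_lt_add_one (by positivity)
    have h2 : κ * L = (K * C + 6) * L + L := by rw [hκ]; ring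
    linarith
  have htlow : L ≤ t := by rw [ht]; exact Nat.le_ceil _
  have htup : (t : ℝ) ≤ 2 * L := by
    have h1 : (t : ℝ) < L + 1 := by rw [ht]; exact Nat.ceil_lt_add_one hL0.le
    linarith
  have hTlow : (X : ℝ) ^ (1 / 2 : ℝ) ≤ T := by rw [hT]; exact Nat.le_ceil _
  have hTup : (T : ℝ) ≤ (X : ℝ) ^ (1 / 2 : ℝ) + 1 := by
    rw [hT]
    exact (Nat.ceil_lt_add_one (by positivity)).le
  have hGle : (G : ℝ) ≤ C * L := by rw [hG]; exact Nat.floor_le (by positivity)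
  have hKCL : 0 < K * C * L := by positivity
  have hL6 : (K * C + 6) * L = K * C * L + 6 * L := by ring
  have htH : 3 * t ≤ H := by
    have : 3 * (t : ℝ) ≤ H := by linarith
    exact_mod_cast this
  have hHX : (H : ℝ) ≤ (X : ℝ) ^ (1 / 2 : ℝ) := by linarith
  have hHT : H ≤ T := by
    have : (H : ℝ) ≤ T := by linarith
    exact_mod_cast this
  have hHX2 : 2 * H ≤ X := by
    have : 2 * (H : ℝ) ≤ X := by linarith
    exact_mod_cast this
  have ht0 : 0 < t := by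
    have : (0 : ℝ) < t := by linarith
    exact_mod_cast this
  have hX32 : (X : ℝ) / L ≤ 32 * N := by
    rw [div_le_iff₀ hL0]
    exact hX3
  have hmain := three_parts (I := (range (2 * N)).filter (fun i => ∀ j, i ≤ j → j < i + k →
      (Pn (j + 1) : ℝ) - Pn j ≤ C * Real.log (Pn j))) (k := k) (G := G) (H := H) (t := t) (T := T)
      (X := X) (θ := 1 / 4) (c := c) (ηV := e ^ 2 / C₂) (C₂ := C₂) (e := e) (L := L) (κ := κ)
      ?_ hc (by omega) ht0 hk0 htH ?_ hHT he0.le (by field_simp) hC₂0 hL0 ?_ ?_ ?_ ?_ ?_ ?_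
  · refine hmain.trans ?_
    have h1 : e * ((X : ℝ) / L) ≤ e * (32 * N) := mul_le_mul_of_nonneg_left hX32 he0.le
    have h2 : 3 * (e * (32 * (N : ℝ))) = 3 / 4 * (η * N) := by rw [he]; ring
    have h3 : 0 ≤ η * (N : ℝ) := by positivity
    linarith
  · intro i hi
    rw [mem_filter, mem_range] at hi
    have hiX : ∀ j, j < i + k → 2 * Pn j ≤ X := by
      intro j hj
      have : Pn j ≤ Pn (2 * N + k) := Pn_mono.monotone (by omega)
      omega
    refine ⟨fun j hj1 hj2 => ?_, hiX i (by omega)⟩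
    have h1 := hi.2 j hj1 hj2
    have h2 : Real.log (Pn j) ≤ L := by
      rw [hL]
      have h3 := le_Pn j
      have h4 := hiX j hj2
      refine Real.log_le_log (by exact_mod_cast (by omega : 0 < Pn j)) ?_
      exact_mod_cast (by omega : Pn j ≤ X)
    have h3 : (Pn (j + 1) : ℝ) - Pn j ≤ C * L :=
      h1.trans (mul_le_mul_of_nonneg_left h2 (by linarith))
    have h5 : Pn j < Pn (j + 1) := Pn_mono (Nat.lt_succ_self j)
    have h4 : Pn (j + 1) - Pn j ≤ G := by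
      rw [hG]
      refine Nat.le_floor ?_
      rw [Nat.cast_sub h5.le]
      exact h3
    omega
  · refine le_trans ?_ hTlow
    exact Real.rpow_le_rpow_of_exponent_le hXR1 (by norm_num)
  · have h1 := hV X (by omega) 0 (by omega) H G (by rw [← hL]; linarith) (by omega)
      (by
        have h2 : K * (G : ℝ) ≤ K * (C * L) := mul_le_mul_of_nonneg_left hGle (by linarith)
        have h3 : K * (C * L) = K * C * L := by ring
        linarith) (Icc 1 G) (fun s hs => (mem_Icc.mp hs).2) (by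
        rw [Nat.card_Icc, Nat.add_sub_cancel, ← hL]
        exact hGle)
    simp only [zero_add] at h1
    exact h1
  · have h1 := hsec X t (by omega) (by rw [← hL]; linarith) (by omega)
    rw [← hL] at h1
    exact h1
  · have h1 := hsec X (2 * H) (by omega) (by
      rw [← hL]
      push_cast
      linarith) hHX2
    rw [← hL] at h1
    exact h1
  · rw [div_le_iff₀ hL0]
    exact hHup
  · rw [div_le_iff₀ (by exact_mod_cast hk0)]
    rw [div_le_iff₀ he0] at hk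
    linarith
  · linarith

end Pool.Agent.J4H30.VW
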