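import Mathlib

/-!
Project VW, part 3: the abstract second moment argument.
-/

set_option autoImplicit false

open Finset

namespace Pool.Agent.J4H30.VW

/-- Markov's inequality -/
lemma markov {R : Finset ℕ} (w f : ℕ → ℝ) (P : ℕ → Prop) [DecidablePred P] (hw : ∀ m, 0 ≤ w m)
    {t T : ℝ} (ht : 0 < t) (hf : ∀ m ∈ R, 0 ≤ f m) (hP : ∀ m ∈ R, P m → t ≤ f m)
    (hT : ∑ m ∈ R, w m * f m ≤ T) : ∑ m ∈ R.filter P, w m ≤ T / t := by
  rw [le_div_iff₀ ht, Finset.sum_mul]
  calc ∑ m ∈ R.filter P, w m * t ≤ ∑ m ∈ R.filter P, w m * f m := by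
        refine Finset.sum_le_sum fun m hm => ?_
        exact mul_le_mul_of_nonneg_left (hP m (mem_filter.mp hm).1 (mem_filter.mp hm).2) (hw m)
    _ ≤ ∑ m ∈ R, w m * f m :=
        Finset.sum_le_sum_of_subset_of_nonneg (Finset.filter_subset _ _)
          fun m hm _ => mul_nonneg (hw m) (hf m hm)
    _ ≤ T := hT

open Classical in
/-- the abstract second moment argument -/
theorem var_abs (M J : ℕ) (w : ℕ → ℝ) (V : ℕ → ℕ → ℝ) (Ms : ℕ → ℝ) (Cov : ℕ → ℕ → Prop)
    (Dj : ℕ → ℕ → Prop) (A s η₁ η₂ G Mb ε₁ : ℝ) (hw : ∀ m, 0 ≤ w m) (hA : 0 < A) (hJ : 0 < J)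
    (hs : 0 ≤ s) (hη₁ : 0 ≤ η₁) (hη₂ : 0 < η₂) (hG : 0 < G) (hMb : 0 ≤ Mb)
    (htot : ∑ m ∈ range M, w m ≤ A * (1 + s))
    (hMs : ∀ j < J, 1 ≤ Ms j ∧ Ms j ≤ Mb)
    (h2 : ∀ j < J, A * (Ms j - s) ≤ ∑ m ∈ range M, w m * V j m ^ 2)
    (hR : ∀ j < J, ∑ m ∈ (range M).filter (fun m => ¬ Cov j m), w m * V j m ^ 2 ≤
      A * (η₁ * Ms j + s))
    (h4 : ∀ j < J, ∑ m ∈ range M, w m * V j m ^ 4 ≤ A * G)
    (hp : ∀ i < J, ∀ j < J, Dj i j → ∑ m ∈ range M, w m * (V i m * V j m) ^ 2 ≤
      A * (Ms i * Ms j + s))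
    (hc : ((((range J) ×ˢ (range J)).filter (fun x => ¬ Dj x.1 x.2)).card : ℝ) ≤ ε₁ * J ^ 2) :
    ∑ m ∈ (range M).filter (fun m => (((range J).filter (fun j => Cov j m)).card : ℝ) <
      η₂ / (16 * G) * J), w m ≤
      A * (4 * (s + G * ε₁ + 2 * Mb * s + Mb ^ 2 * s) + 4 * (η₁ + s) + η₂) := by
  have hJR : (0 : ℝ) < J := by exact_mod_cast hJ
  obtain ⟨S, hS⟩ : ∃ S : ℝ, S = ∑ j ∈ range J, Ms j := ⟨_, rfl⟩
  have hSJ : (J : ℝ) ≤ S := by
    rw [hS]
    calc (J : ℝ) = ∑ j ∈ range J, (1 : ℝ) := by rw [Finset.sum_const, card_range, nsmul_eq_mul, mul_one]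
      _ ≤ _ := Finset.sum_le_sum fun j hj => (hMs j (mem_range.mp hj)).1
  have hSM : S ≤ J * Mb := by
    rw [hS]
    calc ∑ j ∈ range J, Ms j ≤ ∑ j ∈ range J, Mb :=
          Finset.sum_le_sum fun j hj => (hMs j (mem_range.mp hj)).2
      _ = J * Mb := by rw [Finset.sum_const, card_range, nsmul_eq_mul]
  have hS0 : 0 < S := lt_of_lt_of_le hJR hSJ
  obtain ⟨Zs, hZs⟩ : ∃ Zs : ℕ → ℝ, Zs = fun m => ∑ j ∈ range J, V j m ^ 2 := ⟨_, rfl⟩
  obtain ⟨Rs, hRs⟩ : ∃ Rs : ℕ → ℝ, Rs = fun m => ∑ j ∈ (range J).filter (fun j => ¬ Cov j m),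
    V j m ^ 2 := ⟨_, rfl⟩
  obtain ⟨Qs, hQs⟩ : ∃ Qs : ℕ → ℝ, Qs = fun m => ∑ j ∈ range J, V j m ^ 4 := ⟨_, rfl⟩
  -- all pairs
  have hpair : ∀ i < J, ∀ j < J, ∑ m ∈ range M, w m * (V i m * V j m) ^ 2 ≤
      A * (Ms i * Ms j + s) + A * G * (if ¬ Dj i j then 1 else 0) := by
    intro i hi j hj
    by_cases h : Dj i j
    · rw [if_neg (not_not.mpr h), mul_zero, add_zero]
      exact hp i hi j hj h
    · rw [if_pos h, mul_one]
      have h1 : ∑ m ∈ range M, w m * (V i m * V j m) ^ 2 ≤
          (∑ m ∈ range M, w m * V i m ^ 4 + ∑ m ∈ range M, w m * V j m ^ 4) / 2 := by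
        rw [← Finset.sum_add_distrib, Finset.sum_div]
        refine Finset.sum_le_sum fun m _ => ?_
        have h3 : (V i m * V j m) ^ 2 ≤ (V i m ^ 4 + V j m ^ 4) / 2 := by
          have := sq_nonneg (V i m ^ 2 - V j m ^ 2)
          have e1 : (V i m ^ 2 - V j m ^ 2) ^ 2 = V i m ^ 4 + V j m ^ 4 - 2 * (V i m * V j m) ^ 2 := by
            ring
          linarith
        have h5 := mul_le_mul_of_nonneg_left h3 (hw m)
        linarith
      have h2' := h4 i hi
      have h3' := h4 j hj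
      have h5 : 0 ≤ A * (Ms i * Ms j + s) := by
        have a1 := (hMs i hi).1
        have a2 := (hMs j hj).1
        have : 0 ≤ Ms i * Ms j := mul_nonneg (by linarith) (by linarith)
        positivity
      linarith
  -- the variance
  have hvar : ∑ m ∈ range M, w m * (Zs m - S) ^ 2 ≤
      A * (s + G * ε₁ + 2 * Mb * s + Mb ^ 2 * s) * J ^ 2 := by
    have e1 : ∀ m, w m * (Zs m - S) ^ 2 = (∑ i ∈ range J, ∑ j ∈ range J, w m * (V i m * V j m) ^ 2) -
        2 * S * (∑ j ∈ range J, w m * V j m ^ 2) + S ^ 2 * w m := by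
      intro m
      have e2 : ∑ i ∈ range J, ∑ j ∈ range J, w m * (V i m * V j m) ^ 2 = w m * (Zs m * Zs m) := by
        rw [hZs]
        simp only
        rw [Finset.sum_mul_sum, Finset.mul_sum]
        refine Finset.sum_congr rfl fun i _ => ?_
        rw [Finset.mul_sum]
        exact Finset.sum_congr rfl fun j _ => by ring
      have e3 : ∑ j ∈ range J, w m * V j m ^ 2 = w m * Zs m := by
        rw [hZs]
        simp only
        rw [Finset.mul_sum]
      rw [e2, e3]
      ring
    simp_rw [e1]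
    rw [Finset.sum_add_distrib, Finset.sum_sub_distrib, ← Finset.mul_sum, ← Finset.mul_sum]
    have a1 : ∑ m ∈ range M, ∑ i ∈ range J, ∑ j ∈ range J, w m * (V i m * V j m) ^ 2 ≤
        A * S ^ 2 + A * s * J ^ 2 + A * G * (ε₁ * J ^ 2) := by
      rw [Finset.sum_comm]
      have b1 : ∀ i ∈ range J, ∑ m ∈ range M, ∑ j ∈ range J, w m * (V i m * V j m) ^ 2 ≤
          ∑ j ∈ range J, (A * (Ms i * Ms j + s) + A * G * (if ¬ Dj i j then 1 else 0)) := by
        intro i hi
        rw [Finset.sum_comm]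
        exact Finset.sum_le_sum fun j hj => hpair i (mem_range.mp hi) j (mem_range.mp hj)
      refine (Finset.sum_le_sum b1).trans ?_
      simp_rw [Finset.sum_add_distrib]
      have b2 : ∑ i ∈ range J, ∑ j ∈ range J, A * (Ms i * Ms j + s) = A * S ^ 2 + A * s * J ^ 2 := by
        have c1 : ∀ i, ∑ j ∈ range J, A * (Ms i * Ms j + s) = A * Ms i * S + A * s * J := by
          intro i
          rw [hS, Finset.mul_sum]
          have : A * s * (J : ℝ) = ∑ j ∈ range J, A * s := by
            rw [Finset.sum_const, card_range, nsmul_eq_mul]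
            ring
          rw [this, ← Finset.sum_add_distrib]
          exact Finset.sum_congr rfl fun j _ => by ring
        simp_rw [c1]
        rw [Finset.sum_add_distrib, Finset.sum_const, card_range, nsmul_eq_mul, ← Finset.sum_mul,
          ← Finset.mul_sum, ← hS]
        ring
      have b3 : ∑ i ∈ range J, ∑ j ∈ range J, A * G * (if ¬ Dj i j then (1 : ℝ) else 0) ≤
          A * G * (ε₁ * J ^ 2) := by
        have c1 : ∑ i ∈ range J, ∑ j ∈ range J, A * G * (if ¬ Dj i j then (1 : ℝ) else 0) =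
            A * G * ((((range J) ×ˢ (range J)).filter (fun x => ¬ Dj x.1 x.2)).card : ℝ) := by
          rw [Finset.card_filter, Finset.sum_product]
          push_cast
          rw [Finset.mul_sum]
          exact Finset.sum_congr rfl fun i _ => by rw [Finset.mul_sum]
        rw [c1]
        exact mul_le_mul_of_nonneg_left hc (by positivity)
      rw [b2]
      linarith
    have a2 : A * S - A * s * J ≤ ∑ m ∈ range M, ∑ j ∈ range J, w m * V j m ^ 2 := by
      rw [Finset.sum_comm]
      have c1 : A * S - A * s * J = ∑ j ∈ range J, A * (Ms j - s) := by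
        rw [hS, Finset.mul_sum]
        have : A * s * (J : ℝ) = ∑ j ∈ range J, A * s := by
          rw [Finset.sum_const, card_range, nsmul_eq_mul]
          ring
        rw [this, ← Finset.sum_sub_distrib]
        exact Finset.sum_congr rfl fun j _ => by ring
      rw [c1]
      exact Finset.sum_le_sum fun j hj => h2 j (mem_range.mp hj)
    have a3 : 2 * S * (A * S - A * s * J) ≤
        2 * S * ∑ m ∈ range M, ∑ j ∈ range J, w m * V j m ^ 2 :=
      mul_le_mul_of_nonneg_left a2 (by positivity)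
    have a4 : S ^ 2 * ∑ m ∈ range M, w m ≤ S ^ 2 * (A * (1 + s)) :=
      mul_le_mul_of_nonneg_left htot (by positivity)
    have a5 : 2 * S * (A * s * J) ≤ 2 * (J * Mb) * (A * s * J) := by
      have : 0 ≤ A * s * J := by positivity
      exact mul_le_mul_of_nonneg_right (by linarith) this
    have a6 : S ^ 2 * (A * s) ≤ (J * Mb) ^ 2 * (A * s) := by
      have : 0 ≤ A * s := by positivity
      exact mul_le_mul_of_nonneg_right (pow_le_pow_left₀ hS0.le hSM 2) this
    calc (∑ m ∈ range M, ∑ i ∈ range J, ∑ j ∈ range J, w m * (V i m * V j m) ^ 2) -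
          2 * S * (∑ m ∈ range M, ∑ j ∈ range J, w m * V j m ^ 2) + S ^ 2 * ∑ m ∈ range M, w m ≤
          (A * S ^ 2 + A * s * J ^ 2 + A * G * (ε₁ * J ^ 2)) - 2 * S * (A * S - A * s * J) +
            S ^ 2 * (A * (1 + s)) := by linarith
      _ = A * s * J ^ 2 + A * G * (ε₁ * J ^ 2) + 2 * S * (A * s * J) + S ^ 2 * (A * s) := by ring
      _ ≤ A * s * J ^ 2 + A * G * (ε₁ * J ^ 2) + 2 * (J * Mb) * (A * s * J) +
            (J * Mb) ^ 2 * (A * s) := by linarith
      _ = _ := by ring
  have hT1 : ∑ m ∈ (range M).filter (fun m => Zs m < S / 2), w m ≤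
      A * (s + G * ε₁ + 2 * Mb * s + Mb ^ 2 * s) * J ^ 2 / (J ^ 2 / 4) := by
    refine markov w (fun m => (Zs m - S) ^ 2) _ hw (by positivity) (fun m _ => sq_nonneg _) ?_ hvar
    intro m _ hm
    have h1 : S / 2 ≤ S - Zs m := by linarith
    have h3 : (J : ℝ) / 2 ≤ S - Zs m := by linarith
    calc (J : ℝ) ^ 2 / 4 = (J / 2) ^ 2 := by ring
      _ ≤ (S - Zs m) ^ 2 := pow_le_pow_left₀ (by positivity) h3 2
      _ = (Zs m - S) ^ 2 := by ring
  have hT1' : ∑ m ∈ (range M).filter (fun m => Zs m < S / 2), w m ≤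
      A * (4 * (s + G * ε₁ + 2 * Mb * s + Mb ^ 2 * s)) := by
    refine hT1.trans (le_of_eq ?_)
    field_simp
  have hT2 : ∑ m ∈ (range M).filter (fun m => S / 4 < Rs m), w m ≤ A * (4 * (η₁ + s)) := by
    have hsum : ∑ m ∈ range M, w m * Rs m ≤ A * (η₁ * S + s * J) := by
      have e1 : ∀ m, w m * Rs m = ∑ j ∈ range J, (if ¬ Cov j m then w m * V j m ^ 2 else 0) := by
        intro m
        rw [hRs]
        simp only
        rw [Finset.mul_sum, Finset.sum_filter]
      simp_rw [e1]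
      rw [Finset.sum_comm]
      have e2 : A * (η₁ * S + s * J) = ∑ j ∈ range J, A * (η₁ * Ms j + s) := by
        rw [hS, Finset.mul_sum]
        have : s * (J : ℝ) = ∑ j ∈ range J, s := by
          rw [Finset.sum_const, card_range, nsmul_eq_mul]
          ring
        rw [this, ← Finset.sum_add_distrib, Finset.mul_sum]
      rw [e2]
      refine Finset.sum_le_sum fun j hj => ?_
      rw [← Finset.sum_filter]
      exact hR j (mem_range.mp hj)
    have h := markov (R := range M) w Rs (fun m => S / 4 < Rs m) hw (t := S / 4) (by positivity)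
      (fun m _ => by
        rw [hRs]
        exact Finset.sum_nonneg fun j _ => sq_nonneg _) (fun m _ hm => hm.le) hsum
    refine h.trans ?_
    rw [div_le_iff₀ (by positivity)]
    calc A * (η₁ * S + s * J) ≤ A * (η₁ * S + s * S) := by gcongr
      _ = A * (4 * (η₁ + s)) * (S / 4) := by ring
  have hT3 : ∑ m ∈ (range M).filter (fun m => G * J / η₂ < Qs m), w m ≤ A * η₂ := by
    have hsum : ∑ m ∈ range M, w m * Qs m ≤ A * G * J := by
      have e1 : ∀ m, w m * Qs m = ∑ j ∈ range J, w m * V j m ^ 4 := by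
        intro m
        rw [hQs]
        simp only
        rw [Finset.mul_sum]
      simp_rw [e1]
      rw [Finset.sum_comm]
      calc ∑ j ∈ range J, ∑ m ∈ range M, w m * V j m ^ 4 ≤ ∑ j ∈ range J, A * G :=
            Finset.sum_le_sum fun j hj => h4 j (mem_range.mp hj)
        _ = A * G * J := by rw [Finset.sum_const, card_range, nsmul_eq_mul]; ring
    have h := markov (R := range M) w Qs (fun m => G * J / η₂ < Qs m) hw (t := G * J / η₂)
      (by positivity)
      (fun m _ => by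
        rw [hQs]
        exact Finset.sum_nonneg fun j _ => by positivity) (fun m _ hm => hm.le) hsum
    refine h.trans (le_of_eq ?_)
    field_simp
  -- the exceptional set
  have hsub : (range M).filter (fun m => (((range J).filter (fun j => Cov j m)).card : ℝ) <
      η₂ / (16 * G) * J) ⊆ (range M).filter (fun m => Zs m < S / 2) ∪
      ((range M).filter (fun m => S / 4 < Rs m) ∪
        (range M).filter (fun m => G * J / η₂ < Qs m)) := by
    intro m hm
    rw [mem_filter] at hm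
    obtain ⟨hm1, hm2⟩ := hm
    by_contra hcon
    rw [mem_union, mem_union, mem_filter, mem_filter, mem_filter] at hcon
    push Not at hcon
    obtain ⟨h1, h3, h5⟩ := hcon
    have g1 := h1 hm1
    have g2 := h3 hm1
    have g3 := h5 hm1
    have hPs : Zs m = ∑ j ∈ (range J).filter (fun j => Cov j m), V j m ^ 2 + Rs m := by
      rw [hZs, hRs]
      exact (Finset.sum_filter_add_sum_filter_not _ _ _).symm
    have hP : (J : ℝ) / 4 ≤ ∑ j ∈ (range J).filter (fun j => Cov j m), V j m ^ 2 := by linarith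
    have hcs : (∑ j ∈ (range J).filter (fun j => Cov j m), V j m ^ 2) ^ 2 ≤
        ((range J).filter (fun j => Cov j m)).card * Qs m := by
      have h6 := sq_sum_le_card_mul_sum_sq (s := (range J).filter (fun j => Cov j m))
        (f := fun j => V j m ^ 2)
      refine h6.trans ?_
      refine mul_le_mul_of_nonneg_left ?_ (Nat.cast_nonneg _)
      rw [hQs]
      calc ∑ j ∈ (range J).filter (fun j => Cov j m), (V j m ^ 2) ^ 2 ≤
            ∑ j ∈ range J, (V j m ^ 2) ^ 2 :=
            Finset.sum_le_sum_of_subset_of_nonneg (Finset.filter_subset _ _)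
              fun j _ _ => by positivity
        _ = ∑ j ∈ range J, V j m ^ 4 := Finset.sum_congr rfl fun j _ => by ring
    have h7 : ((J : ℝ) / 4) ^ 2 ≤ ((range J).filter (fun j => Cov j m)).card * (G * J / η₂) :=
      (pow_le_pow_left₀ (by positivity) hP 2).trans (hcs.trans
        (mul_le_mul_of_nonneg_left g3 (Nat.cast_nonneg _)))
    have h8 : (((range J).filter (fun j => Cov j m)).card : ℝ) * (G * J / η₂) <
        η₂ / (16 * G) * J * (G * J / η₂) := mul_lt_mul_of_pos_right hm2 (by positivity)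
    have h9 : η₂ / (16 * G) * J * (G * J / η₂) = ((J : ℝ) / 4) ^ 2 := by
      field_simp
      norm_num
    linarith
  calc ∑ m ∈ (range M).filter (fun m => (((range J).filter (fun j => Cov j m)).card : ℝ) <
      η₂ / (16 * G) * J), w m ≤ ∑ m ∈ (range M).filter (fun m => Zs m < S / 2) ∪
      ((range M).filter (fun m => S / 4 < Rs m) ∪
        (range M).filter (fun m => G * J / η₂ < Qs m)), w m :=
        Finset.sum_le_sum_of_subset_of_nonneg hsub fun m _ _ => hw m
    _ ≤ ∑ m ∈ (range M).filter (fun m => Zs m < S / 2), w m +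
        (∑ m ∈ (range M).filter (fun m => S / 4 < Rs m), w m +
          ∑ m ∈ (range M).filter (fun m => G * J / η₂ < Qs m), w m) := by
        have u1 : ∀ s t : Finset ℕ, ∑ m ∈ s ∪ t, w m ≤ ∑ m ∈ s, w m + ∑ m ∈ t, w m := by
          intro s t
          have := Finset.sum_union_inter (s₁ := s) (s₂ := t) (f := w)
          have h0 : 0 ≤ ∑ m ∈ s ∩ t, w m := Finset.sum_nonneg fun m _ => hw m
          linarith
        exact (u1 _ _).trans (add_le_add le_rfl (u1 _ _))
    _ ≤ A * (4 * (s + G * ε₁ + 2 * Mb * s + Mb ^ 2 * s)) + (A * (4 * (η₁ + s)) + A * η₂) :=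
        add_le_add hT1' (add_le_add hT2 hT3)
    _ = _ := by ring

end Pool.Agent.J4H30.VW
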