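import Pool.Agent.J4H30.VW.EngV
import Pool.Agent.J4H30.VW.VarAbs

/-!
Project VW, part 10: for all but a small part of the mass a positive proportion of the sets of positions
is covered.
-/

set_option autoImplicit false

open Finset Filter

namespace Pool.Agent.J4H30.VW

open Pool.Agent.H410R2.AC Pool.Agent.H410R2.EN Pool.Agent.J4H30.AW

lemma total_mass {X z0 K M : ℕ} {w : ℕ → ℝ} {A s : ℝ} {err : Finset ℕ → ℝ}
    (hE : EqX X z0 w M A err K) (hX : 1 ≤ X) (hK : 1 ≤ K) (hl1 : 1 ≤ Real.log (X : ℝ))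
    (hs0 : 0 < s) (hl : 1 / s ≤ Real.log (X : ℝ)) : ∑ m ∈ range M, w m ≤ A * (1 + s) := by
  obtain ⟨hw, hA, hEq, hET⟩ := hE
  have hPP : ∀ p ∈ PP z0 X, p.Prime := fun p hp => PP_prime hp
  have h1 := hEq ∅ (Finset.empty_subset _) (by simpa using hX) (fun _ => 0)
    (fun p hp => absurd hp (Finset.notMem_empty p))
  simp only [Finset.notMem_empty, false_implies, implies_true, Finset.filter_true,
    Finset.prod_empty, mul_one] at h1
  have h2 : err ∅ ≤ ET K (PP z0 X) X err := by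
    unfold ET
    have h3 : (K : ℝ) ^ (∅ : Finset ℕ).card * err ∅ = err ∅ := by simp
    rw [← h3]
    refine Finset.single_le_sum (f := fun T : Finset ℕ => (K : ℝ) ^ T.card * err T) ?_ ?_
    · intro T hT
      rw [Finset.mem_filter, Finset.mem_powerset] at hT
      exact mul_nonneg (by positivity)
        (Pool.Agent.H602R2.err_nonneg _ w M A (PP z0 X) X err hPP hEq T hT.1 hT.2)
    · rw [Finset.mem_filter, Finset.mem_powerset]
      exact ⟨Finset.empty_subset _, by simpa using hX⟩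
  have h4 : A / Real.log (X : ℝ) ^ K ≤ A * s := by
    have h5 : Real.log (X : ℝ) ≤ Real.log (X : ℝ) ^ K := by
      calc Real.log (X : ℝ) = Real.log (X : ℝ) ^ 1 := (pow_one _).symm
        _ ≤ _ := pow_le_pow_right₀ hl1 hK
    have h6 : 1 / s ≤ Real.log (X : ℝ) ^ K := hl.trans h5
    rw [div_le_iff₀ (by positivity)]
    rw [div_le_iff₀ hs0] at h6
    calc A = A * 1 := (mul_one A).symm
      _ ≤ A * (Real.log (X : ℝ) ^ K * s) := mul_le_mul_of_nonneg_left h6 hA.le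
      _ = A * s * Real.log (X : ℝ) ^ K := by ring
  have h5 := (abs_le.mp h1).2
  linarith

/-- the choice of the small parameters -/
lemma choice (η Mb : ℝ) (hη : 0 < η) (hMb : 1 ≤ Mb) : ∃ s : ℝ, 0 < s ∧
    ∀ G : ℝ, 0 < G → ∃ ε₁ : ℝ, 0 < ε₁ ∧
      4 * (s + G * ε₁ + 2 * Mb * s + Mb ^ 2 * s) + 4 * (η / 32 + s) + η / 4 ≤ η := by
  refine ⟨η / (64 * (1 + Mb) ^ 2), by positivity, fun G hG => ⟨η / (32 * G), by positivity, ?_⟩⟩
  have h1 : G * (η / (32 * G)) = η / 32 := by field_simp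
  have h2 : η / (64 * (1 + Mb) ^ 2) * (1 + Mb) ^ 2 = η / 64 := by field_simp
  have h3 : η / (64 * (1 + Mb) ^ 2) ≤ η / 64 := by
    rw [← h2]
    refine le_mul_of_one_le_right (by positivity) ?_
    exact one_le_pow₀ (by linarith)
  obtain ⟨s, hs⟩ : ∃ s : ℝ, s = η / (64 * (1 + Mb) ^ 2) := ⟨_, rfl⟩
  rw [← hs] at h2 h3 ⊢
  rw [h1]
  have h4 : s + 2 * Mb * s + Mb ^ 2 * s = s * (1 + Mb) ^ 2 := by ring
  linarith

theorem core_var (C D₀ η : ℝ) (hC : 1 ≤ C) (hη : 0 < η) : ∃ c₀ : ℝ, 0 < c₀ ∧ ∃ K : ℕ, 1 ≤ K ∧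
    ∃ δ : ℝ, 0 < δ ∧ ∃ ε₁ : ℝ, 0 < ε₁ ∧ ∃ X₀ : ℕ, ∀ X : ℕ, X₀ ≤ X →
    ∀ z0 : ℕ, K ≤ z0 → (z0 : ℝ) ≤ Real.log X →
    ∀ (ρ : ℕ → ℕ → ℕ) (w : ℕ → ℝ) (M : ℕ) (A : ℝ) (err : Finset ℕ → ℝ),
      EqX X z0 w M A err K →
      ∀ (J : ℕ) (B : ℕ → Finset ℕ), 0 < J →
        (∀ j < J, ((B j).card : ℝ) * Real.log z0 ≤ C * Real.log X) →
        (∀ j < J, ∀ p ∈ PP z0 X, ∀ a ∈ B j, ρ p a < p) →
        (∀ i < J, ∀ j < J, ∀ U ⊆ B i ∪ B j, U.card ≤ K →
          dl (fun p => p) ρ (PP z0 X) U ≤ δ) →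
        (∀ m < M, w m ≠ 0 → ∀ j < J, ∀ a ∈ B j,
          ∏ p ∈ (PP z0 X).filter (fun p => m % p = ρ p a), (p : ℝ) ≤ (X : ℝ) ^ D₀) →
        ((((range J) ×ˢ (range J)).filter (fun x => ¬ Disjoint (B x.1) (B x.2))).card : ℝ) ≤
          ε₁ * J ^ 2 →
        ∑ m ∈ (range M).filter (fun m => (((range J).filter (fun j =>
          ∀ a ∈ B j, ∃ p ∈ PP z0 X, m % p = ρ p a)).card : ℝ) < c₀ * J), w m ≤ A * η := by
  obtain ⟨Mb, hMb, hcore⟩ := engine_var C D₀ (η / 32) hC (by positivity)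
  obtain ⟨s, hs0, hs⟩ := choice η Mb hη hMb
  obtain ⟨G, hG, K, hK, δ, hδ, X₀, hX₀⟩ := hcore s hs0
  obtain ⟨ε₁, hε₁, hfin⟩ := hs G hG
  obtain ⟨X₁, hX₁⟩ := eventually_atTop.mp ((tendsto_log_nat.eventually_ge_atTop (1 : ℝ)).and
    ((tendsto_log_nat.eventually_ge_atTop (1 / s)).and (eventually_ge_atTop 1)))
  refine ⟨η / 4 / (16 * G), by positivity, K, hK, δ, hδ, ε₁, hε₁, max X₀ X₁,
    fun X hX z0 hz0K hz0X ρ w M A err hE J B hJ hBc hρ hdl hprod hclose => ?_⟩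
  obtain ⟨hl1, hl2, hX1⟩ := hX₁ X ((le_max_right _ _).trans hX)
  obtain ⟨V, Ms, hV1, hV2⟩ := hX₀ X ((le_max_left _ _).trans hX) z0 hz0K hz0X ρ w M A err hE.1
    hE.2.1 hE.2.2.1 hE.2.2.2
  have htot := total_mass hE hX1 hK hl1 hs0 hl2
  have hall : ∀ j < J, (1 ≤ Ms (B j) ∧ Ms (B j) ≤ Mb) ∧
      A * (Ms (B j) - s) ≤ ∑ m ∈ range M, w m * V (B j) m ^ 2 ∧
      ∑ m ∈ (range M).filter (fun m => ¬ ∀ a ∈ B j, ∃ p ∈ PP z0 X, m % p = ρ p a),
        w m * V (B j) m ^ 2 ≤ A * (η / 32 * Ms (B j) + s) ∧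
      ∑ m ∈ range M, w m * V (B j) m ^ 4 ≤ A * G := by
    intro j hj
    refine hV1 (B j) (hBc j hj) (hρ j hj) (fun U hU hUc => ?_) (fun m hm hwm => hprod m hm hwm j hj)
    exact hdl j hj j hj U (by rw [Finset.union_self]; exact hU) hUc
  have hmain := var_abs M J w (fun j => V (B j)) (fun j => Ms (B j))
    (fun j m => ∀ a ∈ B j, ∃ p ∈ PP z0 X, m % p = ρ p a) (fun i j => Disjoint (B i) (B j))
    A s (η / 32) (η / 4) G Mb ε₁ hE.1 hE.2.1 hJ hs0.le (by positivity) (by positivity) hG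
    (by linarith) htot (fun j hj => (hall j hj).1) (fun j hj => (hall j hj).2.1)
    (fun j hj => by convert (hall j hj).2.2.1)
    (fun j hj => (hall j hj).2.2.2)
    (fun i hi j hj hd => hV2 (B i) (B j) hd (hBc i hi) (hBc j hj)
      (fun p hp a ha => by
        rcases Finset.mem_union.mp ha with h | h
        · exact hρ i hi p hp a h
        · exact hρ j hj p hp a h)
      (hdl i hi j hj))
    (by convert hclose)
  refine le_trans (le_of_eq ?_) (hmain.trans (mul_le_mul_of_nonneg_left hfin hE.2.1.le))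
  refine Finset.sum_congr ?_ fun _ _ => rfl
  ext m
  rw [Finset.mem_filter, Finset.mem_filter]
  constructor
  · rintro ⟨h1, h2⟩
    exact ⟨h1, by convert h2⟩
  · rintro ⟨h1, h2⟩
    exact ⟨h1, by convert h2⟩

end Pool.Agent.J4H30.VW
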