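import Pool.Agent.J4H30.AW.LS2
import Pool.Agent.J4H30.VW.CoreV

/-!
Project VW, part 11: the counting measure on an interval.
-/

set_option autoImplicit false

open Finset Filter

namespace Pool.Agent.J4H30.VW

open Pool.Agent.H410R2.AC Pool.Agent.H410R2.EN Pool.Agent.J4H30.AW

lemma count_range (N q : ℕ) (hq : 0 < q) (r : ℕ) :
    |(((range N).filter (fun m : ℕ => (q : ℤ) ∣ (m : ℤ) - (r : ℤ))).card : ℝ) - N / q| ≤ 1 := by
  have h1 : (range N).filter (fun m : ℕ => (q : ℤ) ∣ (m : ℤ) - (r : ℤ)) =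
      (range N).filter (fun m : ℕ => m ≡ r [MOD q]) := by
    refine Finset.filter_congr fun m _ => ?_
    rw [← Int.natCast_modEq_iff]
    exact ⟨fun h => (Int.modEq_iff_dvd.mpr h).symm, fun h => Int.modEq_iff_dvd.mp h.symm⟩
  rw [h1, ← Nat.count_eq_card_filter_range, Nat.count_modEq_card _ hq]
  have hqR : (0 : ℝ) < q := by exact_mod_cast hq
  have h2 : ((N / q : ℕ) : ℝ) ≤ N / q := Nat.cast_div_le
  have h3 : (N : ℝ) / q < (N / q : ℕ) + 1 := by
    rw [div_lt_iff₀ hqR]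
    have := Nat.lt_mul_div_succ N hq
    have h4 : (N : ℝ) < q * ((N / q : ℕ) + 1) := by exact_mod_cast this
    linarith
  rw [abs_le]
  push_cast
  split_ifs
  · constructor <;> linarith
  · constructor <;> linarith

lemma equid_one (N : ℕ) (P : Finset ℕ) (D0 : ℕ) (hP : ∀ p ∈ P, p.Prime) :
    Equid (fun p _ => 1 / (p : ℝ)) (fun _ => 1) N (N : ℝ) P D0 (fun _ => 1) := by
  classical
  intro T hT _ c hc
  have hTp : ∀ p ∈ T, p.Prime := fun p hp => hP p (hT hp)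
  obtain ⟨r, hr⟩ := crt_T hTp c hc
  obtain ⟨q, hq⟩ : ∃ q : ℕ, q = ∏ p ∈ T, p := ⟨_, rfl⟩
  rw [← hq] at hr
  have hq0 : 0 < q := by rw [hq]; exact prod_pos_of hTp
  have h2 : (N : ℝ) * ∏ p ∈ T, 1 / (p : ℝ) = N / q := by
    rw [Finset.prod_div_distrib, Finset.prod_const_one, hq]
    push_cast
    rw [mul_one_div]
  have h3 : (range N).filter (fun m => ∀ p ∈ T, m % p = c p) =
      (range N).filter (fun m : ℕ => (q : ℤ) ∣ (m : ℤ) - (r : ℤ)) :=
    Finset.filter_congr fun m _ => hr m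
  rw [h3, Finset.sum_const, nsmul_eq_mul, mul_one]
  simp only
  rw [h2]
  exact count_range N q hq0 r

lemma ET_one (K D0 : ℕ) (P : Finset ℕ) (hP : ∀ p ∈ P, p.Prime) :
    ET K P D0 (fun _ => 1) ≤ D0 * Pi1 P ^ K := by
  classical
  unfold ET
  have h1 : ∀ T ∈ P.powerset.filter (fun T : Finset ℕ => ∏ p ∈ T, p ≤ D0),
      (K : ℝ) ^ T.card * 1 ≤ D0 * ∏ p ∈ T, (K : ℝ) / p := by
    intro T hT
    rw [mem_filter, mem_powerset] at hT
    have hTp : ∀ p ∈ T, p.Prime := fun p hp => hP p (hT.1 hp)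
    have hq0 : (0 : ℝ) < ∏ p ∈ T, (p : ℝ) :=
      Finset.prod_pos fun p hp => by exact_mod_cast (hTp p hp).pos
    have hq1 : ∏ p ∈ T, (p : ℝ) ≤ D0 := by
      have h := (Nat.cast_le (α := ℝ)).mpr hT.2
      rwa [Nat.cast_prod] at h
    rw [Finset.prod_div_distrib, Finset.prod_const, mul_one, mul_div_assoc', le_div_iff₀ hq0]
    calc (K : ℝ) ^ T.card * ∏ p ∈ T, (p : ℝ) ≤ K ^ T.card * D0 :=
          mul_le_mul_of_nonneg_left hq1 (by positivity)
      _ = D0 * K ^ T.card := by ring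
  refine (Finset.sum_le_sum h1).trans ?_
  rw [← Finset.mul_sum]
  refine mul_le_mul_of_nonneg_left ?_ (Nat.cast_nonneg _)
  refine le_trans (Finset.sum_le_sum_of_subset_of_nonneg (Finset.filter_subset _ _) ?_) ?_
  · intro T _ _
    exact Finset.prod_nonneg fun p _ => by positivity
  · rw [← Finset.prod_one_add]
    exact prod_one_add_le P hP K

lemma ev_ET (C1 : ℝ) (K : ℕ) : ∀ᶠ X : ℕ in atTop,
    C1 ^ K * Real.log X ^ (2 * K) ≤ X := by
  have h1 : Tendsto (fun x : ℝ => Real.log x ^ (2 * K) / x) atTop (nhds 0) := by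
    have h0 := (Real.isLittleO_pow_log_id_atTop (n := 2 * K)).tendsto_div_nhds_zero
    simpa using h0
  have h2 := h1.const_mul (C1 ^ K)
  rw [mul_zero] at h2
  have h3 := (h2.comp tendsto_natCast_atTop_atTop).eventually_le_const (by norm_num : (0 : ℝ) < 1)
  filter_upwards [h3, eventually_ge_atTop 1] with X hX hX1
  simp only [Function.comp] at hX
  have hX0 : (0 : ℝ) < X := by exact_mod_cast hX1
  rw [mul_div_assoc', div_le_one hX0] at hX
  exact hX

/-- the counting measure satisfies the hypotheses of the engine -/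
lemma eqx_one {X z0 K N : ℕ} {C1 : ℝ} (hC1 : 1 ≤ C1) (hl1 : 1 ≤ Real.log (X : ℝ))
    (hPi : Pi1 (PP z0 X) ≤ C1 * Real.log X) (hPi0 : 0 ≤ Pi1 (PP z0 X))
    (hX : C1 ^ K * Real.log X ^ (2 * K) ≤ X) (hXN : X ^ 2 ≤ N) (hN : 0 < N) :
    EqX X z0 (fun _ => 1) N (N : ℝ) (fun _ => 1) K := by
  have hPP : ∀ p ∈ PP z0 X, p.Prime := fun p hp => PP_prime hp
  refine ⟨fun _ => zero_le_one, by exact_mod_cast hN, equid_one N _ X hPP, ?_⟩
  refine (ET_one K X _ hPP).trans ?_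
  have hl0 : 0 < Real.log (X : ℝ) := by linarith
  rw [le_div_iff₀ (by positivity)]
  have h1 : Pi1 (PP z0 X) ^ K ≤ (C1 * Real.log X) ^ K := pow_le_pow_left₀ hPi0 hPi K
  have hXN' : (X : ℝ) ^ 2 ≤ N := by exact_mod_cast hXN
  calc (X : ℝ) * Pi1 (PP z0 X) ^ K * Real.log X ^ K ≤
        X * (C1 * Real.log X) ^ K * Real.log X ^ K :=
        mul_le_mul_of_nonneg_right (mul_le_mul_of_nonneg_left h1 (Nat.cast_nonneg _))
          (by positivity)
    _ = X * (C1 ^ K * Real.log X ^ (2 * K)) := by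
        rw [mul_pow, two_mul, pow_add]
        ring
    _ ≤ X * X := mul_le_mul_of_nonneg_left hX (Nat.cast_nonneg _)
    _ = (X : ℝ) ^ 2 := by ring
    _ ≤ N := hXN'

end Pool.Agent.J4H30.VW
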