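import Pool.Agent.J4H30.VW.WinV

/-!
Project VW, part 13: one residue class modulo the primorial; all but a small proportion of the windows.
-/

set_option autoImplicit false

open Finset Filter

namespace Pool.Agent.J4H30.VW

open Pool.Agent.H410R2.AC Pool.Agent.H410R2.EN Pool.Agent.H143R2.ACF Pool.Agent.J4H30.AW

lemma pi_facts {C1 : ℝ} {z0 X : ℕ} (hC1 : 1 ≤ C1)
    (hN1 : ∀ H z : ℕ, 2 ≤ H → H ≤ z → Pi1 (PP H z) ≤ C1 * (Real.log z / Real.log H))
    (hz3 : 3 ≤ z0) (hzX' : z0 ≤ X) : 1 ≤ Real.log (X : ℝ) ∧ 0 ≤ Pi1 (PP z0 X) ∧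
      Pi1 (PP z0 X) ≤ C1 * Real.log X := by
  have hz3R : (3 : ℝ) ≤ z0 := by exact_mod_cast hz3
  have hX3R : (3 : ℝ) ≤ X := by exact_mod_cast hz3.trans hzX'
  have hlogz : 1 ≤ Real.log (z0 : ℝ) := by
    rw [Real.le_log_iff_exp_le (by linarith)]
    have := Real.exp_one_lt_d9
    linarith
  have hlogX : 1 ≤ Real.log (X : ℝ) := by
    rw [Real.le_log_iff_exp_le (by linarith)]
    have := Real.exp_one_lt_d9
    linarith
  refine ⟨hlogX, ?_, ?_⟩
  · unfold Pi1
    refine Finset.prod_nonneg fun p hp => ?_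
    have h2 := prime_two_le (PP_prime hp)
    have : (0 : ℝ) < (p : ℝ) - 1 := by linarith
    positivity
  · refine (hN1 z0 X (by omega) hzX').trans ?_
    have h1 : Real.log X / Real.log z0 ≤ Real.log X := div_le_self (by linarith) hlogz
    exact mul_le_mul_of_nonneg_left h1 (by linarith)

open Classical in
/-- from the windows to the beginnings of the windows -/
lemma fibre_bound {S : Finset ℕ} {L z0 X M b J N : ℕ} {c : ℝ} (hb : b < primorial z0) :
    ((Ioc 0 N).filter (fun n => (((range J).filter (fun j =>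
      Cov S L z0 X (M + b) (eb L (primorial z0) b n + j))).card : ℝ) < c)).card ≤
    primorial z0 * ((range (N / primorial z0 + 2)).filter (fun m => (((range J).filter (fun j =>
      ∀ a ∈ Bj S L z0 (M + b) J j, ∃ p ∈ PP z0 X, m % p =
        rho (primorial z0) (M + b + primorial z0 * (J + eb L (primorial z0) b 0)) p a)).card : ℝ)
          < c)).card := by
  have hW0 : 0 < primorial z0 := primorial_pos z0
  obtain ⟨W, hW⟩ : ∃ W : ℕ, W = primorial z0 := ⟨_, rfl⟩
  obtain ⟨m0, hm0⟩ : ∃ m0 : ℕ, m0 = eb L W b 0 := ⟨_, rfl⟩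
  have h1 := card_fibre ((Ioc 0 N).filter (fun n => (((range J).filter (fun j =>
      Cov S L z0 X (M + b) (eb L (primorial z0) b n + j))).card : ℝ) < c)) (primorial z0)
      (L + (primorial z0 - b)) hW0
  refine h1.trans (Nat.mul_le_mul_left _ ?_)
  refine Finset.card_le_card_of_injOn (fun q => q + 1 - eb L (primorial z0) b 0) ?_ ?_
  · intro q hq
    rw [mem_coe, mem_image] at hq
    obtain ⟨n, hn, rfl⟩ := hq
    rw [mem_filter, mem_Ioc] at hn
    obtain ⟨h2, h3⟩ := eb_sub (L := L) (b := b) hW0 hn.1.2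
    have h4 : (n + (L + (primorial z0 - b))) / primorial z0 + 1 = eb L (primorial z0) b n := rfl
    simp only [coe_filter, mem_range, Set.mem_ofPred_eq]
    rw [h4]
    refine ⟨h3, lt_of_le_of_lt ?_ hn.2⟩
    rw [Nat.cast_le]
    refine Finset.card_le_card ?_
    intro j hj
    rw [mem_filter, mem_range] at hj ⊢
    refine ⟨hj.1, ?_⟩
    have h5 := cov_of hj.1.le hj.2
    have h6 : eb L (primorial z0) b 0 + (eb L (primorial z0) b n - eb L (primorial z0) b 0) + j =
        eb L (primorial z0) b n + j := by omega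
    rwa [h6] at h5
  · intro q hq q' hq' h
    rw [mem_coe, mem_image] at hq hq'
    obtain ⟨n, hn, rfl⟩ := hq
    obtain ⟨n', hn', rfl⟩ := hq'
    rw [mem_filter, mem_Ioc] at hn hn'
    have h2 := (eb_sub (L := L) (b := b) hW0 hn.1.2).1
    have h2' := (eb_sub (L := L) (b := b) hW0 hn'.1.2).1
    have h4 : (n + (L + (primorial z0 - b))) / primorial z0 + 1 = eb L (primorial z0) b n := rfl
    have h4' : (n' + (L + (primorial z0 - b))) / primorial z0 + 1 = eb L (primorial z0) b n' := rfl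
    simp only [h4, h4'] at h
    have h7 : eb L (primorial z0) b n = eb L (primorial z0) b n' := by omega
    rw [← h4, ← h4'] at h7
    exact Nat.succ_injective h7

open Classical in
/-- one residue class -/
theorem one_class_V (C D₀ η : ℝ) (hC : 1 ≤ C) (hη : 0 < η) : ∃ c₀ : ℝ, 0 < c₀ ∧ ∃ K : ℕ, 1 ≤ K ∧
    ∃ δ : ℝ, 0 < δ ∧ ∃ ε₁ : ℝ, 0 < ε₁ ∧ ∃ X₀ : ℕ, ∀ X : ℕ, X₀ ≤ X →
    ∀ N H L z0 M b J : ℕ, ∀ S : Finset ℕ,
      K ≤ z0 → 3 ≤ z0 → (z0 : ℝ) ≤ Real.log X → z0 ≤ X → X ^ 2 * primorial z0 ≤ N → H ≤ N →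
      b < primorial z0 → 0 < J → primorial z0 * (J + 1) * 2 ≤ H → L * 2 ≤ H →
      2 * ((L / primorial z0 : ℕ) : ℝ) + 1 ≤ ε₁ * J →
      ((Bset S L z0 (M + b)).card : ℝ) * Real.log z0 ≤ C * Real.log X →
      2 / (z0 : ℝ) + (2 * (K : ℝ) + 1) ^ 2 * (Real.log H / (z0 * Real.log z0)) ≤ δ →
      (M : ℝ) + 3 * N ≤ (X : ℝ) ^ D₀ →
      (((Ioc 0 N).filter (fun n => (((range J).filter (fun j =>
        Cov S L z0 X (M + b) (eb L (primorial z0) b n + j))).card : ℝ) < c₀ * J)).card : ℝ) ≤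
        η * N := by
  obtain ⟨c₀, hc₀, K, hK, δ, hδ, ε₁, hε₁, X₀, hcore⟩ := core_var C D₀ (η / 3) hC (by positivity)
  obtain ⟨C1, hC1, hN1, -, -, hN4, hN5, -⟩ := Pool.Agent.H647R2.ACNT.nt
  obtain ⟨X₁, hX₁⟩ := eventually_atTop.mp (ev_ET C1 K)
  refine ⟨c₀, hc₀, K, hK, δ, hδ, ε₁, hε₁, max X₀ X₁,
    fun X hX N H L z0 M b J S hKz hz3 hzX hzX' hX2 hHN hb hJ hJH hLH hclose hB hdl hDN => ?_⟩
  obtain ⟨hl1, hPi0, hPi⟩ := pi_facts hC1 hN1 hz3 hzX'
  obtain ⟨W, hW⟩ : ∃ W : ℕ, W = primorial z0 := ⟨_, rfl⟩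
  have hW0 : 0 < W := by rw [hW]; exact primorial_pos z0
  have hX1 : 1 ≤ X := by omega
  obtain ⟨M₁, hM₁⟩ : ∃ M₁ : ℕ, M₁ = N / W + 2 := ⟨_, rfl⟩
  rw [← hW] at hX2
  have hXM : X ^ 2 ≤ M₁ := by
    have h1 : X ^ 2 ≤ N / W := (Nat.le_div_iff_mul_le hW0).mpr hX2
    rw [hM₁]
    exact h1.trans (Nat.le_add_right _ _)
  have hM₁0 : 0 < M₁ := by
    rw [hM₁]
    exact Nat.succ_pos _
  have hE : EqX X z0 (fun _ => 1) M₁ (M₁ : ℝ) (fun _ => 1) K :=
    eqx_one hC1 hl1 hPi hPi0 (hX₁ X ((le_max_right _ _).trans hX)) hXM hM₁0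
  have hWN : W ≤ N := by
    have h1 : 1 * W ≤ X ^ 2 * W := Nat.mul_le_mul_right _ (Nat.one_le_pow _ _ hX1)
    omega
  have hWM : W * M₁ ≤ 3 * N := by
    have h1 := Nat.mul_div_le N W
    rw [hM₁, Nat.mul_add]
    omega
  have h30 : W * (J + 1) * 2 = W * J * 2 + W * 2 := by ring
  have hWJ : W ≤ W * J := Nat.le_mul_of_pos_right _ hJ
  rw [← hW] at hb hJH
  obtain ⟨m0, hm0⟩ : ∃ m0 : ℕ, m0 = eb L W b 0 := ⟨_, rfl⟩
  obtain ⟨h1, h2⟩ := eb_bounds (L := L) (n := 0) hb
  rw [← hm0] at h1 h2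
  have hmain := hcore X ((le_max_left _ _).trans hX) z0 hKz hzX
    (rho W (M + b + W * (J + m0))) (fun _ => 1) M₁ M₁ (fun _ => 1) hE J
    (Bj S L z0 (M + b) J) hJ ?_ ?_ ?_ ?_ ?_
  · have hfb := fibre_bound (S := S) (L := L) (z0 := z0) (X := X) (M := M) (b := b) (J := J) (N := N)
      (c := c₀ * J) (by rw [← hW]; exact hb)
    rw [Finset.sum_const, nsmul_eq_mul, mul_one] at hmain
    have hfb' := (Nat.cast_le (α := ℝ)).mpr hfb
    refine hfb'.trans ?_
    rw [Nat.cast_mul, ← hW, ← hM₁, ← hm0]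
    have hWM' : (W : ℝ) * M₁ ≤ 3 * N := by exact_mod_cast hWM
    refine le_trans (mul_le_mul_of_nonneg_left ?_ (Nat.cast_nonneg W)) (b := W * (M₁ * (η / 3))) ?_
    · refine le_trans (le_of_eq ?_) hmain
      congr 2
    · calc (W : ℝ) * (M₁ * (η / 3)) = (W * M₁) * (η / 3) := by ring
        _ ≤ (3 * N) * (η / 3) := mul_le_mul_of_nonneg_right hWM' (by positivity)
        _ = η * N := by ring
  · intro j _
    refine le_trans (mul_le_mul_of_nonneg_right ?_ (Real.log_natCast_nonneg _)) hB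
    exact_mod_cast Bj_card S L z0 (M + b) J j
  · intro j _ p hp a _
    exact rho_lt (PP_prime hp)
  · intro i _ j _ U hU hUc
    have hUH : ∀ a ∈ U, a ≤ H := by
      intro a ha
      rcases Finset.mem_union.mp (hU ha) with h | h
      · have := Bj_le h
        rw [← hW] at this
        omega
      · have := Bj_le h
        rw [← hW] at this
        omega
    refine (dl_le (L := H) (k := K) U hUH (by omega) (by omega)
      (fun p hp => by rw [hW]; exact not_dvd_primorial hp)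
      (hN4 z0 X (by omega)) (fun d h1 h2 => hN5 z0 X d H (by omega) h1 h2)).trans hdl
  · intro m hm _ j _ a ha
    have haL := Bj_le ha
    rw [← hW] at haL
    have e1 : W * (J + m0) = W * J + W * m0 := Nat.mul_add _ _ _
    have hmN : W * m ≤ N + W := by
      have h4 : m ≤ N / W + 1 := by
        rw [hM₁] at hm
        exact Nat.lt_succ_iff.mp hm
      have h5 := Nat.mul_le_mul_left W h4
      have h6 := Nat.mul_div_le N W
      rw [Nat.mul_add, mul_one] at h5
      omega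
    have key := prod_le_pos (z0 := z0) (X := X) (b := M + b + W * (J + m0)) (a := a) (m := m)
      (T := (X : ℝ) ^ D₀) (by rw [← hW]; omega) (by
        refine le_trans ?_ hDN
        have h7 : M + b + W * (J + m0) + primorial z0 * m ≤ M + 3 * N := by
          rw [← hW]
          omega
        have h8 := (Nat.cast_le (α := ℝ)).mpr h7
        push_cast at h8 ⊢
        exact h8)
    rw [← hW] at key
    exact key
  · have h5 := close_Bj S L z0 (M + b) J
    have h6 := (Nat.cast_le (α := ℝ)).mpr h5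
    have h7 : ((((range J) ×ˢ (range J)).filter
      (fun x => ¬ Disjoint (Bj S L z0 (M + b) J x.1) (Bj S L z0 (M + b) J x.2))).card : ℝ) ≤
        ε₁ * J ^ 2 := by
      refine h6.trans ?_
      push_cast
      calc (2 * ((L / primorial z0 : ℕ) : ℝ) + 1) * (J : ℝ) ≤ (ε₁ * J) * J :=
            mul_le_mul_of_nonneg_right hclose (Nat.cast_nonneg _)
        _ = ε₁ * J ^ 2 := by ring
    convert h7

end Pool.Agent.J4H30.VW
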