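import Pool.Agent.J4H30.VW.ParA
import Pool.Agent.J4H30.VW.ClsV

/-!
Project VW, part 15: almost all windows of length a large constant times the logarithm.
-/

set_option autoImplicit false

open Finset Filter

namespace Pool.Agent.J4H30.VW

open Pool.Agent.H410R2.AC Pool.Agent.H410R2.EN Pool.Agent.H143R2.ACF Pool.Agent.J4H30.AW

open Classical in
/-- almost all windows -/
theorem pos_V (C θ η : ℝ) (A : ℕ) (hC : 1 ≤ C) (hθ : 0 < θ) (hθ4 : θ ≤ 1 / 4) (hη : 0 < η) :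
    ∃ c : ℝ, 0 < c ∧ ∃ K : ℝ, 1 ≤ K ∧ ∃ N₀ : ℕ, ∀ N : ℕ, N₀ ≤ N → ∀ M : ℕ, M ≤ N ^ A →
      ∀ H L : ℕ, Real.log N ≤ H → H ≤ N → K * L ≤ H →
      ∀ S : Finset ℕ, (∀ s ∈ S, s ≤ L) → (S.card : ℝ) ≤ C * Real.log N →
      (((Ioc 0 N).filter (fun n =>
        (((Ioc (M + n) (M + n + H / 2)).filter (fun m => Gd S N θ m)).card : ℝ) < c * H)).card : ℝ) ≤
        η * N := by
  obtain ⟨c₀, hc₀, K₂, hK₂, δ, hδ, ε₁, hε₁, X₀, hcls⟩ := one_class_V (4 * C / θ)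
    ((A + 2 : ℕ) / θ) (η / 4) (by
      rw [le_div_iff₀ hθ]
      linarith) (by positivity)
  obtain ⟨κ, hκ⟩ : ∃ κ : ℝ, κ = θ / 16 := ⟨_, rfl⟩
  have hκ0 : 0 < κ := by rw [hκ]; positivity
  obtain ⟨Z, hZ⟩ := eventually_atTop.mp (ev_delta2 ((2 * (K₂ : ℝ) + 1) ^ 2) (2 / κ) δ hδ)
  -- large H
  have a1 : ∀ᶠ H : ℕ in atTop, max (max Z K₂) 3 ≤ ⌊κ * Real.log H⌋₊ := by
    have h1 : Tendsto (fun H : ℕ => ⌊κ * Real.log H⌋₊) atTop atTop :=
      tendsto_nat_floor_atTop.comp (tendsto_log_nat.const_mul_atTop hκ0)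
    exact h1.eventually_ge_atTop _
  have a3 : ∀ᶠ H : ℕ in atTop, 8 + 8 / ε₁ ≤ (H : ℝ) ^ (1 / 2 : ℝ) :=
    ((tendsto_rpow_atTop (by norm_num)).comp tendsto_natCast_atTop_atTop).eventually_ge_atTop _
  obtain ⟨H₀, hH₀⟩ := eventually_atTop.mp (a1.and a3)
  -- large N
  have b1 : ∀ᶠ N : ℕ in atTop, (H₀ : ℝ) + 1 + Real.log 2 * (2 / θ) ≤ Real.log N :=
    tendsto_log_nat.eventually_ge_atTop _
  have b2 : ∀ᶠ N : ℕ in atTop, (X₀ : ℝ) + 1 ≤ (N : ℝ) ^ θ :=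
    ((tendsto_rpow_atTop hθ).comp tendsto_natCast_atTop_atTop).eventually_ge_atTop _
  have b3 : ∀ᶠ N : ℕ in atTop, 4 * (2 : ℝ) ^ (((A + 2 : ℕ) : ℝ) / θ) ≤ (N : ℝ) :=
    tendsto_natCast_atTop_atTop.eventually_ge_atTop _
  obtain ⟨N₀, hN₀⟩ := eventually_atTop.mp (b1.and (b2.and (b3.and (eventually_ge_atTop 16))))
  refine ⟨c₀ / 16, by positivity, 2 + 16 / ε₁, by
    have : 0 < 16 / ε₁ := by positivity
    linarith, N₀, fun N hN M hM H L hH1 hH2 hKL S hS1 hS2 => ?_⟩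
  obtain ⟨g1, g2, g3, g4⟩ := hN₀ N hN
  have hl2 : (0 : ℝ) < Real.log 2 := Real.log_pos (by norm_num)
  have hlt : 0 ≤ Real.log 2 * (2 / θ) := by positivity
  have hH₀R : (0 : ℝ) ≤ H₀ := Nat.cast_nonneg _
  have hHH₀ : H₀ ≤ H := by
    have : (H₀ : ℝ) ≤ H := by linarith
    exact_mod_cast this
  obtain ⟨k1, k3⟩ := hH₀ H hHH₀
  have hHR1 : (1 : ℝ) ≤ H := by linarith
  have hHR0 : (0 : ℝ) < H := by linarith
  have hHN : (H : ℝ) ≤ N := by exact_mod_cast hH2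
  have hNR : (16 : ℝ) ≤ N := by exact_mod_cast g4
  have hN0 : (0 : ℝ) < N := by linarith
  obtain ⟨X, hX⟩ : ∃ X : ℕ, X = ⌊(N : ℝ) ^ θ⌋₊ := ⟨_, rfl⟩
  obtain ⟨x1, x2, x3, x4, x5, x6⟩ := x_facts (A := A) hθ hθ4 hX (by linarith) g2 g3 g4
  obtain ⟨z0, hz0⟩ : ∃ z0 : ℕ, z0 = ⌊κ * Real.log H⌋₊ := ⟨_, rfl⟩
  rw [← hz0] at k1
  have hzZ : Z ≤ z0 := ((le_max_left _ _).trans (le_max_left _ _)).trans k1
  have hzK : K₂ ≤ z0 := ((le_max_right _ _).trans (le_max_left _ _)).trans k1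
  have hz3 : 3 ≤ z0 := (le_max_right _ _).trans k1
  have hlogH0 : 0 ≤ Real.log (H : ℝ) := Real.log_nonneg hHR1
  have hz0le : (z0 : ℝ) ≤ κ * Real.log H := by
    rw [hz0]
    exact Nat.floor_le (by positivity)
  have hz0gt : κ * Real.log H < z0 + 1 := by
    rw [hz0]
    exact Nat.lt_floor_add_one _
  obtain ⟨W, hW⟩ : ∃ W : ℕ, W = primorial z0 := ⟨_, rfl⟩
  have hW0 : 0 < W := by rw [hW]; exact primorial_pos z0
  have hWle : (W : ℝ) ≤ (H : ℝ) ^ (1 / 2 : ℝ) := by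
    rw [hW]
    refine (prim_le hHR1 hz0le).trans (Real.rpow_le_rpow_of_exponent_le hHR1 ?_)
    rw [hκ]
    linarith
  have hHsq : (H : ℝ) ^ (1 / 2 : ℝ) * (H : ℝ) ^ (1 / 2 : ℝ) = H := by
    rw [← Real.rpow_add hHR0]
    norm_num
  have hWbig : (W : ℝ) * (8 + 8 / ε₁) ≤ H := by
    calc (W : ℝ) * (8 + 8 / ε₁) ≤ (H : ℝ) ^ (1 / 2 : ℝ) * (H : ℝ) ^ (1 / 2 : ℝ) :=
          mul_le_mul hWle k3 (by positivity) (by positivity)
      _ = H := hHsq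
  have hWR : (0 : ℝ) < W := by exact_mod_cast hW0
  have hWe : 0 < (W : ℝ) * (8 / ε₁) := by positivity
  have hW8 : W * 8 ≤ H := by
    have : (W : ℝ) * 8 ≤ H := by linarith
    exact_mod_cast this
  obtain ⟨J, hJ⟩ : ∃ J : ℕ, J = H / (2 * W) - 1 := ⟨_, rfl⟩
  obtain ⟨j1, j2, j3⟩ := j_facts hW0 hJ hW8
  have hLR : (0 : ℝ) ≤ L := Nat.cast_nonneg _
  have hL16 : 0 ≤ 16 / ε₁ * (L : ℝ) := by positivity
  have hLH : L * 2 ≤ H := by
    have : (L : ℝ) * 2 ≤ H := by linarith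
    exact_mod_cast this
  have hclose := close_facts (L := L) hε₁ hW0 j2 (by linarith) (by linarith)
  have hcoll := coll (δ := δ) (k := (2 * (K₂ : ℝ) + 1) ^ 2) hκ0 hz3 (by positivity) hz0gt (hZ z0 hzZ)
  have hz0X : (z0 : ℝ) ≤ Real.log X := by
    refine le_trans ?_ x4
    have h1 : Real.log H ≤ Real.log N := Real.log_le_log hHR0 hHN
    have h2 : (0 : ℝ) ≤ Real.log N := by linarith
    calc (z0 : ℝ) ≤ κ * Real.log H := hz0le
      _ ≤ κ * Real.log N := mul_le_mul_of_nonneg_left h1 hκ0.le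
      _ ≤ θ / 2 * Real.log N := by
        refine mul_le_mul_of_nonneg_right ?_ h2
        rw [hκ]
        linarith
  have hX0 : (0 : ℝ) < X := by exact_mod_cast x3
  have hz0leX : z0 ≤ X := by
    have h1 := Real.log_le_sub_one_of_pos hX0
    have : (z0 : ℝ) ≤ X := by linarith
    exact_mod_cast this
  have hX2 : X ^ 2 * primorial z0 ≤ N := by
    rw [← hW]
    have h1 : (X : ℝ) ^ 2 * W ≤ (N : ℝ) ^ (1 / 2 : ℝ) * (N : ℝ) ^ (1 / 2 : ℝ) :=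
      mul_le_mul x5 (hWle.trans (Real.rpow_le_rpow hHR0.le hHN (by norm_num))) hWR.le
        (by positivity)
    have h2 : (N : ℝ) ^ (1 / 2 : ℝ) * (N : ℝ) ^ (1 / 2 : ℝ) = N := by
      rw [← Real.rpow_add hN0]
      norm_num
    rw [h2] at h1
    exact_mod_cast h1
  rw [hW] at j1 j2 hclose
  have hfin := assemble (S := S) (L := L) (z0 := z0) (X := X) (H := H) (J := J) (N := N) (M := M)
    (θ := θ) (c₀ := c₀) (T := η / 4 * N) hc₀ (by positivity) hz0leX x1 hS1 j1 j2 (fun b hb hBb => by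
      refine hcls X x2 N H L z0 M b J S hzK hz3 hz0X hz0leX hX2 hH2 hb j3 j1 hLH hclose ?_ hcoll
        (x6 M hM)
      calc ((Bset S L z0 (M + b)).card : ℝ) * Real.log z0 ≤ 2 * S.card := hBb
        _ ≤ 2 * (C * Real.log N) := mul_le_mul_of_nonneg_left hS2 (by norm_num)
        _ = 4 * C / θ * (θ / 2 * Real.log N) := by field_simp; ring
        _ ≤ 4 * C / θ * Real.log X := mul_le_mul_of_nonneg_left x4 (by positivity))
  refine hfin.trans (le_of_eq ?_)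
  ring

end Pool.Agent.J4H30.VW
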