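import Pool.Agent.J4H30.VW.Idx
import Pool.Agent.J4H30.VW.PosV

/-!
Project VW, part 18: most indices are followed by a large gap after a bounded number of steps.
-/

set_option autoImplicit false

open Finset Filter

namespace Pool.Agent.J4H30.VW

open Pool.Agent.H357R2.SI Pool.Agent.J4H30.AW

/-- without large gaps there are no good integers -/
lemma run {i k G m X : ℕ} {θ : ℝ} (hG : ∀ j, i ≤ j → j < i + k → Pn (j + 1) ≤ Pn j + G)
    (h1 : Pn i ≤ m) (h2 : m < Pn (i + k)) (h3 : (X : ℝ) ^ θ ≤ m) : ¬ Gd (Icc 1 G) X θ m := by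
  intro hGd
  obtain ⟨j, hj1, hj2, hj3, hj4⟩ := exists_idx h1 h2
  have hg := hG j hj1 hj2
  have hs : Pn (j + 1) - m ∈ Icc 1 G := by
    rw [mem_Icc]
    omega
  obtain ⟨p, hp, hpX, hpd⟩ := hGd _ hs
  have e : m + (Pn (j + 1) - m) = Pn (j + 1) := by omega
  rw [e] at hpd
  have h4 : p = Pn (j + 1) := (Nat.prime_dvd_prime_iff_eq hp (Pn_prime _)).mp hpd
  have h5 : (m : ℝ) < Pn (j + 1) := by exact_mod_cast hj4
  rw [h4] at hpX
  linarith

open Classical in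
/-- the indices followed by few primes, none of which begins a large gap -/
lemma part_three {I : Finset ℕ} {k G H t T X : ℕ} {θ c ηV C₂ e L : ℝ}
    (hI : ∀ i ∈ I, (∀ j, i ≤ j → j < i + k → Pn (j + 1) ≤ Pn j + G) ∧ 2 * Pn i ≤ X ∧ T < Pn i ∧
      Pn i + H < Pn (i + k))
    (hc : 0 < c) (hH : 0 < H) (ht : 0 < t) (htH : 3 * t ≤ H) (hTX : (X : ℝ) ^ θ ≤ T) (hHT : H ≤ T)
    (he : 0 ≤ e) (hηV : ηV * C₂ = e ^ 2) (hC₂ : 0 < C₂) (hL : 0 < L)
    (hV : (((Ioc 0 X).filter (fun n =>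
      (((Ioc n (n + H / 2)).filter (fun m => Gd (Icc 1 G) X θ m)).card : ℝ) < c * H)).card : ℝ) ≤
        ηV * X)
    (hm : ∑ n ∈ range X, (pc n (n + t) : ℝ) ^ 2 ≤ C₂ * X * t ^ 2 / L ^ 2) :
    (I.card : ℝ) ≤ e * (X / L) := by
  obtain ⟨E, hE⟩ : ∃ E : Finset ℕ, E = (Ioc 0 X).filter (fun n =>
      (((Ioc n (n + H / 2)).filter (fun m => Gd (Icc 1 G) X θ m)).card : ℝ) < c * H) := ⟨_, rfl⟩
  rw [← hE] at hV
  obtain ⟨E', hE'⟩ : ∃ E' : Finset ℕ, E' = (range X).filter (fun n => n + t ∈ E) := ⟨_, rfl⟩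
  have hcard : E'.card ≤ E.card := by
    refine Finset.card_le_card_of_injOn (fun n => n + t) ?_ ?_
    · intro n hn
      rw [mem_coe, hE', mem_filter] at hn
      exact hn.2
    · intro a _ b _ h
      simpa using h
  have hmem : ∀ i ∈ I, ∀ n, n < Pn i → Pn i ≤ n + t → n ∈ E' := by
    intro i hi n h1 h2
    obtain ⟨g1, g2, g3, g4⟩ := hI i hi
    rw [hE', mem_filter, mem_range]
    refine ⟨by omega, ?_⟩
    rw [hE, mem_filter, mem_Ioc]
    refine ⟨⟨by omega, by omega⟩, ?_⟩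
    have h0 : (Ioc (n + t) (n + t + H / 2)).filter (fun m => Gd (Icc 1 G) X θ m) = ∅ := by
      rw [Finset.filter_eq_empty_iff]
      intro m hm
      rw [mem_Ioc] at hm
      refine run g1 (by omega) (by omega) (hTX.trans ?_)
      have : T ≤ m := by omega
      exact_mod_cast this
    rw [h0, card_empty, Nat.cast_zero]
    have : (0 : ℝ) < H := by exact_mod_cast hH
    positivity
  have h1 := few_in_E (I := I) (E := E') (t := t) (X := X)
    (fun i hi => by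
      obtain ⟨g1, g2, g3, g4⟩ := hI i hi
      omega) hmem
  have htR : (0 : ℝ) < t := by exact_mod_cast ht
  have hXR : (0 : ℝ) ≤ X := Nat.cast_nonneg X
  have hEV : (E'.card : ℝ) ≤ ηV * X := by
    have : (E'.card : ℝ) ≤ E.card := by exact_mod_cast hcard
    linarith
  have h2 : ((t : ℝ) * I.card) ^ 2 ≤ (t * (e * (X / L))) ^ 2 := by
    calc ((t : ℝ) * I.card) ^ 2 ≤ (E'.card : ℝ) * ∑ n ∈ range X, (pc n (n + t) : ℝ) ^ 2 := h1
      _ ≤ (ηV * X) * (C₂ * X * t ^ 2 / L ^ 2) :=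
          mul_le_mul hEV hm (Finset.sum_nonneg fun _ _ => sq_nonneg _)
            ((Nat.cast_nonneg _).trans hEV)
      _ = (ηV * C₂) * (X * t / L) ^ 2 := by
          field_simp
      _ = e ^ 2 * (X * t / L) ^ 2 := by rw [hηV]
      _ = (t * (e * (X / L))) ^ 2 := by
          field_simp
  have h3 : (t : ℝ) * I.card ≤ t * (e * (X / L)) := by
    refine le_of_sq_le_sq h2 ?_
    positivity
  exact le_of_mul_le_mul_left h3 htR

lemma part_two {I : Finset ℕ} {k H X : ℕ} {C₂ L : ℝ}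
    (hI : ∀ i ∈ I, H ≤ Pn i ∧ Pn i ≤ X) (hK : ∀ i ∈ I, Pn (i + k) ≤ Pn i + H) (hH : 0 < H)
    (hk : 0 < k) (hL : 0 < L)
    (hm : ∑ n ∈ range X, (pc n (n + 2 * H) : ℝ) ^ 2 ≤ C₂ * X * (2 * H : ℕ) ^ 2 / L ^ 2) :
    (I.card : ℝ) ≤ 4 * C₂ * (H / L) / k * (X / L) := by
  have h1 := many_primes hI hK
  have h2 : (k : ℝ) * (H * I.card) ≤ ∑ n ∈ range X, (pc n (n + 2 * H) : ℝ) ^ 2 := by
    exact_mod_cast h1
  have hHR : (0 : ℝ) < H := by exact_mod_cast hH
  have hkR : (0 : ℝ) < k := by exact_mod_cast hk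
  have h3 : (k : ℝ) * H * I.card ≤ (k * H) * (4 * C₂ * (H / L) / k * (X / L)) := by
    calc (k : ℝ) * H * I.card = k * (H * I.card) := by ring
      _ ≤ C₂ * X * (2 * H : ℕ) ^ 2 / L ^ 2 := h2.trans hm
      _ = (k * H) * (4 * C₂ * (H / L) / k * (X / L)) := by
          push_cast
          field_simp
          ring
  exact le_of_mul_le_mul_left h3 (by positivity)

end Pool.Agent.J4H30.VW
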