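import Pool.Agent.J4H30.VW.Bad

/-!
Project VW, part 20: blocks of consecutive gaps.
-/

set_option autoImplicit false

open Finset Filter

namespace Pool.Agent.J4H30.VW

open Classical in
/-- each large gap serves few indices -/
lemma good_le {Lg : ℕ → Prop} {n k k₁ : ℕ} :
    ((Ico n (n + k - k₁)).filter (fun i => ¬ ∀ j, i ≤ j → j < i + k₁ → ¬ Lg j)).card ≤
      k₁ * ((range k).filter (fun i => Lg (n + i))).card := by
  have h1 : (Ico n (n + k - k₁)).filter (fun i => ¬ ∀ j, i ≤ j → j < i + k₁ → ¬ Lg j) ⊆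
      ((range k).filter (fun i => Lg (n + i))).biUnion (fun i => Ioc (n + i - k₁) (n + i) ∪
        (if n + i < k₁ then {0} else ∅)) := by
    intro i hi
    rw [mem_filter, mem_Ico] at hi
    obtain ⟨⟨h1, h2⟩, h3⟩ := hi
    push Not at h3
    obtain ⟨j, hj1, hj2, hj3⟩ := h3
    rw [mem_biUnion]
    refine ⟨j - n, ?_, ?_⟩
    · rw [mem_filter, mem_range]
      have e : n + (j - n) = j := by omega
      rw [e]
      exact ⟨by omega, hj3⟩
    · have e : n + (j - n) = j := by omega
      rw [e, mem_union, mem_Ioc]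
      by_cases h : j < k₁
      · rcases Nat.eq_zero_or_pos i with h0 | h0
        · right
          rw [if_pos h, h0]
          exact mem_singleton_self 0
        · left
          omega
      · left
        omega
  refine (Finset.card_le_card h1).trans ?_
  rw [mul_comm]
  refine Finset.card_biUnion_le_card_mul _ _ _ fun i _ => ?_
  refine (Finset.card_union_le _ _).trans ?_
  rw [Nat.card_Ioc]
  split_ifs with h
  · rw [card_singleton]
    omega
  · rw [card_empty]
    omega

open Classical in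
/-- from few large gaps in a block to many bad indices -/
lemma many_bad {Lg : ℕ → Prop} {n k k₁ : ℕ} (hk₁ : 0 < k₁) (hk : 4 * k₁ ≤ k)
    (h : 4 * k₁ * ((range k).filter (fun i => Lg (n + i))).card < k) (E : Finset ℕ)
    (hE : ∀ i, i < n + k → (∀ j, i ≤ j → j < i + k₁ → ¬ Lg j) → i ∈ E) :
    k ≤ 2 * (E.filter (fun x => n ≤ x ∧ x < n + k)).card := by
  have h1 := good_le (Lg := Lg) (n := n) (k := k) (k₁ := k₁)
  have h2 : ((Ico n (n + k - k₁)).filter (fun i => ∀ j, i ≤ j → j < i + k₁ → ¬ Lg j)).card ≤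
      (E.filter (fun x => n ≤ x ∧ x < n + k)).card := by
    refine Finset.card_le_card fun i hi => ?_
    rw [mem_filter, mem_Ico] at hi
    rw [mem_filter]
    exact ⟨hE i (by omega) hi.2, by omega, by omega⟩
  have h3 := Finset.card_filter_add_card_filter_not (s := Ico n (n + k - k₁))
    (fun i => ∀ j, i ≤ j → j < i + k₁ → ¬ Lg j)
  rw [Nat.card_Ico] at h3
  have h4 : 4 * (k₁ * ((range k).filter (fun i => Lg (n + i))).card) < k := by
    rw [← mul_assoc]
    exact h
  omega

open Classical in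
/-- blocks of consecutive gaps -/
theorem blocks (C η : ℝ) (hη : 0 < η) : ∃ K N₀ : ℕ, 0 < K ∧ ∀ N : ℕ, N₀ ≤ N →
    (((range N).filter (fun n => ∃ k, K ≤ k ∧ K * ((range k).filter (fun i =>
      C * Real.log (Pn (n + i)) < (Pn (n + i + 1) : ℝ) - Pn (n + i))).card < k)).card : ℝ) ≤
      η * N := by
  obtain ⟨k₁, hk₁, N₀, hbad⟩ := bad_idx (max C 1) (min (η / 2) (1 / 4)) (le_max_right _ _)
    (lt_min (by positivity) (by norm_num))
  obtain ⟨Lg, hLg⟩ : ∃ Lg : ℕ → Prop, Lg = fun j => C * Real.log (Pn j) < (Pn (j + 1) : ℝ) - Pn j :=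
    ⟨_, rfl⟩
  obtain ⟨E, hE⟩ : ∃ E : ℕ → Finset ℕ, E = fun N => (range (2 * N)).filter (fun i =>
    ∀ j, i ≤ j → j < i + k₁ → ¬ Lg j) := ⟨_, rfl⟩
  have hEcard : ∀ N, N₀ ≤ N → ((E N).card : ℝ) ≤ min (η / 2) (1 / 4) * N := by
    intro N hN
    refine le_trans ?_ (hbad N hN)
    rw [Nat.cast_le]
    refine Finset.card_le_card fun i hi => ?_
    rw [hE, mem_filter] at hi
    rw [mem_filter]
    refine ⟨hi.1, fun j hj1 hj2 => ?_⟩
    have h1 := hi.2 j hj1 hj2
    rw [hLg] at h1
    refine (not_lt.mp h1).trans ?_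
    refine mul_le_mul_of_nonneg_right (le_max_left _ _) ?_
    exact Real.log_natCast_nonneg _
  refine ⟨4 * k₁, N₀, by omega, fun N hN => ?_⟩
  have hsub : (range N).filter (fun n => ∃ k, 4 * k₁ ≤ k ∧ 4 * k₁ * ((range k).filter (fun i =>
      C * Real.log (Pn (n + i)) < (Pn (n + i + 1) : ℝ) - Pn (n + i))).card < k) ⊆
      (range N).filter (fun n => ∃ k, 1 ≤ k ∧ k ≤ N ∧
        k ≤ 2 * ((E N).filter (fun x => n ≤ x ∧ x < n + k)).card) := by
    intro n hn
    rw [mem_filter, mem_range] at hn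
    obtain ⟨hnN, k, hk, hkc⟩ := hn
    rw [mem_filter, mem_range]
    refine ⟨hnN, k, by omega, ?_⟩
    have hkc' : 4 * k₁ * ((range k).filter (fun i => Lg (n + i))).card < k := by
      rw [hLg]
      exact hkc
    rcases le_or_gt k N with h | h
    · refine ⟨h, many_bad hk₁ hk hkc' (E N) fun i hi hb => ?_⟩
      rw [hE, mem_filter, mem_range]
      exact ⟨by omega, hb⟩
    · exfalso
      have h1 := many_bad hk₁ hk hkc' (E k) fun i hi hb => by
        rw [hE, mem_filter, mem_range]
        exact ⟨by omega, hb⟩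
      have h2 := hEcard k (by omega)
      have h3 : ((E k).filter (fun x => n ≤ x ∧ x < n + k)).card ≤ (E k).card :=
        Finset.card_filter_le _ _
      have h4 : (k : ℝ) ≤ 2 * (E k).card := by exact_mod_cast (by omega : k ≤ 2 * (E k).card)
      have h5 : min (η / 2) (1 / 4) * (k : ℝ) ≤ 1 / 4 * k :=
        mul_le_mul_of_nonneg_right (min_le_right _ _) (Nat.cast_nonneg _)
      have h6 : (0 : ℝ) < k := by exact_mod_cast (by omega : 0 < k)
      linarith
  have h1 := (Finset.card_le_card hsub).trans (rising (E N) N)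
  have h2 : ((E N).filter (fun x => x < 2 * N)).card ≤ (E N).card := Finset.card_filter_le _ _
  have h3 := hEcard N hN
  have h4 : min (η / 2) (1 / 4) * (N : ℝ) ≤ η / 2 * N :=
    mul_le_mul_of_nonneg_right (min_le_left _ _) (Nat.cast_nonneg _)
  have h5 : (((range N).filter (fun n => ∃ k, 4 * k₁ ≤ k ∧ 4 * k₁ * ((range k).filter (fun i =>
      C * Real.log (Pn (n + i)) < (Pn (n + i + 1) : ℝ) - Pn (n + i))).card < k)).card : ℝ) ≤
      2 * (E N).card := by
    exact_mod_cast h1.trans (Nat.mul_le_mul_left 2 h2)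
  linarith

end Pool.Agent.J4H30.VW
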