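import Pool.Agent.J4H30.VW.EngA

/-!
Project VW, part 5: the scale, the primes and the families.
-/

set_option autoImplicit false

open Finset Filter

namespace Pool.Agent.J4H30.VW

open Pool.Agent.H410R2.AC Pool.Agent.H410R2.EN Pool.Agent.J4H30.AW

/-- the facts on the scale `h = 2 ^ 2 ^ J` -/
def Scale (v : ℝ) (X J : ℕ) : Prop :=
  16 ≤ X ∧ 1 ≤ Real.log (X : ℝ) ∧ (16 : ℝ) ≤ (2 : ℝ) ^ 2 ^ J ∧
    (X : ℝ) ^ (v / 2) ≤ (2 : ℝ) ^ 2 ^ J ∧ (2 : ℝ) ^ 2 ^ J ≤ (X : ℝ) ^ v ∧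
    (X : ℝ) ^ v ≤ ((2 : ℝ) ^ 2 ^ J) ^ 2 ∧ (J : ℝ) + 2 ≤ Real.log X ∧
    Real.log X ≤ (2 : ℝ) ^ 2 ^ J ∧ 2 ^ 2 ^ J ≤ X ∧ v / 2 * Real.log X ≤ Real.log ((2 : ℝ) ^ 2 ^ J)

lemma exists_scale (v : ℝ) (hv0 : 0 < v) (hv8 : v ≤ 1 / 8) :
    ∀ᶠ X : ℕ in atTop, ∃ J : ℕ, Scale v X J := by
  have hev1 : ∀ᶠ X : ℕ in atTop, (1 : ℝ) ≤ Real.log X := tendsto_log_nat.eventually_ge_atTop 1
  have hev3 : ∀ᶠ X : ℕ in atTop, Real.log 16 / v * 2 ≤ Real.log X :=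
    tendsto_log_nat.eventually_ge_atTop _
  have hev4 : ∀ᶠ X : ℕ in atTop, Real.log X ≤ (X : ℝ) ^ (v / 2) := by
    have h1 : Tendsto (fun x : ℝ => Real.log x / x ^ (v / 2)) atTop (nhds 0) :=
      (isLittleO_log_rpow_atTop (by positivity)).tendsto_div_nhds_zero
    have h2 := (h1.comp tendsto_natCast_atTop_atTop).eventually_le_const (by norm_num : (0 : ℝ) < 1)
    filter_upwards [h2, eventually_ge_atTop 1] with X hX hX1
    simp only [Function.comp] at hX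
    have : (0 : ℝ) < (X : ℝ) ^ (v / 2) := by positivity
    rwa [div_le_one this] at hX
  filter_upwards [hev1, hev3, hev4, eventually_ge_atTop 16] with X he1 he3 he4 hX16
  have hX1 : (1 : ℝ) ≤ X := by exact_mod_cast (by omega : 1 ≤ X)
  have hX0 : (0 : ℝ) < X := by linarith
  have hlX : 0 < Real.log (X : ℝ) := by linarith
  have hXv2 : (16 : ℝ) ≤ (X : ℝ) ^ (v / 2) := by
    have h1 : Real.log 16 ≤ v / 2 * Real.log X := by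
      have h2 : Real.log 16 / v * 2 * (v / 2) ≤ Real.log X * (v / 2) :=
        mul_le_mul_of_nonneg_right he3 (by positivity)
      have h3 : Real.log 16 / v * 2 * (v / 2) = Real.log 16 := by field_simp
      linarith
    rw [← Real.log_rpow hX0] at h1
    exact (Real.log_le_log_iff (by norm_num) (by positivity)).mp h1
  have hXvsq : (X : ℝ) ^ v = ((X : ℝ) ^ (v / 2)) ^ 2 := by
    rw [← Real.rpow_natCast, ← Real.rpow_mul hX0.le]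
    congr 1
    push_cast
    ring
  have h2v : 2 ≤ (X : ℝ) ^ v := by
    rw [hXvsq]
    calc (2 : ℝ) ≤ 16 ^ 2 := by norm_num
      _ ≤ _ := pow_le_pow_left₀ (by norm_num) hXv2 2
  obtain ⟨J, hJ1, hJ2⟩ := exists_J ((X : ℝ) ^ v) h2v
  have hHge : (X : ℝ) ^ (v / 2) ≤ (2 : ℝ) ^ 2 ^ J := by
    rw [hXvsq] at hJ2
    exact le_of_lt (lt_of_pow_lt_pow_left₀ 2 (by positivity) hJ2)
  have hH16 : (16 : ℝ) ≤ (2 : ℝ) ^ 2 ^ J := hXv2.trans hHge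
  have hlog : Real.log ((2 : ℝ) ^ 2 ^ J) = (2 : ℝ) ^ J * Real.log 2 := by
    rw [Real.log_pow]
    push_cast
    rfl
  have hlH1 : Real.log ((2 : ℝ) ^ 2 ^ J) ≤ v * Real.log X := by
    rw [← Real.log_rpow hX0]
    exact Real.log_le_log (by linarith) hJ1
  have hlH2 : v / 2 * Real.log X ≤ Real.log ((2 : ℝ) ^ 2 ^ J) := by
    rw [← Real.log_rpow hX0]
    exact Real.log_le_log (by positivity) hHge
  have hHX : (2 : ℝ) ^ 2 ^ J ≤ X := hJ1.trans (by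
      calc (X : ℝ) ^ v ≤ (X : ℝ) ^ (1 : ℝ) :=
            Real.rpow_le_rpow_of_exponent_le hX1 (by linarith)
        _ = X := Real.rpow_one _)
  have hJlog : (J : ℝ) + 2 ≤ Real.log X := by
    have h1 : (J : ℝ) + 1 ≤ (2 : ℝ) ^ J := by
      have := Nat.lt_two_pow_self (n := J)
      exact_mod_cast this
    have h2 : (2 : ℝ) ^ J * Real.log 2 ≤ v * Real.log X := by
      rw [← hlog]
      exact hlH1
    have h3 := Real.log_two_gt_d9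
    have h4 : (2 : ℝ) ^ J * (1 / 2) ≤ (2 : ℝ) ^ J * Real.log 2 :=
      mul_le_mul_of_nonneg_left (by linarith) (by positivity)
    have h5 : v * Real.log X ≤ 1 / 8 * Real.log X := mul_le_mul_of_nonneg_right hv8 hlX.le
    have h6 : (2 : ℝ) ^ J ≤ 1 / 4 * Real.log X := by linarith
    have h7 : Real.log 16 ≥ 2 := by
      have h8 : Real.log 16 = 4 * Real.log 2 := by
        rw [show (16 : ℝ) = 2 ^ 4 by norm_num, Real.log_pow]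
        push_cast
        ring
      linarith
    have h9 : 2 * 8 ≤ Real.log 16 / v * 2 := by
      have h10 : (8 : ℝ) ≤ 1 / v := by
        rw [le_div_iff₀ hv0]
        linarith
      calc (2 : ℝ) * 8 ≤ 2 * (1 / v) * 2 := by linarith
        _ ≤ Real.log 16 * (1 / v) * 2 := by
            refine mul_le_mul_of_nonneg_right (mul_le_mul_of_nonneg_right h7 (by positivity))
              (by norm_num)
        _ = Real.log 16 / v * 2 := by ring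
    linarith
  exact ⟨J, hX16, he1, hH16, hHge, hJ1, hJ2.le, hJlog, he4.trans hHge, by exact_mod_cast hHX, hlH2⟩

/-- levels -/
lemma scale_pow {v : ℝ} {X J : ℕ} (h : Scale v X J) (K b : ℕ) (hK : v * (K * b) ≤ 1 / 4) :
    (((2 : ℝ) ^ 2 ^ J)) ^ (K * b) ≤ (X : ℝ) ^ (1 / 4 : ℝ) := by
  obtain ⟨h16, -, -, -, h5, -, -, -, -, -⟩ := h
  have hX1 : (1 : ℝ) ≤ X := by exact_mod_cast (by omega : 1 ≤ X)
  have hX0 : (0 : ℝ) < X := by linarith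
  calc ((2 : ℝ) ^ 2 ^ J) ^ (K * b) ≤ ((X : ℝ) ^ v) ^ (K * b) :=
        pow_le_pow_left₀ (by positivity) h5 _
    _ = (X : ℝ) ^ (v * (K * b)) := by
        rw [← Real.rpow_natCast, ← Real.rpow_mul hX0.le]
        push_cast
        rfl
    _ ≤ _ := Real.rpow_le_rpow_of_exponent_le hX1 hK

/-- all the data of the engine for one `X` -/
structure EData (n : ℕ) (C1 η v : ℝ) (β : Fin n → ℝ) (X z0 J : ℕ) (P1 P2 : Finset ℕ)
    (S : Fin n → Finset (Finset ℕ)) (Y : Fin n → ℕ) (Y1 : ℕ) (S1 : Finset (Finset ℕ)) : Prop where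
  hP12 : P1 ∪ P2 = PP z0 X
  hP1 : ∀ p ∈ P1, p.Prime ∧ z0 < p ∧ p ≤ 2 ^ 2 ^ J
  hP2 : ∀ p ∈ P2, p.Prime ∧ z0 < p ∧ 2 ^ 2 ^ J < p
  hPi2 : Pi1 P2 ≤ 2 * C1 / v
  hV1 : V1 P1 ≤ 2 * C1 * Real.log z0 / (v * Real.log X)
  hV1pos : 0 ≤ V1 P1
  hSP : ∀ τ, ∀ R ∈ S τ, R ⊆ P2
  hSe : ∀ τ, ∅ ∉ S τ
  hSdis : ∀ τ τ', τ ≠ τ' → Disjoint (S τ) (S τ')
  hSGG : ∀ τ, β τ ^ 2 / (η * v) ≤ GG (S τ)
  hY1 : ∀ τ, 1 ≤ Y τ
  hsz : ∀ τ, ∀ R ∈ S τ, ∏ p ∈ R, p ≤ Y τ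
  hYprod : ((∏ τ, Y τ : ℕ) : ℝ) ≤ (X : ℝ) ^ (1 / 8 : ℝ)
  hY11 : 1 ≤ Y1
  hY1le : (Y1 : ℝ) ≤ (X : ℝ) ^ (1 / 8 : ℝ)
  hS1P : ∀ R ∈ S1, R ⊆ P2
  hS1Y : ∀ R ∈ S1, ∏ p ∈ R, p ≤ Y1
  hG1pos : 0 < GG S1
  hG1inv : 1 / GG S1 ≤ 16 * C1 * v

/-- Lower bound for `1 / V1`. -/
lemma V1_le (C1 v : ℝ) (hC1 : 1 ≤ C1) (X z0 H : ℕ) (P1 : Finset ℕ) (hP1 : P1 = PP z0 H)
    (hv0 : 0 < v) (hlX : 0 < Real.log (X : ℝ)) (hlz : 1 ≤ Real.log (z0 : ℝ))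
    (hlH2 : v / 2 * Real.log X ≤ Real.log H)
    (h1 : Real.log H / Real.log z0 ≤
      C1 * ∑ R ∈ (PP z0 H).powerset.filter (fun R : Finset ℕ => ∏ p ∈ R, p ≤ H), wt R) :
    V1 P1 ≤ 2 * C1 * Real.log z0 / (v * Real.log X) := by
  have hP1p : ∀ p ∈ P1, p.Prime := fun p hp => by
    rw [hP1] at hp
    exact PP_prime hp
  have h2 : ∑ R ∈ (PP z0 H).powerset.filter (fun R : Finset ℕ => ∏ p ∈ R, p ≤ H), wt R ≤
      Pi1 P1 := by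
    rw [← hP1]
    exact sum_wt_le_Pi1 P1 hP1p _ (Finset.filter_subset _ _)
  have h3 : Real.log H / Real.log z0 ≤ C1 * Pi1 P1 :=
    h1.trans (mul_le_mul_of_nonneg_left h2 (by linarith))
  have h4 := V1_mul_Pi1 P1 hP1p
  have h5 : 0 ≤ V1 P1 := Pool.Agent.H602R2.V1_nonneg P1 hP1p
  have h6 : V1 P1 * (Real.log H / Real.log z0) ≤ C1 := by
    calc V1 P1 * (Real.log H / Real.log z0) ≤ V1 P1 * (C1 * Pi1 P1) :=
          mul_le_mul_of_nonneg_left h3 h5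
      _ = C1 * (V1 P1 * Pi1 P1) := by ring
      _ = C1 := by rw [h4, mul_one]
  have h7 : V1 P1 * (Real.log H) ≤ C1 * Real.log z0 := by
    rw [← mul_div_assoc, div_le_iff₀ (by linarith)] at h6
    exact h6
  rw [le_div_iff₀ (by positivity)]
  calc V1 P1 * (v * Real.log X) = 2 * (V1 P1 * (v / 2 * Real.log X)) := by ring
    _ ≤ 2 * (V1 P1 * Real.log H) :=
        mul_le_mul_of_nonneg_left (mul_le_mul_of_nonneg_left hlH2 h5) (by norm_num)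
    _ ≤ 2 * (C1 * Real.log z0) := by linarith
    _ = _ := by ring

theorem exists_data {C1 : ℝ} (hC1 : 1 ≤ C1)
    (hN1 : ∀ H z : ℕ, 2 ≤ H → H ≤ z → Pi1 (PP H z) ≤ C1 * (Real.log z / Real.log H))
    (hN2 : ∀ H z Y : ℕ, 2 ≤ H → Y ≤ z → Real.log Y / Real.log H ≤
      C1 * ∑ R ∈ (PP H z).powerset.filter (fun R : Finset ℕ => ∏ p ∈ R, p ≤ Y), wt R)
    (hN3 : ∀ H z Y : ℕ, 2 ≤ H → H ≤ Y →
      ∑ R ∈ (PP H z).powerset.filter (fun R : Finset ℕ => ∏ p ∈ R, p ≤ Y), wt R ≤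
        C1 * (Real.log Y / Real.log H))
    {n : ℕ} {η v V₀ : ℝ} {u β : Fin n → ℝ} (hη0 : 0 < η) (hv0 : 0 < v) (hvV : v ≤ V₀)
    (hv8 : v ≤ 1 / 8) (huβ : ∀ τ, 0 < u τ ∧ 0 < β τ) (hus : ∑ τ, u τ ≤ 1 / 8)
    (hS : ∀ (V : ℝ) (Ω : Finset (Finset ℕ)) (ω sz : Finset ℕ → ℝ), 0 < V → V ≤ V₀ →
      (∀ R ∈ Ω, 0 ≤ ω R ∧ ω R ≤ 1) →
      (∀ t : ℝ, V ≤ t → t ≤ 1 / 8 → t / (2 * C1 * V) ≤ ∑ R ∈ Ω.filter (fun R => sz R ≤ t), ω R ∧
        ∑ R ∈ Ω.filter (fun R => sz R ≤ t), ω R ≤ 2 * C1 * t / V) →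
      ∃ S : Fin n → Finset (Finset ℕ),
        (∀ τ, S τ ⊆ Ω.filter (fun R => V < sz R ∧ sz R ≤ u τ)) ∧
        (∀ τ τ', τ ≠ τ' → Disjoint (S τ) (S τ')) ∧
        ∀ τ, β τ ^ 2 / (η * V) ≤ ∑ R ∈ S τ, ω R)
    {X z0 J : ℕ} (hsc : Scale v X J) (hz05 : 5 ≤ z0) (hz0X : (z0 : ℝ) ≤ Real.log X) :
    ∃ (P1 P2 : Finset ℕ) (S : Fin n → Finset (Finset ℕ)) (Y : Fin n → ℕ) (Y1 : ℕ)
      (S1 : Finset (Finset ℕ)), P2 = PP (2 ^ 2 ^ J) X ∧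
      EData n C1 η v β X z0 J P1 P2 S Y Y1 S1 := by
  classical
  obtain ⟨hX16, he1, hH16', hHge', hJ1, hJ2, -, hlogH, hHX, hlH2'⟩ := hsc
  have hX1 : (1 : ℝ) ≤ X := by exact_mod_cast (by omega : 1 ≤ X)
  have hX0 : (0 : ℝ) < X := by linarith
  have hlX : 0 < Real.log (X : ℝ) := by linarith
  obtain ⟨H, hH⟩ : ∃ H : ℕ, H = 2 ^ 2 ^ J := ⟨_, rfl⟩
  have hHR : ((H : ℕ) : ℝ) = (2 : ℝ) ^ 2 ^ J := by rw [hH]; push_cast; rfl
  rw [← hHR] at hH16' hHge' hJ1 hJ2 hlogH hlH2'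
  rw [← hH] at hHX
  have hH4 : 4 ≤ H := by
    have : (4 : ℝ) ≤ (H : ℝ) := by linarith
    exact_mod_cast this
  have hlH : 0 < Real.log (H : ℝ) := Real.log_pos (by linarith)
  have hz0H : z0 ≤ H := by
    have : (z0 : ℝ) ≤ H := hz0X.trans hlogH
    exact_mod_cast this
  have hz05' : (5 : ℝ) ≤ z0 := by exact_mod_cast hz05
  have hlz : 1 ≤ Real.log (z0 : ℝ) := by
    have h2 : Real.exp 1 ≤ z0 := by
      have := Real.exp_one_lt_d9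
      linarith
    calc (1 : ℝ) = Real.log (Real.exp 1) := (Real.log_exp 1).symm
      _ ≤ Real.log z0 := Real.log_le_log (Real.exp_pos 1) h2
  obtain ⟨P1, hP1⟩ : ∃ P1 : Finset ℕ, P1 = PP z0 H := ⟨_, rfl⟩
  obtain ⟨P2, hP2⟩ : ∃ P2 : Finset ℕ, P2 = PP H X := ⟨_, rfl⟩
  have hP12 : P1 ∪ P2 = PP z0 X := by rw [hP1, hP2]; exact PP_union hz0H hHX
  have hP1p : ∀ p ∈ P1, p.Prime := fun p hp => by
    rw [hP1] at hp
    exact PP_prime hp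
  have hP2p : ∀ p ∈ P2, p.Prime := fun p hp => by
    rw [hP2] at hp
    exact PP_prime hp
  have hPi2 : Pi1 P2 ≤ 2 * C1 / v := by
    rw [hP2]
    refine (hN1 H X (by omega) hHX).trans ?_
    rw [mul_comm (2 : ℝ) C1, mul_div_assoc]
    refine mul_le_mul_of_nonneg_left ?_ (by linarith)
    rw [div_le_div_iff₀ hlH hv0]
    linarith
  have hV1 : V1 P1 ≤ 2 * C1 * Real.log z0 / (v * Real.log X) :=
    V1_le C1 v hC1 X z0 H P1 hP1 hv0 hlX hlz hlH2' (hN2 z0 H H (by omega) le_rfl)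
  have hV1pos : 0 ≤ V1 P1 := Pool.Agent.H602R2.V1_nonneg P1 hP1p
  -- the families
  have hmass : ∀ t : ℝ, v ≤ t → t ≤ 1 / 8 →
      t / (2 * C1 * v) ≤ ∑ R ∈ (P2.powerset).filter
        (fun R : Finset ℕ => Real.log (∏ p ∈ R, (p : ℝ)) / Real.log X ≤ t), wt R ∧
      ∑ R ∈ (P2.powerset).filter
        (fun R : Finset ℕ => Real.log (∏ p ∈ R, (p : ℝ)) / Real.log X ≤ t), wt R ≤
        2 * C1 * t / v := by
    intro t ht ht'
    rw [hP2]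
    exact mass2 hC1 hN2 hN3 X H (by omega) hH4 v hv0 hJ1 hJ2 t ht (by linarith)
  have hpow : ∀ R ∈ P2.powerset, ∀ p ∈ R, p.Prime := fun R hR p hp =>
    hP2p p (Finset.mem_powerset.mp hR hp)
  obtain ⟨S, hSsub, hSdis, hSmass⟩ := hS v P2.powerset wt
    (fun R => Real.log (∏ p ∈ R, (p : ℝ)) / Real.log X) hv0 hvV
    (fun R hR => ⟨wt_nonneg (hpow R hR), wt_le_one (hpow R hR)⟩) hmass
  have hSP : ∀ τ, ∀ R ∈ S τ, R ⊆ P2 := by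
    intro τ R hR
    exact Finset.mem_powerset.mp (Finset.mem_filter.mp (hSsub τ hR)).1
  have hSpr : ∀ τ, ∀ R ∈ S τ, ∀ p ∈ R, p.Prime := fun τ R hR p hp => hP2p p (hSP τ R hR hp)
  have hSe : ∀ τ, ∅ ∉ S τ := by
    intro τ h
    have h1 := (Finset.mem_filter.mp (hSsub τ h)).2.1
    simp at h1
    linarith
  have hfl : ∀ (R : Finset ℕ) (x : ℝ), (∀ p ∈ R, p.Prime) →
      Real.log (∏ p ∈ R, (p : ℝ)) / Real.log X ≤ x → ∏ p ∈ R, p ≤ ⌊(X : ℝ) ^ x⌋₊ := by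
    intro R x hR h1
    have h2 := prod_ge_one hR
    rw [div_le_iff₀ hlX, ← Real.log_rpow hX0] at h1
    have h3 := (Real.log_le_log_iff (by linarith) (by positivity)).mp h1
    refine Nat.le_floor ?_
    push_cast
    exact h3
  have hone : ∀ x : ℝ, 0 ≤ x → 1 ≤ ⌊(X : ℝ) ^ x⌋₊ := by
    intro x hx
    have : (1 : ℝ) ≤ (X : ℝ) ^ x := Real.one_le_rpow hX1 hx
    exact Nat.le_floor (by simpa using this)
  refine ⟨P1, P2, S, fun τ => ⌊(X : ℝ) ^ (u τ)⌋₊, ⌊(X : ℝ) ^ (1 / 8 : ℝ)⌋₊,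
    (P2.powerset).filter (fun R : Finset ℕ => Real.log (∏ p ∈ R, (p : ℝ)) / Real.log X ≤ 1 / 8),
    by rw [hP2, hH], ?_⟩
  refine ⟨hP12, ?_, ?_, hPi2, hV1, hV1pos, hSP, hSe, hSdis, hSmass, fun τ => hone _ (huβ τ).1.le,
    fun τ R hR => hfl R _ (hSpr τ R hR) (Finset.mem_filter.mp (hSsub τ hR)).2.2, ?_,
    hone _ (by norm_num), Nat.floor_le (by positivity),
    fun R hR => Finset.mem_powerset.mp (Finset.mem_filter.mp hR).1,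
    fun R hR => hfl R _ (hpow R (Finset.mem_filter.mp hR).1) (Finset.mem_filter.mp hR).2, ?_, ?_⟩
  · intro p hp
    rw [hP1] at hp
    rw [← hH]
    exact ⟨PP_prime hp, PP_gt hp, PP_le hp⟩
  · intro p hp
    rw [hP2] at hp
    rw [← hH]
    exact ⟨PP_prime hp, lt_of_le_of_lt hz0H (PP_gt hp), PP_gt hp⟩
  · push_cast
    calc ∏ τ, (⌊(X : ℝ) ^ (u τ)⌋₊ : ℝ) ≤ ∏ τ, (X : ℝ) ^ (u τ) :=
          Finset.prod_le_prod (fun _ _ => Nat.cast_nonneg _)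
            (fun τ _ => Nat.floor_le (by positivity))
      _ = (X : ℝ) ^ (∑ τ, u τ) := by rw [Real.rpow_sum_of_pos hX0]
      _ ≤ _ := Real.rpow_le_rpow_of_exponent_le hX1 hus
  · have h := (hmass (1 / 8) hv8 le_rfl).1
    refine lt_of_lt_of_le ?_ h
    positivity
  · have h := (hmass (1 / 8) hv8 le_rfl).1
    have h2 : (1 : ℝ) / 8 / (2 * C1 * v) = 1 / (16 * C1 * v) := by
      field_simp
      norm_num
    rw [h2] at h
    have hpos : 0 < 1 / (16 * C1 * v) := by positivity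
    have h3 := one_div_le_one_div_of_le hpos h
    rwa [one_div_one_div] at h3

end Pool.Agent.J4H30.VW
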