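import Pool.Agent.J4H30.AW.Four

/-!
Project VW, part 4: numerical lemmas for the engine.
-/

set_option autoImplicit false

open Finset Filter

namespace Pool.Agent.J4H30.VW

open Pool.Agent.H410R2.AC Pool.Agent.H410R2.EN Pool.Agent.J4H30.AW

/-- choice of the sieve parameters -/
lemma exists_b3 (K K' K'' : ℕ) (cv s : ℝ) (hcv : 0 < cv) (hs : 0 < s) :
    ∃ b : ℕ, K ≤ b ∧ K' ≤ b ∧ K'' ≤ b ∧ 1 ≤ b ∧ (K : ℝ) / (cv / b) ^ K * (1 / 2 : ℝ) ^ b ≤ s ∧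
      (K'' : ℝ) / (cv / b) ^ K'' * (1 / 2 : ℝ) ^ b ≤ s := by
  have key : ∀ K : ℕ, ∀ᶠ n : ℕ in atTop, (K : ℝ) / cv ^ K * ((n : ℝ) ^ K * (1 / 2 : ℝ) ^ n) ≤ s := by
    intro K
    have h1 : Tendsto (fun n : ℕ => (n : ℝ) ^ K * (1 / 2 : ℝ) ^ n) atTop (nhds 0) :=
      tendsto_pow_const_mul_const_pow_of_lt_one K (by norm_num) (by norm_num)
    have h2 := h1.const_mul ((K : ℝ) / cv ^ K)
    rw [mul_zero] at h2
    exact h2.eventually_le_const hs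
  obtain ⟨b, h4, h4', h5, h7, h8, h6⟩ := ((key K).and ((key K'').and ((eventually_ge_atTop K).and
    ((eventually_ge_atTop K').and ((eventually_ge_atTop K'').and (eventually_ge_atTop 1)))))).exists
  have hb : (0 : ℝ) < b := by exact_mod_cast h6
  have conv : ∀ K : ℕ, (K : ℝ) / (cv / b) ^ K * (1 / 2 : ℝ) ^ b =
      K / cv ^ K * ((b : ℝ) ^ K * (1 / 2 : ℝ) ^ b) := by
    intro K
    rw [div_pow]
    field_simp
  refine ⟨b, h5, h7, h8, h6, ?_, ?_⟩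
  · rw [conv]
    exact h4
  · rw [conv]
    exact h4'

lemma exists_delta2 (K K' : ℕ) (v s : ℝ) (hs : 0 < s) :
    ∃ δ : ℝ, 0 < δ ∧ δ ≤ 1 ∧ (K : ℝ) / v ^ K * (Real.exp (K * δ) - 1) ≤ s ∧
      (K' : ℝ) / v ^ K' * (Real.exp (K' * δ) - 1) ≤ s := by
  have key : ∀ K : ℕ, ∀ᶠ x : ℝ in nhdsWithin 0 (Set.Ioi 0),
      (K : ℝ) / v ^ K * (Real.exp (K * x) - 1) ≤ s := by
    intro K
    have h1 : Tendsto (fun x : ℝ => (K : ℝ) / v ^ K * (Real.exp (K * x) - 1)) (nhds 0)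
        (nhds ((K : ℝ) / v ^ K * (Real.exp (K * 0) - 1))) := by
      apply Continuous.tendsto
      fun_prop
    simp only [mul_zero, Real.exp_zero, sub_self] at h1
    exact (h1.eventually_le_const hs).filter_mono nhdsWithin_le_nhds
  have h4 : ∀ᶠ x : ℝ in nhdsWithin 0 (Set.Ioi 0), x ∈ Set.Ioo (0 : ℝ) 1 :=
    Ioo_mem_nhdsGT (by norm_num)
  obtain ⟨δ, h5, h5', h6⟩ := ((key K).and ((key K').and h4)).exists
  exact ⟨δ, h6.1, h6.2.le, h5, h5'⟩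

/-- the error terms are small -/
lemma err_small2 (n K₁ K : ℕ) (v C C1 L A E b j G D t : ℝ) (hv : 0 < v) (hC : 1 ≤ C) (hC1 : 1 ≤ C1)
    (hL : 1 ≤ L) (hA : 0 < A) (hE0 : 0 ≤ E) (hE : E ≤ A / L ^ K) (hKn : 2 * n + 5 ≤ K)
    (hb0 : 0 ≤ b) (hb : b ≤ C * L) (hb1 : b + 1 ≤ 2 * C * L) (hj0 : 0 ≤ j) (hj : j + 2 ≤ L)
    (hG0 : 0 ≤ G) (hG : G ≤ 16 * C1)
    (hD : D = (K₁ : ℝ) / v ^ K₁ * (2 * C) ^ (2 * n + 2) * (1 + C * (16 * C1) ^ 2))
    (hDL : D ≤ t * L) :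
    K₁ / v ^ K₁ * (b + 1) ^ (2 * n + 2) * ((j + 2) * E) +
      b * (G ^ 2 * (K₁ / v ^ K₁ * (b + 1) ^ (2 * n + 2) * ((j + 2) * E))) ≤ A * t := by
  have hL0 : 0 < L := by linarith
  have hC0 : 0 < C := by linarith
  have hkv : 0 ≤ (K₁ : ℝ) / v ^ K₁ := by positivity
  obtain ⟨E1, hE1⟩ : ∃ E1 : ℝ, E1 = K₁ / v ^ K₁ * (b + 1) ^ (2 * n + 2) * ((j + 2) * E) := ⟨_, rfl⟩
  rw [← hE1]
  have hE10 : 0 ≤ E1 := by rw [hE1]; positivity
  have hE1le : E1 ≤ K₁ / v ^ K₁ * (2 * C) ^ (2 * n + 2) * (L ^ (2 * n + 3) * (A / L ^ K)) := by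
    calc E1 ≤ K₁ / v ^ K₁ * (2 * C * L) ^ (2 * n + 2) * (L * (A / L ^ K)) := by
          rw [hE1]
          refine mul_le_mul (mul_le_mul_of_nonneg_left ?_ hkv) ?_ (by positivity) (by positivity)
          · exact pow_le_pow_left₀ (by linarith) hb1 _
          · exact mul_le_mul hj hE hE0 hL0.le
      _ = _ := by rw [mul_pow]; ring
  have h1 : E1 + b * (G ^ 2 * E1) ≤ (1 + C * (16 * C1) ^ 2) * L * E1 := by
    have h2 : b * (G ^ 2 * E1) ≤ (C * L) * ((16 * C1) ^ 2 * E1) := by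
      refine mul_le_mul hb ?_ (by positivity) (by positivity)
      exact mul_le_mul_of_nonneg_right (pow_le_pow_left₀ hG0 hG 2) hE10
    have h3 : E1 ≤ L * E1 := le_mul_of_one_le_left hE10 hL
    calc E1 + b * (G ^ 2 * E1) ≤ L * E1 + (C * L) * ((16 * C1) ^ 2 * E1) := add_le_add h3 h2
      _ = _ := by ring
  have h4 : (1 + C * (16 * C1) ^ 2) * L * E1 ≤ D * (L ^ (2 * n + 4) * (A / L ^ K)) := by
    calc (1 + C * (16 * C1) ^ 2) * L * E1 ≤ (1 + C * (16 * C1) ^ 2) * L *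
          (K₁ / v ^ K₁ * (2 * C) ^ (2 * n + 2) * (L ^ (2 * n + 3) * (A / L ^ K))) :=
          mul_le_mul_of_nonneg_left hE1le (by positivity)
      _ = _ := by rw [hD]; ring
  have hD0 : 0 ≤ D := by rw [hD]; positivity
  have h5 : L ^ (2 * n + 4) * (A / L ^ K) ≤ A / L := by
    have h6 : L ^ (2 * n + 5) ≤ L ^ K := pow_le_pow_right₀ hL hKn
    rw [mul_div_assoc', div_le_div_iff₀ (by positivity) hL0]
    calc L ^ (2 * n + 4) * A * L = A * L ^ (2 * n + 5) := by ring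
      _ ≤ A * L ^ K := mul_le_mul_of_nonneg_left h6 hA.le
  have h7 : D * (A / L) ≤ A * t := by
    rw [mul_div_assoc', div_le_iff₀ hL0]
    calc D * A = A * D := by ring
      _ ≤ A * (t * L) := mul_le_mul_of_nonneg_left hDL hA.le
      _ = A * t * L := by ring
  exact h1.trans (h4.trans ((mul_le_mul_of_nonneg_left h5 hD0).trans h7))

open Classical in
/-- upper bound for the main term -/
lemma Ms_le {n : ℕ} (B : Finset ℕ) (q : Fin n → ℝ) (hq : ∀ τ, 0 ≤ q τ)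
    (hB : ∀ τ, (B.card : ℝ) * q τ ≤ 1) : ∑ σ ∈ cfg n B, occ q σ ≤ 2 ^ n := by
  have h0 : ∀ σ : Fin n → Option ℕ, 0 ≤ occ q σ := by
    intro σ
    unfold occ
    refine Finset.prod_nonneg fun τ _ => ?_
    split_ifs
    · norm_num
    · exact hq τ
  calc ∑ σ ∈ cfg n B, occ q σ ≤
        ∑ σ ∈ Fintype.piFinset (fun _ : Fin n => Finset.insertNone B), occ q σ :=
        Finset.sum_le_sum_of_subset_of_nonneg (Pool.Agent.H400R2.AC4.cfg_sub B)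
          fun σ _ _ => h0 σ
    _ = ∏ τ : Fin n, ∑ o ∈ Finset.insertNone B, (if o = none then (1 : ℝ) else q τ) := by
        rw [Finset.prod_univ_sum]
        rfl
    _ ≤ ∏ τ : Fin n, (2 : ℝ) := by
        refine Finset.prod_le_prod (fun τ _ => ?_) (fun τ _ => ?_)
        · refine Finset.sum_nonneg fun o _ => ?_
          split_ifs
          · norm_num
          · exact hq τ
        · have h1 : ∑ o ∈ Finset.insertNone B, (if o = none then (1 : ℝ) else q τ) =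
              1 + B.card * q τ := by
            rw [Finset.insertNone]
            simp
          rw [h1]
          have := hB τ
          linarith
    _ = 2 ^ n := by rw [Finset.prod_const, Finset.card_univ, Fintype.card_fin]

open Classical in
/-- the points with a rough position carry a small part of the second moment -/
lemma rough_mass {n : ℕ} {β g : Fin n → ℝ} {S : Fin n → Finset (Finset ℕ)} {S1 : Finset (Finset ℕ)}
    {B P1 P2 : Finset ℕ} {ρ : ℕ → ℕ → ℕ} {w : ℕ → ℝ} {M : ℕ} {A C C1 v η η₁ s E1 c2 t : ℝ}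
    (hA : 0 < A) (hC : 1 ≤ C) (hC1 : 1 ≤ C1) (hv0 : 0 < v) (hv1 : v ≤ 1) (hη0 : 0 < η)
    (hη : 64 * C ^ 2 * C1 ^ 3 * η ≤ η₁) (hη' : 2 * C * C1 * η ≤ 1) (hc2 : c2 = 512 * C * C1 ^ 3)
    (hw : ∀ m, 0 ≤ w m)
    (hβ0 : ∀ τ, 0 ≤ β τ) (hβs : ∑ τ, β τ = 1) (hV1pos : 0 ≤ V1 P1)
    (hGpos : ∀ τ, 0 < GG (S τ)) (hg : ∀ τ, g τ = β τ / GG (S τ))
    (hSGG : ∀ τ, β τ ^ 2 / (η * v) ≤ GG (S τ))
    (hBV : (B.card : ℝ) * V1 P1 ≤ 2 * C * C1 / v)
    (hSP : ∀ τ, ∀ R ∈ S τ, R ⊆ P2) (hS1P : ∀ R ∈ S1, R ⊆ P2)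
    (hG1pos : 0 < GG S1) (hG1inv : 1 / GG S1 ≤ 16 * C1 * v)
    (hs0 : 0 ≤ s) (hst : s ≤ t / 2) (hs8 : c2 * s ≤ t / 2) (ht : 0 < t) (hE1 : 0 ≤ E1)
    (hA1 : |∑ m ∈ range M, w m * WW B (fun _ => 1) (xx ρ P1 S g m) ^ 2 -
        A * ∑ σ ∈ cfg n B, occ (fun τ => g τ ^ 2 * (V1 P1 * GG (S τ))) σ| ≤ A * s + E1)
    (hB2 : ∀ a₀ ∈ B, |∑ m ∈ range M, w m * (WW (B.erase a₀) (coef β) (xx ρ P1 S g m) *
          (rg ρ P1 a₀ m * FF ρ S1 (some a₀) m)) ^ 2 -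
        A * (V1 P1 * GG S1 * ∑ σ ∈ cfg n (B.erase a₀), coef β σ ^ 2 *
          occ (fun τ => g τ ^ 2 * (V1 P1 * GG (S τ))) σ)| ≤ A * V1 P1 * s + E1)
    (hsmall : E1 + B.card * ((1 / GG S1) ^ 2 * E1) ≤ A * (t / 2)) :
    (1 ≤ ∑ σ ∈ cfg n B, occ (fun τ => g τ ^ 2 * (V1 P1 * GG (S τ))) σ ∧
      ∑ σ ∈ cfg n B, occ (fun τ => g τ ^ 2 * (V1 P1 * GG (S τ))) σ ≤ 2 ^ n) ∧
    A * (∑ σ ∈ cfg n B, occ (fun τ => g τ ^ 2 * (V1 P1 * GG (S τ))) σ - t) ≤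
      ∑ m ∈ range M, w m * WW B (fun _ => 1) (xx ρ P1 S g m) ^ 2 ∧
    ∑ m ∈ (range M).filter (fun m => ¬ ∀ a ∈ B, ∃ p ∈ P1 ∪ P2, m % p = ρ p a),
      w m * WW B (fun _ => 1) (xx ρ P1 S g m) ^ 2 ≤
      A * (η₁ * ∑ σ ∈ cfg n B, occ (fun τ => g τ ^ 2 * (V1 P1 * GG (S τ))) σ + t) := by
  obtain ⟨x, hx⟩ : ∃ x : ℕ → Fin n → ℕ → ℝ, x = fun m => xx ρ P1 S g m := ⟨_, rfl⟩
  have hxm : ∀ m, xx ρ P1 S g m = x m := fun m => by rw [hx]
  simp only [hxm] at hA1 hB2 ⊢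
  obtain ⟨Ms, hMs⟩ : ∃ Ms : ℝ, Ms = ∑ σ ∈ cfg n B, occ (fun τ => g τ ^ 2 * (V1 P1 * GG (S τ))) σ :=
    ⟨_, rfl⟩
  rw [← hMs] at hA1 ⊢
  have hq : ∀ τ, 0 ≤ g τ ^ 2 * (V1 P1 * GG (S τ)) := fun τ =>
    mul_nonneg (sq_nonneg _) (mul_nonneg hV1pos (hGpos τ).le)
  have hqη : ∀ τ, (B.card : ℝ) * (g τ ^ 2 * (V1 P1 * GG (S τ))) ≤ 2 * C * C1 * η := by
    intro τ
    have h1 : g τ ^ 2 * (V1 P1 * GG (S τ)) = V1 P1 * (β τ ^ 2 / GG (S τ)) := by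
      rw [hg τ]
      have := (hGpos τ).ne'
      field_simp
    have h2 : β τ ^ 2 / GG (S τ) ≤ η * v := by
      rw [div_le_iff₀ (hGpos τ)]
      have h3 := hSGG τ
      rw [div_le_iff₀ (by positivity)] at h3
      linarith
    rw [h1]
    have h4 : 0 ≤ β τ ^ 2 / GG (S τ) := div_nonneg (sq_nonneg _) (hGpos τ).le
    calc (B.card : ℝ) * (V1 P1 * (β τ ^ 2 / GG (S τ))) =
          (B.card * V1 P1) * (β τ ^ 2 / GG (S τ)) := by ring
      _ ≤ (2 * C * C1 / v) * (η * v) := mul_le_mul hBV h2 h4 (by positivity)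
      _ = 2 * C * C1 * η := by field_simp
  have hM1 : 1 ≤ Ms := by
    rw [hMs]
    exact (Pool.Agent.H898R2.AC5.mainIneq n B 0 β _ (2 * C * C1 * η) hβ0 hβs hq hqη).2
  have hM2 : Ms ≤ 2 ^ n := by
    rw [hMs]
    exact Ms_le B _ hq fun τ => (hqη τ).trans hη'
  have hE2 : 0 ≤ B.card * ((1 / GG S1) ^ 2 * E1) := by positivity
  -- lower bound for the second moment
  have hlow : A * (Ms - t) ≤ ∑ m ∈ range M, w m * WW B (fun _ => 1) (x m) ^ 2 := by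
    have h1 := (abs_le.mp hA1).1
    have h2 : A * s ≤ A * (t / 2) := mul_le_mul_of_nonneg_left hst hA.le
    have h3 : A * (Ms - t) = A * Ms - (A * (t / 2) + A * (t / 2)) := by ring
    rw [h3]
    linarith
  refine ⟨⟨hM1, hM2⟩, hlow, ?_⟩
  -- upper bound through the rough positions
  have hpt : ∀ m ∈ (range M).filter (fun m => ¬ ∀ a ∈ B, ∃ p ∈ P1 ∪ P2, m % p = ρ p a),
      w m * WW B (fun _ => 1) (x m) ^ 2 ≤
      ∑ a₀ ∈ B, (1 / GG S1) ^ 2 * (w m * (WW (B.erase a₀) (coef β) (x m) *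
        (rg ρ P1 a₀ m * FF ρ S1 (some a₀) m)) ^ 2) := by
    intro m hm
    by_cases hwm : w m = 0
    · rw [hwm, zero_mul]
      exact Finset.sum_nonneg (fun a _ => by simp)
    · obtain ⟨a₀, ha₀, hr⟩ : ∃ a₀ ∈ B, ∀ p ∈ P1 ∪ P2, m % p ≠ ρ p a₀ := by
        have h := (Finset.mem_filter.mp hm).2
        push Not at h
        exact h
      have hr1 : ∀ p ∈ P1, m % p ≠ ρ p a₀ := fun p hp => hr p (Finset.mem_union_left _ hp)
      have hr2 : ∀ p ∈ P2, m % p ≠ ρ p a₀ := fun p hp => hr p (Finset.mem_union_right _ hp)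
      have hrg : rg ρ P1 a₀ m = 1 := by
        unfold rg
        rw [if_pos hr1]
      have hxβ : ∀ τ, x m τ a₀ = - β τ := by
        intro τ
        rw [hx]
        simp only [xx]
        rw [hrg, FF_rough (hSP τ) hr2, hg τ]
        have := (hGpos τ).ne'
        field_simp
      have hc := Pool.Agent.H898R2.AC5.collapse n B a₀ β (x m) ha₀ hβs hxβ
      have hf : FF ρ S1 (some a₀) m = GG S1 := FF_rough hS1P hr2
      refine le_trans ?_ (Finset.single_le_sum (f := fun a₀ => (1 / GG S1) ^ 2 *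
        (w m * (WW (B.erase a₀) (coef β) (x m) * (rg ρ P1 a₀ m * FF ρ S1 (some a₀) m)) ^ 2))
        (fun a _ => mul_nonneg (sq_nonneg _) (mul_nonneg (hw m) (sq_nonneg _))) ha₀)
      show w m * WW B (fun _ => 1) (x m) ^ 2 ≤ (1 / GG S1) ^ 2 *
        (w m * (WW (B.erase a₀) (coef β) (x m) * (rg ρ P1 a₀ m * FF ρ S1 (some a₀) m)) ^ 2)
      rw [hc, hf, hrg, one_mul, mul_pow]
      have : (1 / GG S1) ^ 2 * (w m * (WW (B.erase a₀) (coef β) (x m) ^ 2 * GG S1 ^ 2)) =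
          w m * WW (B.erase a₀) (coef β) (x m) ^ 2 := by
        field_simp
      rw [this]
  have hG2 : 0 ≤ (1 / GG S1) ^ 2 := sq_nonneg _
  have hup : ∑ m ∈ (range M).filter (fun m => ¬ ∀ a ∈ B, ∃ p ∈ P1 ∪ P2, m % p = ρ p a),
      w m * WW B (fun _ => 1) (x m) ^ 2 ≤
      B.card * ((1 / GG S1) ^ 2 * (A * (V1 P1 * GG S1 * ((2 * C * C1 * η) * Ms)) +
        (A * V1 P1 * s + E1))) := by
    refine (Finset.sum_le_sum hpt).trans ?_
    rw [Finset.sum_comm, ← nsmul_eq_mul]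
    refine Finset.sum_le_card_nsmul _ _ _ (fun a₀ ha₀ => ?_)
    rw [← Finset.mul_sum]
    refine mul_le_mul_of_nonneg_left ?_ hG2
    refine le_trans (Finset.sum_le_sum_of_subset_of_nonneg (Finset.filter_subset _ _)
      (fun m _ _ => mul_nonneg (hw m) (sq_nonneg _))) ?_
    have h3 := (abs_le.mp (hB2 a₀ ha₀)).2
    have h4 := (Pool.Agent.H898R2.AC5.mainIneq n B a₀ β _ (2 * C * C1 * η) hβ0 hβs hq hqη).1
    rw [← hMs] at h4
    have h5 : A * (V1 P1 * GG S1 * ∑ σ ∈ cfg n (B.erase a₀),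
        coef β σ ^ 2 * occ (fun τ => g τ ^ 2 * (V1 P1 * GG (S τ))) σ) ≤
        A * (V1 P1 * GG S1 * ((2 * C * C1 * η) * Ms)) :=
      mul_le_mul_of_nonneg_left (mul_le_mul_of_nonneg_left h4
        (mul_nonneg hV1pos hG1pos.le)) hA.le
    linarith
  have hinv0 : 0 ≤ 1 / GG S1 := one_div_nonneg.mpr hG1pos.le
  have hBV0 : 0 ≤ 2 * C * C1 / v := by positivity
  have k1 : (B.card : ℝ) * V1 P1 * (1 / GG S1) ≤ 32 * C * C1 ^ 2 := by
    calc (B.card : ℝ) * V1 P1 * (1 / GG S1) ≤ (2 * C * C1 / v) * (16 * C1 * v) :=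
          mul_le_mul hBV hG1inv hinv0 hBV0
      _ = 32 * C * C1 ^ 2 := by field_simp; ring
  have k2 : (B.card : ℝ) * V1 P1 * (1 / GG S1) ^ 2 ≤ c2 := by
    calc (B.card : ℝ) * V1 P1 * (1 / GG S1) ^ 2 ≤ (2 * C * C1 / v) * (16 * C1 * v) ^ 2 :=
          mul_le_mul hBV (pow_le_pow_left₀ hinv0 hG1inv 2) hG2 hBV0
      _ = c2 * v := by rw [hc2]; field_simp; ring
      _ ≤ c2 * 1 := by
          refine mul_le_mul_of_nonneg_left hv1 ?_
          rw [hc2]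
          positivity
      _ = c2 := mul_one _
  have hMs0 : 0 ≤ Ms := by linarith
  refine hup.trans ?_
  have e1 : B.card * ((1 / GG S1) ^ 2 * (A * (V1 P1 * GG S1 * ((2 * C * C1 * η) * Ms)) +
        (A * V1 P1 * s + E1))) =
      A * ((B.card * V1 P1 * (1 / GG S1)) * ((2 * C * C1 * η) * Ms)) +
        A * ((B.card * V1 P1 * (1 / GG S1) ^ 2) * s) + B.card * ((1 / GG S1) ^ 2 * E1) := by
    have := hG1pos.ne'
    field_simp
    ring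
  rw [e1]
  have e2 : A * ((B.card * V1 P1 * (1 / GG S1)) * ((2 * C * C1 * η) * Ms)) ≤ A * (η₁ * Ms) := by
    refine mul_le_mul_of_nonneg_left ?_ hA.le
    calc (B.card * V1 P1 * (1 / GG S1)) * ((2 * C * C1 * η) * Ms) ≤
          (32 * C * C1 ^ 2) * ((2 * C * C1 * η) * Ms) :=
          mul_le_mul_of_nonneg_right k1 (by positivity)
      _ = (64 * C ^ 2 * C1 ^ 3 * η) * Ms := by ring
      _ ≤ η₁ * Ms := mul_le_mul_of_nonneg_right hη hMs0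
  have e3 : A * ((B.card * V1 P1 * (1 / GG S1) ^ 2) * s) ≤ A * (t / 2) := by
    refine mul_le_mul_of_nonneg_left ?_ hA.le
    exact (mul_le_mul_of_nonneg_right k2 hs0).trans hs8
  have e4 : A * (η₁ * Ms + t) = A * (η₁ * Ms) + A * (t / 2) + A * (t / 2) := by ring
  rw [e4]
  linarith

end Pool.Agent.J4H30.VW
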