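import Pool.Agent.J4H30.VW.Data

/-!
Project VW, part 6: the choice of the parameters.
-/

set_option autoImplicit false

open Finset Filter

namespace Pool.Agent.J4H30.VW

open Pool.Agent.H410R2.AC Pool.Agent.H410R2.EN Pool.Agent.J4H30.AW

/-- choice of the constant `η` -/
lemma eta_choice (C C1 η₁ : ℝ) (hC : 1 ≤ C) (hC1 : 1 ≤ C1) (hη₁ : 0 < η₁) : ∃ η : ℝ, 0 < η ∧
    64 * C ^ 2 * C1 ^ 3 * η ≤ η₁ ∧ 2 * C * C1 * η ≤ 1 := by
  obtain ⟨η₂, hη₂0, hη₂1, hη₂⟩ : ∃ η₂ : ℝ, 0 < η₂ ∧ η₂ ≤ 1 ∧ η₂ ≤ η₁ :=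
    ⟨min 1 η₁, lt_min one_pos hη₁, min_le_left _ _, min_le_right _ _⟩
  refine ⟨η₂ / (256 * C ^ 2 * C1 ^ 3), by positivity, ?_, ?_⟩
  · have : 64 * C ^ 2 * C1 ^ 3 * (η₂ / (256 * C ^ 2 * C1 ^ 3)) = η₂ / 4 := by
      field_simp
      norm_num
    rw [this]
    linarith
  · have h1 : 2 * C * C1 * (η₂ / (256 * C ^ 2 * C1 ^ 3)) ≤
        256 * C ^ 2 * C1 ^ 3 * (η₂ / (256 * C ^ 2 * C1 ^ 3)) := by
      refine mul_le_mul_of_nonneg_right ?_ (by positivity)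
      have h2 : C * C1 ≤ C ^ 2 * C1 ^ 3 := by
        have a1 : C ≤ C ^ 2 := by
          calc C = C ^ 1 := (pow_one _).symm
            _ ≤ C ^ 2 := pow_le_pow_right₀ hC (by norm_num)
        have a2 : C1 ≤ C1 ^ 3 := by
          calc C1 = C1 ^ 1 := (pow_one _).symm
            _ ≤ C1 ^ 3 := pow_le_pow_right₀ hC1 (by norm_num)
        exact mul_le_mul a1 a2 (by linarith) (by positivity)
      have h3 : 0 ≤ C ^ 2 * C1 ^ 3 := by positivity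
      linarith
    have h4 : 256 * C ^ 2 * C1 ^ 3 * (η₂ / (256 * C ^ 2 * C1 ^ 3)) = η₂ := by
      field_simp
    linarith

/-- the choice of `b`, `v` and `δ` -/
lemma params (K₁ K₄ K₅ : ℕ) (hK₁ : 1 ≤ K₁) (hK₄ : 1 ≤ K₄) (hK₅ : 1 ≤ K₅) (V₀ c2 t : ℝ)
    (hV₀ : 0 < V₀) (hc2 : 0 < c2) (ht : 0 < t) : ∃ (b : ℕ) (v δ s s5 : ℝ),
    K₁ ≤ b ∧ K₄ ≤ b ∧ K₅ ≤ b ∧ 0 < v ∧ v ≤ V₀ ∧ v ≤ 1 / 8 ∧ v * (K₁ * b) ≤ 1 / 4 ∧
    v * (K₄ * b) ≤ 1 / 4 ∧ v * (K₅ * b) ≤ 1 / 4 ∧ 0 < δ ∧ δ ≤ 1 ∧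
    s = (K₁ : ℝ) / v ^ K₁ * (Real.exp (K₁ * δ) - 1 + (1 / 2 : ℝ) ^ b) ∧
    s5 = (K₅ : ℝ) / v ^ K₅ * (Real.exp (K₅ * δ) - 1 + (1 / 2 : ℝ) ^ b) ∧
    0 ≤ s ∧ s ≤ t / 2 ∧ c2 * s ≤ t / 2 ∧ s5 ≤ t / 2 := by
  have hK₁0 : (0 : ℝ) < K₁ := by exact_mod_cast hK₁
  have hK₄0 : (0 : ℝ) < K₄ := by exact_mod_cast hK₄
  have hK₅0 : (0 : ℝ) < K₅ := by exact_mod_cast hK₅
  obtain ⟨s₀, hs₀⟩ : ∃ s₀ : ℝ, s₀ = t / (4 * (1 + c2)) := ⟨_, rfl⟩
  have hs₀0 : 0 < s₀ := by rw [hs₀]; positivity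
  have hs₀t : (1 + c2) * (2 * s₀) = t / 2 := by
    rw [hs₀]
    field_simp
    norm_num
  obtain ⟨cv, hcv⟩ : ∃ cv : ℝ, cv = min (min V₀ (1 / 8)) (min (1 / (4 * (K₁ : ℝ)))
    (min (1 / (4 * (K₄ : ℝ))) (1 / (4 * (K₅ : ℝ))))) := ⟨_, rfl⟩
  have hcv0 : 0 < cv := by
    rw [hcv]
    refine lt_min (lt_min hV₀ (by norm_num)) (lt_min (by positivity)
      (lt_min (by positivity) (by positivity)))
  have c1 : cv ≤ V₀ := by rw [hcv]; exact (min_le_left _ _).trans (min_le_left _ _)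
  have c2' : cv ≤ 1 / 8 := by rw [hcv]; exact (min_le_left _ _).trans (min_le_right _ _)
  have c3 : cv ≤ 1 / (4 * (K₁ : ℝ)) := by
    rw [hcv]; exact (min_le_right _ _).trans (min_le_left _ _)
  have c4 : cv ≤ 1 / (4 * (K₄ : ℝ)) := by
    rw [hcv]; exact (min_le_right _ _).trans ((min_le_right _ _).trans (min_le_left _ _))
  have c5 : cv ≤ 1 / (4 * (K₅ : ℝ)) := by
    rw [hcv]; exact (min_le_right _ _).trans ((min_le_right _ _).trans (min_le_right _ _))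
  obtain ⟨b, hKb, hK₄b, hK₅b, hb1, hbs, hbs5⟩ := exists_b3 K₁ K₄ K₅ cv s₀ hcv0 hs₀0
  have hb0 : (0 : ℝ) < b := by exact_mod_cast hb1
  have hb1' : (1 : ℝ) ≤ b := by exact_mod_cast hb1
  obtain ⟨v, hv⟩ : ∃ v : ℝ, v = cv / b := ⟨_, rfl⟩
  rw [← hv] at hbs hbs5
  have hv0 : 0 < v := by rw [hv]; positivity
  have hvcv : v ≤ cv := by rw [hv]; exact div_le_self hcv0.le hb1'
  have key : ∀ K : ℝ, 0 < K → cv ≤ 1 / (4 * K) → v * (K * b) ≤ 1 / 4 := by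
    intro K hK h
    calc v * (K * b) = cv * K := by rw [hv]; field_simp
      _ ≤ 1 / (4 * K) * K := mul_le_mul_of_nonneg_right h hK.le
      _ = 1 / 4 := by field_simp
  obtain ⟨δ, hδ0, hδ1, hδs, hδs5⟩ := exists_delta2 K₁ K₅ v s₀ hs₀0
  have hexp : 0 ≤ Real.exp (K₁ * δ) - 1 := by
    have := Real.one_le_exp (mul_nonneg hK₁0.le hδ0.le)
    linarith
  refine ⟨b, v, δ, _, _, hKb, hK₄b, hK₅b, hv0, hvcv.trans c1, hvcv.trans c2', key _ hK₁0 c3,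
    key _ hK₄0 c4, key _ hK₅0 c5, hδ0, hδ1, rfl, rfl, by positivity, ?_, ?_, ?_⟩
  · rw [mul_add]
    have h1 : 0 ≤ c2 * (2 * s₀) := by positivity
    have h2 : (1 + c2) * (2 * s₀) = 2 * s₀ + c2 * (2 * s₀) := by ring
    linarith
  · have h1 : (K₁ : ℝ) / v ^ K₁ * (Real.exp (K₁ * δ) - 1 + (1 / 2 : ℝ) ^ b) ≤ 2 * s₀ := by
      rw [mul_add]
      linarith
    have h2 : (1 + c2) * (2 * s₀) = 2 * s₀ + c2 * (2 * s₀) := by ring
    have h3 := mul_le_mul_of_nonneg_left h1 hc2.le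
    linarith
  · rw [mul_add]
    have h1 : 0 ≤ c2 * (2 * s₀) := by positivity
    have h2 : (1 + c2) * (2 * s₀) = 2 * s₀ + c2 * (2 * s₀) := by ring
    linarith

/-- the bound for the number of prime factors -/
lemma k0_bound {v D₀ : ℝ} {X z0 J k0 M : ℕ} {P1 P2 B : Finset ℕ} {ρ : ℕ → ℕ → ℕ} {w : ℕ → ℝ}
    (hv0 : 0 < v) (hk0 : 2 * D₀ / v ≤ k0) (hX16 : 16 ≤ X)
    (hHge : (X : ℝ) ^ (v / 2) ≤ (2 : ℝ) ^ 2 ^ J) (hP12 : P1 ∪ P2 = PP z0 X)
    (hP2 : P2 = PP (2 ^ 2 ^ J) X)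
    (hprod : ∀ m < M, w m ≠ 0 → ∀ a ∈ B,
      ∏ p ∈ (PP z0 X).filter (fun p => m % p = ρ p a), (p : ℝ) ≤ (X : ℝ) ^ D₀) :
    ∀ m < M, w m ≠ 0 → ∀ a ∈ B, rg ρ P1 a m ≠ 0 →
      (P2.filter (fun p => m % p = ρ p a)).card ≤ k0 := by
  intro m hm hwm a ha _
  have hX0 : (0 : ℝ) < X := by
    have : 0 < X := by omega
    exact_mod_cast this
  have h1 := hprod m hm hwm a ha
  have h2 : ((X : ℝ) ^ (v / 2)) ^ (P2.filter (fun p => m % p = ρ p a)).card ≤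
      ∏ p ∈ (PP z0 X).filter (fun p => m % p = ρ p a), (p : ℝ) := by
    calc ((X : ℝ) ^ (v / 2)) ^ (P2.filter (fun p => m % p = ρ p a)).card =
          ∏ p ∈ P2.filter (fun p => m % p = ρ p a), (X : ℝ) ^ (v / 2) := by
            rw [Finset.prod_const]
      _ ≤ ∏ p ∈ P2.filter (fun p => m % p = ρ p a), (p : ℝ) := by
            refine Finset.prod_le_prod (fun _ _ => by positivity) fun p hp => ?_
            have h3 : ((2 : ℝ) ^ 2 ^ J) < p := by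
              have h4 : 2 ^ 2 ^ J < p := by
                have h5 := (mem_filter.mp hp).1
                rw [hP2] at h5
                exact PP_gt h5
              exact_mod_cast h4
            linarith
      _ ≤ ∏ p ∈ (PP z0 X).filter (fun p => m % p = ρ p a), (p : ℝ) := by
            have hsub : P2.filter (fun p => m % p = ρ p a) ⊆
                (PP z0 X).filter (fun p => m % p = ρ p a) :=
              Finset.filter_subset_filter _ (by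
                rw [← hP12]
                exact Finset.subset_union_right)
            rw [← Finset.prod_sdiff hsub]
            refine le_mul_of_one_le_left (Finset.prod_nonneg fun _ _ => Nat.cast_nonneg _) ?_
            exact prod_ge_one (fun p hp => PP_prime (mem_filter.mp (Finset.mem_sdiff.mp hp).1).1)
  have h4 := h2.trans h1
  rw [← Real.rpow_natCast, ← Real.rpow_mul hX0.le] at h4
  have h5 : v / 2 * ((P2.filter (fun p => m % p = ρ p a)).card : ℝ) ≤ D₀ :=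
    (Real.rpow_le_rpow_left_iff (by
      have : (16 : ℝ) ≤ X := by exact_mod_cast hX16
      linarith)).mp h4
  have h6 : ((P2.filter (fun p => m % p = ρ p a)).card : ℝ) ≤ 2 * D₀ / v := by
    rw [le_div_iff₀ hv0]
    linarith
  exact_mod_cast h6.trans hk0

/-- the error term of the fourth moment -/
lemma e4_bound {n K : ℕ} {C L A E b j : ℝ} (hC : 1 ≤ C) (hL : 1 ≤ L) (hA : 0 < A) (hE0 : 0 ≤ E)
    (hE : E ≤ A / L ^ K) (hb0 : 0 ≤ b) (hb1 : b + 1 ≤ 2 * C * L) (hj0 : 0 ≤ j) (hj : j + 2 ≤ L)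
    (h5 : (2 * C) ^ (4 * n) ≤ L) (hK : 4 * n + 2 ≤ K) : (b + 1) ^ (4 * n) * ((j + 2) * E) ≤ A := by
  have hL0 : 0 < L := by linarith
  have hC0 : 0 < C := by linarith
  calc (b + 1) ^ (4 * n) * ((j + 2) * E) ≤
        (2 * C * L) ^ (4 * n) * (L * (A / L ^ K)) := by
          refine mul_le_mul (pow_le_pow_left₀ (by linarith) hb1 _) ?_ (by positivity)
            (by positivity)
          exact mul_le_mul hj hE hE0 hL0.le
    _ = (2 * C) ^ (4 * n) * (L ^ (4 * n + 1) * (A / L ^ K)) := by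
          rw [mul_pow]
          ring
    _ ≤ L * (L ^ (4 * n + 1) * (A / L ^ K)) := by
          refine mul_le_mul_of_nonneg_right h5 (by positivity)
    _ = A * (L ^ (4 * n + 2) / L ^ K) := by ring
    _ ≤ A * 1 := by
          refine mul_le_mul_of_nonneg_left ?_ hA.le
          rw [div_le_one (by positivity)]
          exact pow_le_pow_right₀ hL hK
    _ = A := mul_one _

end Pool.Agent.J4H30.VW
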