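import Pool.Agent.J4H30.VW.EngB

/-!
Project VW, part 7: the engine.  Second moments, correlations and fourth moments of the weights of many
sets of positions at the same time.
-/

set_option autoImplicit false

open Finset Filter

namespace Pool.Agent.J4H30.VW

open Pool.Agent.H410R2.AC Pool.Agent.H410R2.EN Pool.Agent.J4H30.AW

/-- the content of `SecondW` for fixed constants -/
def SecK (n : ℕ) (C : ℝ) (K : ℕ) : Prop :=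
  ∀ (b J z0 D0 : ℕ) (P1 P2 B : Finset ℕ) (ρ : ℕ → ℕ → ℕ) (κ : ℕ → ℕ → ℝ) (e : ℕ → ℕ)
    (w : ℕ → ℝ) (M : ℕ) (A : ℝ) (err : Finset ℕ → ℝ) (S : Fin n → Finset (Finset ℕ))
    (g : Fin n → ℝ) (Y : Fin n → ℕ) (Y1 : ℕ) (V δ : ℝ),
    Setup K b J z0 D0 P1 P2 B ρ κ e w M A err →
    (2 ^ 2 ^ J) ^ (K * b) * (Y1 * ∏ τ, Y τ) ^ 2 ≤ D0 → 0 < V → V ≤ 1 → δ ≤ 1 →
    Pi1 P2 ≤ C / V → (B.card : ℝ) * V1 P1 ≤ C / V → (∀ τ, 0 ≤ g τ ∧ g τ ≤ C) →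
    (∀ τ, ∀ R ∈ S τ, R ⊆ P2) → (∀ τ, ∅ ∉ S τ) → (∀ τ τ', τ ≠ τ' → Disjoint (S τ) (S τ')) →
    (∀ U ⊆ B, U.card ≤ 2 * n + 2 → dl e ρ (P1 ∪ P2) U ≤ δ) →
    (∀ τ, 1 ≤ Y τ ∧ ∀ R ∈ S τ, ∏ p ∈ R, p ≤ Y τ) → 1 ≤ Y1 →
    (∀ (c : (Fin n → Option ℕ) → ℝ), (∀ σ, |c σ| ≤ 1) →
      |∑ m ∈ range M, w m * WW B c (xx ρ P1 S g m) ^ 2 -
        A * ∑ σ ∈ cfg n B, c σ ^ 2 * occ (fun τ => g τ ^ 2 * (V1 P1 * GG (S τ))) σ| ≤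
      EF n K b J B.card A V δ (ET K (P1 ∪ P2) D0 err)) ∧
    (∀ (S1 : Finset (Finset ℕ)), (∀ R ∈ S1, R ⊆ P2) → (∀ R ∈ S1, ∏ p ∈ R, p ≤ Y1) →
      ∀ a₀ ∈ B, ∀ (c : (Fin n → Option ℕ) → ℝ), (∀ σ, |c σ| ≤ 1) →
      |∑ m ∈ range M, w m * (WW (B.erase a₀) c (xx ρ P1 S g m) *
          (rg ρ P1 a₀ m * FF ρ S1 (some a₀) m)) ^ 2 -
        A * (V1 P1 * GG S1 * ∑ σ ∈ cfg n (B.erase a₀), c σ ^ 2 *
          occ (fun τ => g τ ^ 2 * (V1 P1 * GG (S τ))) σ)| ≤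
      EF n K b J B.card (A * V1 P1) V δ (ET K (P1 ∪ P2) D0 err))

/-- the content of `FourthW` for fixed constants -/
def FouK (n : ℕ) (C : ℝ) (K : ℕ) : Prop :=
  ∀ (b J z0 D0 k0 : ℕ) (P1 P2 B : Finset ℕ) (ρ : ℕ → ℕ → ℕ) (κ : ℕ → ℕ → ℝ) (e : ℕ → ℕ)
    (w : ℕ → ℝ) (M : ℕ) (A : ℝ) (err : Finset ℕ → ℝ) (S : Fin n → Finset (Finset ℕ))
    (g : Fin n → ℝ) (V : ℝ),
    Setup K b J z0 D0 P1 P2 B ρ κ e w M A err →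
    (2 ^ 2 ^ J) ^ (K * b) ≤ D0 → 0 < V → V ≤ 1 →
    Pi1 P2 ≤ C / V → (B.card : ℝ) * V1 P1 ≤ C / V → (∀ τ, 0 ≤ g τ ∧ g τ ≤ C) →
    (∀ τ, ∀ R ∈ S τ, R ⊆ P2) →
    (∀ U ⊆ B, U.card ≤ 4 * n → dl e ρ (P1 ∪ P2) U ≤ 1) →
    (∀ m < M, w m ≠ 0 → ∀ a ∈ B, rg ρ P1 a m ≠ 0 →
      (P2.filter (fun p => m % p = ρ p a)).card ≤ k0) →
    ∀ (c : (Fin n → Option ℕ) → ℝ), (∀ σ, |c σ| ≤ 1) →
    ∑ m ∈ range M, w m * WW B c (xx ρ P1 S g m) ^ 4 ≤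
      (K / V) ^ K * 2 ^ (4 * n * k0) *
        (A + (B.card + 1 : ℝ) ^ (4 * n) * (((J : ℝ) + 2) * ET K (P1 ∪ P2) D0 err))

/-- the content of `pairW` for fixed constants -/
def PairK (n : ℕ) (C : ℝ) (K : ℕ) : Prop :=
    ∀ (b J z0 D0 : ℕ) (P1 P2 B₁ B₂ : Finset ℕ) (ρ : ℕ → ℕ → ℕ) (κ : ℕ → ℕ → ℝ) (e : ℕ → ℕ)
    (w : ℕ → ℝ) (M : ℕ) (A : ℝ) (err : Finset ℕ → ℝ) (S : Fin n → Finset (Finset ℕ))
    (g : Fin n → ℝ) (Y : Fin n → ℕ) (V δ : ℝ), Disjoint B₁ B₂ →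
    Setup K b J z0 D0 P1 P2 (B₁ ∪ B₂) ρ κ e w M A err →
    (2 ^ 2 ^ J) ^ (K * b) * (∏ τ, Y τ) ^ 4 ≤ D0 → 0 < V → V ≤ 1 → δ ≤ 1 →
    Pi1 P2 ≤ C / V → ((B₁ ∪ B₂).card : ℝ) * V1 P1 ≤ C / V → (∀ τ, 0 ≤ g τ ∧ g τ ≤ C) →
    (∀ τ, ∀ R ∈ S τ, R ⊆ P2) → (∀ τ, ∅ ∉ S τ) → (∀ τ τ', τ ≠ τ' → Disjoint (S τ) (S τ')) →
    (∀ U ⊆ B₁ ∪ B₂, U.card ≤ 4 * n + 2 → dl e ρ (P1 ∪ P2) U ≤ δ) →
    (∀ τ, 1 ≤ Y τ ∧ ∀ R ∈ S τ, ∏ p ∈ R, p ≤ Y τ) →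
      |∑ m ∈ range M, w m * (WW B₁ (fun _ => 1) (xx ρ P1 S g m) *
          WW B₂ (fun _ => 1) (xx ρ P1 S g m)) ^ 2 -
        A * ((∑ σ ∈ cfg n B₁, occ (fun τ => g τ ^ 2 * (V1 P1 * GG (S τ))) σ) *
          ∑ σ ∈ cfg n B₂, occ (fun τ => g τ ^ 2 * (V1 P1 * GG (S τ))) σ)| ≤
      EF (n + n) K b J (B₁ ∪ B₂).card A V δ (ET K (P1 ∪ P2) D0 err)

/-- the facts on `X` -/
def EqX (X z0 : ℕ) (w : ℕ → ℝ) (M : ℕ) (A : ℝ) (err : Finset ℕ → ℝ) (K : ℕ) : Prop :=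
  (∀ m, 0 ≤ w m) ∧ 0 < A ∧ Equid (fun p _ => 1 / (p : ℝ)) w M A (PP z0 X) X err ∧
    ET K (PP z0 X) X err ≤ A / Real.log X ^ K

lemma setup_of {n : ℕ} {C1 η v : ℝ} {β : Fin n → ℝ} {X z0 J K' K b Y1 : ℕ} {P1 P2 B : Finset ℕ}
    {S : Fin n → Finset (Finset ℕ)} {Y : Fin n → ℕ} {S1 : Finset (Finset ℕ)} {ρ : ℕ → ℕ → ℕ}
    {w : ℕ → ℝ} {M : ℕ} {A : ℝ} {err : Finset ℕ → ℝ}
    (hdat : EData n C1 η v β X z0 J P1 P2 S Y Y1 S1) (hE : EqX X z0 w M A err K) (hK'b : K' ≤ b)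
    (hK'z : K' ≤ z0) (hρ : ∀ p ∈ PP z0 X, ∀ a ∈ B, ρ p a < p) :
    Setup K' b J z0 X P1 P2 B ρ (fun p _ => 1 / (p : ℝ)) (fun p => p) w M A err := by
  obtain ⟨hw, hA, hEq, -⟩ := hE
  refine ⟨hK'b, hK'z, hdat.hP1, hdat.hP2, ?_, hw, hA.le, ?_, ?_⟩
  · rw [hdat.hP12]
    intro p hp c _
    have h2 := prime_two_le (PP_prime hp)
    refine ⟨by positivity, ?_, ?_⟩
    · apply one_div_le_one_div_of_le <;> linarith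
    · intro _
      simp only [sub_self, abs_zero]
      positivity
  · rw [hdat.hP12]
    exact hEq
  · rw [hdat.hP12]
    exact hρ

lemma err_facts {X z0 K K' : ℕ} {w : ℕ → ℝ} {M : ℕ} {A : ℝ} {err : Finset ℕ → ℝ}
    (hE : EqX X z0 w M A err K) (h1 : 1 ≤ K') (h2 : K' ≤ K) :
    0 ≤ ET K' (PP z0 X) X err ∧ ET K' (PP z0 X) X err ≤ A / Real.log X ^ K := by
  obtain ⟨hw, hA, hEq, hET⟩ := hE
  have hPP : ∀ p ∈ PP z0 X, p.Prime := fun p hp => PP_prime hp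
  constructor
  · unfold ET
    refine Finset.sum_nonneg fun T hT => ?_
    rw [Finset.mem_filter, Finset.mem_powerset] at hT
    exact mul_nonneg (by positivity)
      (Pool.Agent.H602R2.err_nonneg _ w M A (PP z0 X) X err hPP hEq T hT.1 hT.2)
  · refine (ET_mono K' K h2 h1 (PP z0 X) X err (fun T hT hT2 =>
      Pool.Agent.H602R2.err_nonneg _ w M A (PP z0 X) X err hPP hEq T hT hT2)).trans hET

/-- cardinalities -/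
lemma card_facts {C C1 v V1' : ℝ} {X z0 : ℕ} {B : Finset ℕ} (hC1 : 1 ≤ C1)
    (hv0 : 0 < v) (hlX : 0 < Real.log (X : ℝ)) (hlz : 1 ≤ Real.log (z0 : ℝ))
    (hV1 : V1' ≤ 2 * C1 * Real.log z0 / (v * Real.log X))
    (hBc : (B.card : ℝ) * Real.log z0 ≤ C * Real.log X) :
    (B.card : ℝ) * V1' ≤ 2 * C * C1 / v ∧ (B.card : ℝ) ≤ C * Real.log X := by
  constructor
  · calc (B.card : ℝ) * V1' ≤ B.card * (2 * C1 * Real.log z0 / (v * Real.log X)) :=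
          mul_le_mul_of_nonneg_left hV1 (Nat.cast_nonneg _)
      _ = 2 * C1 / (v * Real.log X) * (B.card * Real.log z0) := by ring
      _ ≤ 2 * C1 / (v * Real.log X) * (C * Real.log X) :=
          mul_le_mul_of_nonneg_left hBc (by positivity)
      _ = 2 * C * C1 / v := by field_simp
  · have h3 : (B.card : ℝ) * 1 ≤ B.card * Real.log z0 :=
      mul_le_mul_of_nonneg_left hlz (Nat.cast_nonneg _)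
    linarith

lemma log_z0 {z0 : ℕ} (hz05 : 5 ≤ z0) : 1 ≤ Real.log (z0 : ℝ) := by
  have hz05' : (5 : ℝ) ≤ z0 := by exact_mod_cast hz05
  have h2 : Real.exp 1 ≤ z0 := by
    have := Real.exp_one_lt_d9
    linarith
  calc (1 : ℝ) = Real.log (Real.exp 1) := (Real.log_exp 1).symm
    _ ≤ Real.log z0 := Real.log_le_log (Real.exp_pos 1) h2

/-- the weights `g` -/
lemma g_bounds {n : ℕ} {η v βm : ℝ} {β : Fin n → ℝ} {S : Fin n → Finset (Finset ℕ)}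
    (hη0 : 0 < η) (hv0 : 0 < v) (hv8 : v ≤ 1 / 8) (hβp : ∀ τ, 0 < β τ) (hβm0 : 0 < βm)
    (hβm : ∀ τ, βm ≤ β τ) (hSGG : ∀ τ, β τ ^ 2 / (η * v) ≤ GG (S τ)) :
    ∀ τ, 0 < GG (S τ) ∧ 0 ≤ β τ / GG (S τ) ∧ β τ / GG (S τ) ≤ η / βm := by
  intro τ
  have hb := hβp τ
  have hG : 0 < GG (S τ) := lt_of_lt_of_le (by positivity) (hSGG τ)
  refine ⟨hG, div_nonneg hb.le hG.le, ?_⟩
  have h1 : β τ / GG (S τ) ≤ β τ / (β τ ^ 2 / (η * v)) :=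
    div_le_div_of_nonneg_left hb.le (by positivity) (hSGG τ)
  have h2 : β τ / (β τ ^ 2 / (η * v)) = η / β τ * v := by field_simp
  rw [h2] at h1
  refine h1.trans ?_
  calc η / β τ * v ≤ η / β τ * 1 := mul_le_mul_of_nonneg_left (by linarith) (by positivity)
    _ = η / β τ := mul_one _
    _ ≤ η / βm := div_le_div_of_nonneg_left hη0.le hβm0 (hβm τ)

/-- levels in the natural numbers -/
lemma nat_levels {n X J Kb Y1 : ℕ} {Y : Fin n → ℕ} (hX1 : (1 : ℝ) ≤ X)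
    (hl : ((2 : ℝ) ^ 2 ^ J) ^ Kb ≤ (X : ℝ) ^ (1 / 4 : ℝ))
    (hYprod : ((∏ τ, Y τ : ℕ) : ℝ) ≤ (X : ℝ) ^ (1 / 8 : ℝ)) (hY1le : (Y1 : ℝ) ≤ (X : ℝ) ^ (1 / 8 : ℝ)) :
    (2 ^ 2 ^ J) ^ Kb * (Y1 * ∏ τ, Y τ) ^ 2 ≤ X ∧ (2 ^ 2 ^ J) ^ Kb ≤ X ∧
      (2 ^ 2 ^ J) ^ Kb * (∏ τ, Y τ) ^ 4 ≤ X := by
  have hX0 : (0 : ℝ) < X := by linarith
  have h34 : (X : ℝ) ^ (1 / 4 : ℝ) * (X : ℝ) ^ (1 / 2 : ℝ) ≤ X := by
    calc (X : ℝ) ^ (1 / 4 : ℝ) * (X : ℝ) ^ (1 / 2 : ℝ) = (X : ℝ) ^ (3 / 4 : ℝ) := by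
          rw [← Real.rpow_add hX0]
          norm_num
      _ ≤ (X : ℝ) ^ (1 : ℝ) := Real.rpow_le_rpow_of_exponent_le hX1 (by norm_num)
      _ = X := Real.rpow_one _
  have h0 : (0 : ℝ) ≤ ((∏ τ, Y τ : ℕ) : ℝ) := Nat.cast_nonneg _
  refine ⟨?_, ?_, ?_⟩
  · have h1 : (((2 ^ 2 ^ J) ^ Kb * (Y1 * ∏ τ, Y τ) ^ 2 : ℕ) : ℝ) ≤ X := by
      rw [Nat.cast_mul, Nat.cast_pow, Nat.cast_pow, Nat.cast_pow, Nat.cast_mul, Nat.cast_ofNat]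
      refine le_trans (mul_le_mul hl ?_ (by positivity) (by positivity)) h34
      calc ((Y1 : ℝ) * ((∏ τ, Y τ : ℕ) : ℝ)) ^ 2 ≤
            ((X : ℝ) ^ (1 / 8 : ℝ) * (X : ℝ) ^ (1 / 8 : ℝ)) ^ 2 :=
            pow_le_pow_left₀ (by positivity)
              (mul_le_mul hY1le hYprod h0 (by positivity)) 2
        _ = (X : ℝ) ^ (1 / 2 : ℝ) := by
          rw [← Real.rpow_add hX0, ← Real.rpow_natCast, ← Real.rpow_mul hX0.le]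
          norm_num
    exact_mod_cast h1
  · have h1 : (((2 ^ 2 ^ J) ^ Kb : ℕ) : ℝ) ≤ X := by
      rw [Nat.cast_pow, Nat.cast_pow, Nat.cast_ofNat]
      refine hl.trans ?_
      calc (X : ℝ) ^ (1 / 4 : ℝ) ≤ (X : ℝ) ^ (1 : ℝ) :=
            Real.rpow_le_rpow_of_exponent_le hX1 (by norm_num)
        _ = X := Real.rpow_one _
    exact_mod_cast h1
  · have h1 : (((2 ^ 2 ^ J) ^ Kb * (∏ τ, Y τ) ^ 4 : ℕ) : ℝ) ≤ X := by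
      rw [Nat.cast_mul, Nat.cast_pow, Nat.cast_pow, Nat.cast_pow, Nat.cast_ofNat]
      refine le_trans (mul_le_mul hl ?_ (by positivity) (by positivity)) h34
      calc ((∏ τ, Y τ : ℕ) : ℝ) ^ 4 ≤ ((X : ℝ) ^ (1 / 8 : ℝ)) ^ 4 :=
            pow_le_pow_left₀ h0 hYprod 4
        _ = (X : ℝ) ^ (1 / 2 : ℝ) := by
          rw [← Real.rpow_natCast, ← Real.rpow_mul hX0.le]
          norm_num
    exact_mod_cast h1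

end Pool.Agent.J4H30.VW
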