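import Pool.Agent.J4H30.VW.EngC

/-!
Project VW, part 8: the engine.  The second moment and the rough positions; the fourth moment; the
correlations.
-/

set_option autoImplicit false

open Finset Filter

namespace Pool.Agent.J4H30.VW

open Pool.Agent.H410R2.AC Pool.Agent.H410R2.EN Pool.Agent.J4H30.AW

open Classical in
/-- the main term of one set of positions -/
noncomputable def Mass (n : ℕ) (q : Fin n → ℝ) (B : Finset ℕ) : ℝ := ∑ σ ∈ cfg n B, occ q σ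

open Classical in
/-- the weight of one set of positions -/
noncomputable def Wt (n : ℕ) (ρ : ℕ → ℕ → ℕ) (P1 : Finset ℕ) (S : Fin n → Finset (Finset ℕ))
    (g : Fin n → ℝ) (B : Finset ℕ) (m : ℕ) : ℝ := WW B (fun _ => 1) (xx ρ P1 S g m)

lemma single_rough {n K₁ K b J : ℕ} {C C1 η η₁ v t δ s c2 C2 βm D A : ℝ} {β : Fin n → ℝ}
    {X z0 M Y1 : ℕ} {P1 P2 B : Finset ℕ} {S : Fin n → Finset (Finset ℕ)} {Y : Fin n → ℕ}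
    {S1 : Finset (Finset ℕ)} {ρ : ℕ → ℕ → ℕ} {w : ℕ → ℝ} {err : Finset ℕ → ℝ}
    (hC : 1 ≤ C) (hC1 : 1 ≤ C1) (hη0 : 0 < η) (hηle : 64 * C ^ 2 * C1 ^ 3 * η ≤ η₁)
    (hη' : 2 * C * C1 * η ≤ 1) (hβs : ∑ τ, β τ = 1) (hβp : ∀ τ, 0 < β τ) (hβm0 : 0 < βm)
    (hβm : ∀ τ, βm ≤ β τ) (hC2a : 2 * C1 ≤ C2) (hC2b : 2 * C * C1 ≤ C2) (hC2d : η / βm ≤ C2)
    (hK₁ : 1 ≤ K₁) (hSec : SecK n C2 K₁) (ht : 0 < t)
    (hc2 : c2 = 512 * C * C1 ^ 3) (hKb : K₁ ≤ b) (hv0 : 0 < v) (hv8 : v ≤ 1 / 8)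
    (hδ1 : δ ≤ 1) (hsdef : s = (K₁ : ℝ) / v ^ K₁ * (Real.exp (K₁ * δ) - 1 + (1 / 2 : ℝ) ^ b))
    (hs0 : 0 ≤ s) (hst : s ≤ t / 2) (hst8 : c2 * s ≤ t / 2)
    (hKK₁ : K₁ ≤ K) (hK4n : 4 * n + 5 ≤ K)
    (hD : D = (K₁ : ℝ) / v ^ K₁ * (2 * C) ^ (2 * n + 2) * (1 + C * (16 * C1) ^ 2))
    (hsc : Scale v X J) (hDL : D ≤ t / 2 * Real.log X)
    (hdat : EData n C1 η v β X z0 J P1 P2 S Y Y1 S1)
    (hl1 : ((2 : ℝ) ^ 2 ^ J) ^ (K₁ * b) ≤ (X : ℝ) ^ (1 / 4 : ℝ)) (hz0K : K ≤ z0)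
    (hE : EqX X z0 w M A err K)
    (hBc : (B.card : ℝ) * Real.log z0 ≤ C * Real.log X)
    (hρ : ∀ p ∈ PP z0 X, ∀ a ∈ B, ρ p a < p)
    (hdl : ∀ U ⊆ B, U.card ≤ K → dl (fun p => p) ρ (PP z0 X) U ≤ δ) :
    (1 ≤ Mass n (fun τ => (β τ / GG (S τ)) ^ 2 * (V1 P1 * GG (S τ))) B ∧
      Mass n (fun τ => (β τ / GG (S τ)) ^ 2 * (V1 P1 * GG (S τ))) B ≤ 2 ^ n) ∧
    A * (Mass n (fun τ => (β τ / GG (S τ)) ^ 2 * (V1 P1 * GG (S τ))) B - t) ≤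
      ∑ m ∈ range M, w m * Wt n ρ P1 S (fun τ => β τ / GG (S τ)) B m ^ 2 ∧
    ∑ m ∈ (range M).filter (fun m => ¬ ∀ a ∈ B, ∃ p ∈ PP z0 X, m % p = ρ p a),
      w m * Wt n ρ P1 S (fun τ => β τ / GG (S τ)) B m ^ 2 ≤
      A * (η₁ * Mass n (fun τ => (β τ / GG (S τ)) ^ 2 * (V1 P1 * GG (S τ))) B + t) := by
  classical
  have hz05 : 5 ≤ z0 := by omega
  have hlz := log_z0 hz05
  obtain ⟨hX16, he1, -, -, -, -, hJlog, -, -, -⟩ := hsc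
  have hX1 : (1 : ℝ) ≤ X := by exact_mod_cast (by omega : 1 ≤ X)
  have hlX : 0 < Real.log (X : ℝ) := by linarith
  obtain ⟨hBV', hBlog⟩ := card_facts hC1 hv0 hlX hlz hdat.hV1 hBc
  have hCl : 1 * 1 ≤ C * Real.log X := mul_le_mul hC he1 (by norm_num) (by linarith)
  have hBlog1 : (B.card : ℝ) + 1 ≤ 2 * C * Real.log X := by linarith
  have hg := g_bounds hη0 hv0 hv8 hβp hβm0 hβm hdat.hSGG
  obtain ⟨g, hgdef⟩ : ∃ g : Fin n → ℝ, g = fun τ => β τ / GG (S τ) := ⟨_, rfl⟩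
  have hgτ : ∀ τ, g τ = β τ / GG (S τ) := fun τ => by rw [hgdef]
  have hgC : ∀ τ, 0 ≤ g τ ∧ g τ ≤ C2 := fun τ => by
    rw [hgτ]
    exact ⟨(hg τ).2.1, (hg τ).2.2.trans hC2d⟩
  have hPiC : Pi1 P2 ≤ C2 / v := hdat.hPi2.trans (div_le_div_of_nonneg_right hC2a hv0.le)
  have hBC2 : (B.card : ℝ) * V1 P1 ≤ C2 / v := hBV'.trans (div_le_div_of_nonneg_right hC2b hv0.le)
  have hlev := (nat_levels hX1 hl1 hdat.hYprod hdat.hY1le).1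
  obtain ⟨hA2, hB2⟩ := hSec b J z0 X P1 P2 B ρ (fun p _ => 1 / (p : ℝ)) (fun p => p) w M A err S g
    Y Y1 v δ (setup_of hdat hE hKb (hKK₁.trans hz0K) hρ) hlev hv0 (by linarith) hδ1 hPiC
    hBC2 hgC hdat.hSP hdat.hSe hdat.hSdis
    (fun U hU hUc => by
      rw [hdat.hP12]
      exact hdl U hU (by omega)) (fun τ => ⟨hdat.hY1 τ, hdat.hsz τ⟩) hdat.hY11
  rw [hdat.hP12] at hA2 hB2
  have hA1 := hA2 (fun _ => 1) (fun σ => by simp)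
  simp only [one_pow, one_mul] at hA1
  obtain ⟨hE0, hE1⟩ := err_facts hE hK₁ hKK₁
  have hG1inv0 : 0 ≤ 1 / GG S1 := one_div_nonneg.mpr hdat.hG1pos.le
  have hG1inv1 : 1 / GG S1 ≤ 16 * C1 := by
    refine hdat.hG1inv.trans ?_
    have h1 : 16 * C1 * v ≤ 16 * C1 * 1 := mul_le_mul_of_nonneg_left (by linarith) (by linarith)
    linarith
  have hsmall := err_small2 n K₁ K v C C1 (Real.log X) A (ET K₁ (PP z0 X) X err) B.card J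
    (1 / GG S1) D (t / 2) hv0 hC hC1 he1 hE.2.1 hE0 hE1 (by omega) (Nat.cast_nonneg _)
    hBlog hBlog1 (Nat.cast_nonneg _) hJlog hG1inv0 hG1inv1 hD hDL
  have hEF1 : 0 ≤ K₁ / v ^ K₁ * ((B.card : ℝ) + 1) ^ (2 * n + 2) * (((J : ℝ) + 2) *
      ET K₁ (PP z0 X) X err) := mul_nonneg (by positivity) (mul_nonneg (by positivity) hE0)
  obtain ⟨r1, r2, r3⟩ := rough_mass (B := B) (P1 := P1) (P2 := P2) (ρ := ρ) (w := w) (M := M)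
    (A := A) (S := S) (S1 := S1) (g := g) (β := β) (s := s) (c2 := c2) (η := η) (η₁ := η₁) (t := t)
    (E1 := K₁ / v ^ K₁ * ((B.card : ℝ) + 1) ^ (2 * n + 2) * (((J : ℝ) + 2) *
      ET K₁ (PP z0 X) X err)) hE.2.1 hC hC1 hv0 (by linarith) hη0 hηle hη' hc2 hE.1
    (fun τ => (hβp τ).le) hβs hdat.hV1pos (fun τ => (hg τ).1)
    hgτ hdat.hSGG hBV' hdat.hSP hdat.hS1P hdat.hG1pos hdat.hG1inv hs0 hst hst8 ht hEF1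
    (by rw [hsdef]; exact hA1) (fun a₀ ha₀ => by
      rw [hsdef]
      exact hB2 S1 hdat.hS1P hdat.hS1Y a₀ ha₀ (coef β)
        (fun σ => coef_abs (fun τ => (hβp τ).le) hβs σ)) hsmall
  rw [hdat.hP12] at r3
  rw [hgdef] at r1 r2 r3
  exact ⟨r1, r2, r3⟩

lemma single_four {n K₄ K b J k0 : ℕ} {C C1 η v δ C2 βm D₀ A : ℝ} {β : Fin n → ℝ}
    {X z0 M Y1 : ℕ} {P1 P2 B : Finset ℕ} {S : Fin n → Finset (Finset ℕ)} {Y : Fin n → ℕ}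
    {S1 : Finset (Finset ℕ)} {ρ : ℕ → ℕ → ℕ} {w : ℕ → ℝ} {err : Finset ℕ → ℝ}
    (hC : 1 ≤ C) (hC1 : 1 ≤ C1) (hη0 : 0 < η) (hβp : ∀ τ, 0 < β τ) (hβm0 : 0 < βm)
    (hβm : ∀ τ, βm ≤ β τ) (hC2a : 2 * C1 ≤ C2) (hC2b : 2 * C * C1 ≤ C2) (hC2d : η / βm ≤ C2)
    (hK₄ : 1 ≤ K₄) (hFou : FouK n C2 K₄) (hK₄b : K₄ ≤ b) (hv0 : 0 < v) (hv8 : v ≤ 1 / 8)
    (hδ1 : δ ≤ 1) (hKK₄ : K₄ ≤ K) (hK4n : 4 * n + 5 ≤ K) (hk0 : 2 * D₀ / v ≤ k0)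
    (he5 : (2 * C) ^ (4 * n) ≤ Real.log X)
    (hsc : Scale v X J) (hP2eq : P2 = PP (2 ^ 2 ^ J) X)
    (hdat : EData n C1 η v β X z0 J P1 P2 S Y Y1 S1)
    (hl4 : ((2 : ℝ) ^ 2 ^ J) ^ (K₄ * b) ≤ (X : ℝ) ^ (1 / 4 : ℝ)) (hz0K : K ≤ z0)
    (hE : EqX X z0 w M A err K)
    (hBc : (B.card : ℝ) * Real.log z0 ≤ C * Real.log X)
    (hρ : ∀ p ∈ PP z0 X, ∀ a ∈ B, ρ p a < p)
    (hdl : ∀ U ⊆ B, U.card ≤ K → dl (fun p => p) ρ (PP z0 X) U ≤ δ)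
    (hprod : ∀ m < M, w m ≠ 0 → ∀ a ∈ B,
      ∏ p ∈ (PP z0 X).filter (fun p => m % p = ρ p a), (p : ℝ) ≤ (X : ℝ) ^ D₀) :
    ∑ m ∈ range M, w m * Wt n ρ P1 S (fun τ => β τ / GG (S τ)) B m ^ 4 ≤
      A * ((K₄ / v) ^ K₄ * 2 ^ (4 * n * k0) * 2) := by
  classical
  have hz05 : 5 ≤ z0 := by omega
  have hlz := log_z0 hz05
  obtain ⟨hX16, he1, -, hHge, -, -, hJlog, -, -, -⟩ := hsc
  have hX1 : (1 : ℝ) ≤ X := by exact_mod_cast (by omega : 1 ≤ X)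
  have hlX : 0 < Real.log (X : ℝ) := by linarith
  obtain ⟨hBV', hBlog⟩ := card_facts hC1 hv0 hlX hlz hdat.hV1 hBc
  have hCl : 1 * 1 ≤ C * Real.log X := mul_le_mul hC he1 (by norm_num) (by linarith)
  have hBlog1 : (B.card : ℝ) + 1 ≤ 2 * C * Real.log X := by linarith
  have hg := g_bounds hη0 hv0 hv8 hβp hβm0 hβm hdat.hSGG
  have hPiC : Pi1 P2 ≤ C2 / v := hdat.hPi2.trans (div_le_div_of_nonneg_right hC2a hv0.le)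
  have hBC2 : (B.card : ℝ) * V1 P1 ≤ C2 / v := hBV'.trans (div_le_div_of_nonneg_right hC2b hv0.le)
  have hlev := (nat_levels hX1 hl4 hdat.hYprod hdat.hY1le).2.1
  have hk0' := k0_bound (P1 := P1) (B := B) (ρ := ρ) (w := w) (M := M) hv0 hk0 hX16 hHge hdat.hP12
    hP2eq hprod
  have hF := hFou b J z0 X k0 P1 P2 B ρ (fun p _ => 1 / (p : ℝ)) (fun p => p) w M A err S
    (fun τ => β τ / GG (S τ)) v (setup_of hdat hE hK₄b (hKK₄.trans hz0K) hρ) hlev hv0 (by linarith)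
    hPiC hBC2 (fun τ => ⟨(hg τ).2.1, (hg τ).2.2.trans hC2d⟩) hdat.hSP
    (fun U hU hUc => by
      rw [hdat.hP12]
      exact (hdl U hU (by omega)).trans hδ1) hk0' (fun _ => 1) (fun σ => by simp)
  rw [hdat.hP12] at hF
  obtain ⟨hE0, hE1⟩ := err_facts hE hK₄ hKK₄
  have hA := hE.2.1
  have hE4 := e4_bound (n := n) hC he1 hA hE0 hE1 (Nat.cast_nonneg _) hBlog1 (Nat.cast_nonneg _)
    hJlog he5 (by omega)
  have hK0 : 0 ≤ (K₄ / v) ^ K₄ * 2 ^ (4 * n * k0) := by positivity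
  refine le_trans hF ?_
  calc (K₄ / v) ^ K₄ * 2 ^ (4 * n * k0) *
        (A + ((B.card : ℝ) + 1) ^ (4 * n) * (((J : ℝ) + 2) * ET K₄ (PP z0 X) X err)) ≤
        (K₄ / v) ^ K₄ * 2 ^ (4 * n * k0) * (A + A) :=
        mul_le_mul_of_nonneg_left (by linarith) hK0
    _ = A * ((K₄ / v) ^ K₄ * 2 ^ (4 * n * k0) * 2) := by ring

lemma pair_core {n K₅ K b J : ℕ} {C C1 η v t δ s5 C2 βm D5 A : ℝ} {β : Fin n → ℝ}
    {X z0 M Y1 : ℕ} {P1 P2 B₁ B₂ : Finset ℕ} {S : Fin n → Finset (Finset ℕ)} {Y : Fin n → ℕ}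
    {S1 : Finset (Finset ℕ)} {ρ : ℕ → ℕ → ℕ} {w : ℕ → ℝ} {err : Finset ℕ → ℝ}
    (hC : 1 ≤ C) (hC1 : 1 ≤ C1) (hη0 : 0 < η) (hβp : ∀ τ, 0 < β τ) (hβm0 : 0 < βm)
    (hβm : ∀ τ, βm ≤ β τ) (hC2a : 2 * C1 ≤ C2) (hC2c : 4 * C * C1 ≤ C2) (hC2d : η / βm ≤ C2)
    (hK₅ : 1 ≤ K₅) (hPair : PairK n C2 K₅) (ht : 0 < t) (hK₅b : K₅ ≤ b) (hv0 : 0 < v)
    (hv8 : v ≤ 1 / 8) (hδ1 : δ ≤ 1)
    (hs5def : s5 = (K₅ : ℝ) / v ^ K₅ * (Real.exp (K₅ * δ) - 1 + (1 / 2 : ℝ) ^ b))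
    (hst5 : s5 ≤ t / 2) (hKK₅ : K₅ ≤ K) (hK4n : 4 * n + 5 ≤ K)
    (hD5 : D5 = (K₅ : ℝ) / v ^ K₅ * (2 * (2 * C)) ^ (2 * (n + n) + 2) *
      (1 + 2 * C * (16 * C1) ^ 2))
    (hsc : Scale v X J) (hDL5 : D5 ≤ t / 2 * Real.log X)
    (hdat : EData n C1 η v β X z0 J P1 P2 S Y Y1 S1)
    (hl5 : ((2 : ℝ) ^ 2 ^ J) ^ (K₅ * b) ≤ (X : ℝ) ^ (1 / 4 : ℝ)) (hz0K : K ≤ z0)
    (hE : EqX X z0 w M A err K) (hd : Disjoint B₁ B₂)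
    (hB₁c : (B₁.card : ℝ) * Real.log z0 ≤ C * Real.log X)
    (hB₂c : (B₂.card : ℝ) * Real.log z0 ≤ C * Real.log X)
    (hρ : ∀ p ∈ PP z0 X, ∀ a ∈ B₁ ∪ B₂, ρ p a < p)
    (hdl : ∀ U ⊆ B₁ ∪ B₂, U.card ≤ K → dl (fun p => p) ρ (PP z0 X) U ≤ δ) :
    ∑ m ∈ range M, w m * (Wt n ρ P1 S (fun τ => β τ / GG (S τ)) B₁ m *
      Wt n ρ P1 S (fun τ => β τ / GG (S τ)) B₂ m) ^ 2 ≤
      A * (Mass n (fun τ => (β τ / GG (S τ)) ^ 2 * (V1 P1 * GG (S τ))) B₁ *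
        Mass n (fun τ => (β τ / GG (S τ)) ^ 2 * (V1 P1 * GG (S τ))) B₂ + t) := by
  classical
  have hz05 : 5 ≤ z0 := by omega
  have hlz := log_z0 hz05
  obtain ⟨hX16, he1, -, hHge, -, -, hJlog, -, -, -⟩ := hsc
  have hX1 : (1 : ℝ) ≤ X := by exact_mod_cast (by omega : 1 ≤ X)
  have hlX : 0 < Real.log (X : ℝ) := by linarith
  obtain ⟨hBV1, hBl1⟩ := card_facts hC1 hv0 hlX hlz hdat.hV1 hB₁c
  obtain ⟨hBV2, hBl2⟩ := card_facts hC1 hv0 hlX hlz hdat.hV1 hB₂c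
  have hCl : 1 * 1 ≤ C * Real.log X := mul_le_mul hC he1 (by norm_num) (by linarith)
  have hc12 : ((B₁ ∪ B₂).card : ℝ) ≤ B₁.card + B₂.card := by
    exact_mod_cast Finset.card_union_le B₁ B₂
  have hBV' : ((B₁ ∪ B₂).card : ℝ) * V1 P1 ≤ C2 / v := by
    calc ((B₁ ∪ B₂).card : ℝ) * V1 P1 ≤ (B₁.card + B₂.card) * V1 P1 :=
          mul_le_mul_of_nonneg_right hc12 hdat.hV1pos
      _ = B₁.card * V1 P1 + B₂.card * V1 P1 := by ring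
      _ ≤ 2 * C * C1 / v + 2 * C * C1 / v := add_le_add hBV1 hBV2
      _ = (4 * C * C1) / v := by ring
      _ ≤ C2 / v := div_le_div_of_nonneg_right hC2c hv0.le
  have hBlog : ((B₁ ∪ B₂).card : ℝ) ≤ 2 * C * Real.log X := by linarith
  have hBlog1 : ((B₁ ∪ B₂).card : ℝ) + 1 ≤ 2 * (2 * C) * Real.log X := by linarith
  have hg := g_bounds hη0 hv0 hv8 hβp hβm0 hβm hdat.hSGG
  have hPiC : Pi1 P2 ≤ C2 / v := hdat.hPi2.trans (div_le_div_of_nonneg_right hC2a hv0.le)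
  have hlev := (nat_levels hX1 hl5 hdat.hYprod hdat.hY1le).2.2
  have h := hPair b J z0 X P1 P2 B₁ B₂ ρ (fun p _ => 1 / (p : ℝ)) (fun p => p) w M A err S
    (fun τ => β τ / GG (S τ)) Y v δ hd (setup_of hdat hE hK₅b (hKK₅.trans hz0K) hρ) hlev hv0
    (by linarith) hδ1 hPiC hBV' (fun τ => ⟨(hg τ).2.1, (hg τ).2.2.trans hC2d⟩) hdat.hSP hdat.hSe
    hdat.hSdis
    (fun U hU hUc => by
      rw [hdat.hP12]
      exact hdl U hU (by omega)) (fun τ => ⟨hdat.hY1 τ, hdat.hsz τ⟩)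
  rw [hdat.hP12] at h
  obtain ⟨hE0, hE1⟩ := err_facts hE hK₅ hKK₅
  have hA := hE.2.1
  have hsmall := err_small2 (n + n) K₅ K v (2 * C) C1 (Real.log X) A (ET K₅ (PP z0 X) X err)
    (B₁ ∪ B₂).card J 0 D5 (t / 2) hv0 (by linarith) hC1 he1 hA hE0 hE1
    (by omega) (Nat.cast_nonneg _) hBlog hBlog1 (Nat.cast_nonneg _) hJlog le_rfl (by linarith)
    hD5 hDL5
  have h1 := (abs_le.mp h).2
  have h2 : EF (n + n) K₅ b J (B₁ ∪ B₂).card A v δ (ET K₅ (PP z0 X) X err) =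
      A * s5 + K₅ / v ^ K₅ * (((B₁ ∪ B₂).card : ℝ) + 1) ^ (2 * (n + n) + 2) *
        (((J : ℝ) + 2) * ET K₅ (PP z0 X) X err) := by
    rw [hs5def]
    rfl
  rw [h2] at h1
  have h3 : A * s5 ≤ A * (t / 2) := mul_le_mul_of_nonneg_left hst5 hA.le
  have h4 : K₅ / v ^ K₅ * (((B₁ ∪ B₂).card : ℝ) + 1) ^ (2 * (n + n) + 2) *
        (((J : ℝ) + 2) * ET K₅ (PP z0 X) X err) ≤ A * (t / 2) := by
    refine le_trans ?_ hsmall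
    have h5 : (0 : ℝ) ^ 2 = 0 := by norm_num
    rw [h5, zero_mul, mul_zero, add_zero]
  unfold Mass Wt
  have h6 : A * ((∑ σ ∈ cfg n B₁, occ (fun τ => (β τ / GG (S τ)) ^ 2 * (V1 P1 * GG (S τ))) σ) *
      (∑ σ ∈ cfg n B₂, occ (fun τ => (β τ / GG (S τ)) ^ 2 * (V1 P1 * GG (S τ))) σ) + t) =
      A * ((∑ σ ∈ cfg n B₁, occ (fun τ => (β τ / GG (S τ)) ^ 2 * (V1 P1 * GG (S τ))) σ) *
      ∑ σ ∈ cfg n B₂, occ (fun τ => (β τ / GG (S τ)) ^ 2 * (V1 P1 * GG (S τ))) σ) + A * (t / 2) +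
        A * (t / 2) := by ring
  rw [h6]
  linarith

end Pool.Agent.J4H30.VW
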