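import Pool.Agent.J4H30.VW.MainC

/-!
Project VW, part 2: the pair lemma.
-/

set_option autoImplicit false

open Finset Pool.Agent.H410R2.AC Pool.Agent.H410R2.EN Pool.Agent.H400R2.AC4 Pool.Agent.H909R2.EN3

namespace Pool.Agent.J4H30.VW

variable {n : ℕ}

open Classical in
/-- the configurations of the first and of the second set -/
noncomputable def pcfg (n : ℕ) (B₁ B₂ : Finset ℕ) : Finset (Fin (n + n) → Option ℕ) :=
  (cfg n B₁ ×ˢ cfg n B₂).image (fun x : (Fin n → Option ℕ) × (Fin n → Option ℕ) => Fin.append x.1 x.2)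

lemma append_inj {α : Type} {a b c d : Fin n → α} (h : Fin.append a b = Fin.append c d) :
    a = c ∧ b = d := by
  constructor
  · funext i
    have := congrFun h (Fin.castAdd n i)
    rwa [Fin.append_left, Fin.append_left] at this
  · funext i
    have := congrFun h (Fin.natAdd n i)
    rwa [Fin.append_right, Fin.append_right] at this

open Classical in
lemma pcfg_sub {B₁ B₂ : Finset ℕ} (hd : Disjoint B₁ B₂) : pcfg n B₁ B₂ ⊆ cfg (n + n) (B₁ ∪ B₂) := by
  intro σ hσ
  unfold pcfg at hσ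
  rw [Finset.mem_image] at hσ
  obtain ⟨⟨a, b⟩, hab, rfl⟩ := hσ
  rw [Finset.mem_product] at hab
  obtain ⟨ha, hb⟩ := hab
  simp only at ha hb
  have ha1 := Fintype.mem_piFinset.1 (cfg_sub B₁ ha)
  have hb1 := Fintype.mem_piFinset.1 (cfg_sub B₂ hb)
  have hai := inj_of_cfg ha
  have hbi := inj_of_cfg hb
  unfold cfg
  rw [Finset.mem_filter, Fintype.mem_piFinset]
  constructor
  · intro t
    refine Fin.addCases (fun i => ?_) (fun i => ?_) t
    · simp only [Fin.append_left]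
      have := ha1 i
      rw [Finset.mem_insertNone] at this ⊢
      intro x hx
      exact Finset.mem_union_left _ (this x hx)
    · simp only [Fin.append_right]
      have := hb1 i
      rw [Finset.mem_insertNone] at this ⊢
      intro x hx
      exact Finset.mem_union_right _ (this x hx)
  · intro t t' x
    refine Fin.addCases (fun i => ?_) (fun i => ?_) t
    · refine Fin.addCases (fun j => ?_) (fun j => ?_) t'
      · rw [Fin.append_left, Fin.append_left]
        intro h1 h2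
        rw [hai i j x h1 h2]
      · rw [Fin.append_left, Fin.append_right]
        intro h1 h2
        exfalso
        have h3 : x ∈ B₁ := pos_sub_of_cfg ha ((mem_pos a x).2 ⟨i, h1⟩)
        have h4 : x ∈ B₂ := pos_sub_of_cfg hb ((mem_pos b x).2 ⟨j, h2⟩)
        exact Finset.disjoint_left.mp hd h3 h4
    · refine Fin.addCases (fun j => ?_) (fun j => ?_) t'
      · rw [Fin.append_right, Fin.append_left]
        intro h1 h2
        exfalso
        have h3 : x ∈ B₂ := pos_sub_of_cfg hb ((mem_pos b x).2 ⟨i, h1⟩)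
        have h4 : x ∈ B₁ := pos_sub_of_cfg ha ((mem_pos a x).2 ⟨j, h2⟩)
        exact Finset.disjoint_left.mp hd h4 h3
      · rw [Fin.append_right, Fin.append_right]
        intro h1 h2
        rw [hbi i j x h1 h2]

open Classical in
lemma sum_pcfg {B₁ B₂ : Finset ℕ} (f : (Fin (n + n) → Option ℕ) → ℝ) :
    ∑ σ ∈ pcfg n B₁ B₂, f σ = ∑ a ∈ cfg n B₁, ∑ b ∈ cfg n B₂, f (Fin.append a b) := by
  unfold pcfg
  rw [Finset.sum_image, Finset.sum_product]
  rintro ⟨a, b⟩ _ ⟨c, d⟩ _ h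
  simp only at h
  obtain ⟨h1, h2⟩ := append_inj h
  rw [h1, h2]

open Classical in
/-- the indicator of the pair configurations -/
noncomputable def pc1 (n : ℕ) (B₁ B₂ : Finset ℕ) (σ : Fin (n + n) → Option ℕ) : ℝ :=
  if σ ∈ pcfg n B₁ B₂ then 1 else 0

open Classical in
lemma sum_pc1 {B₁ B₂ : Finset ℕ} (hd : Disjoint B₁ B₂) (f : (Fin (n + n) → Option ℕ) → ℝ) :
    ∑ σ ∈ cfg (n + n) (B₁ ∪ B₂), pc1 n B₁ B₂ σ * f σ =
      ∑ a ∈ cfg n B₁, ∑ b ∈ cfg n B₂, f (Fin.append a b) := by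
  rw [← sum_pcfg]
  unfold pc1
  rw [← Finset.sum_subset (pcfg_sub hd)]
  · refine Finset.sum_congr rfl fun σ hσ => ?_
    rw [if_pos hσ, one_mul]
  · intro σ _ hσ
    rw [if_neg hσ, zero_mul]

lemma term_append (x : Fin n → ℕ → ℝ) (a b : Fin n → Option ℕ) :
    term (Fin.append x x) (Fin.append a b) = term x a * term x b := by
  unfold term
  rw [Fin.prod_univ_add]
  congr 1
  · refine Finset.prod_congr rfl fun i _ => ?_
    rw [Fin.append_left, Fin.append_left]
  · refine Finset.prod_congr rfl fun i _ => ?_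
    rw [Fin.append_right, Fin.append_right]

lemma occ_append (q : Fin n → ℝ) (a b : Fin n → Option ℕ) :
    occ (Fin.append q q) (Fin.append a b) = occ q a * occ q b := by
  unfold occ
  rw [Fin.prod_univ_add]
  congr 1
  · refine Finset.prod_congr rfl fun i _ => ?_
    rw [Fin.append_left, Fin.append_left]
  · refine Finset.prod_congr rfl fun i _ => ?_
    rw [Fin.append_right, Fin.append_right]

lemma xx_append (ρ : ℕ → ℕ → ℕ) (P1 : Finset ℕ) (S : Fin n → Finset (Finset ℕ))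
    (g : Fin n → ℝ) (m : ℕ) :
    xx ρ P1 (Fin.append S S) (Fin.append g g) m = Fin.append (xx ρ P1 S g m) (xx ρ P1 S g m) := by
  funext t
  refine Fin.addCases (fun i => ?_) (fun i => ?_) t
  · funext a
    simp only [xx, Fin.append_left]
  · funext a
    simp only [xx, Fin.append_right]

lemma q_append (v : ℝ) (S : Fin n → Finset (Finset ℕ)) (g : Fin n → ℝ) :
    (fun τ => (Fin.append g g τ) ^ 2 * (v * GG (Fin.append S S τ))) =
      Fin.append (fun τ => g τ ^ 2 * (v * GG (S τ))) (fun τ => g τ ^ 2 * (v * GG (S τ))) := by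
  funext t
  refine Fin.addCases (fun i => ?_) (fun i => ?_) t
  · simp only [Fin.append_left]
  · simp only [Fin.append_right]

lemma WW_pair {B₁ B₂ : Finset ℕ} (hd : Disjoint B₁ B₂) (x : Fin n → ℕ → ℝ) :
    WW (B₁ ∪ B₂) (pc1 n B₁ B₂) (Fin.append x x) = WW B₁ (fun _ => 1) x * WW B₂ (fun _ => 1) x := by
  unfold WW
  rw [sum_pc1 hd, Finset.sum_mul_sum]
  refine Finset.sum_congr rfl fun a _ => Finset.sum_congr rfl fun b _ => ?_
  rw [term_append, one_mul, one_mul]

lemma occ_pair {B₁ B₂ : Finset ℕ} (hd : Disjoint B₁ B₂) (q : Fin n → ℝ) :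
    ∑ σ ∈ cfg (n + n) (B₁ ∪ B₂), pc1 n B₁ B₂ σ ^ 2 * occ (Fin.append q q) σ =
      (∑ σ ∈ cfg n B₁, occ q σ) * ∑ σ ∈ cfg n B₂, occ q σ := by
  have h1 : ∀ σ : Fin (n + n) → Option ℕ, pc1 n B₁ B₂ σ ^ 2 = pc1 n B₁ B₂ σ := by
    intro σ
    unfold pc1
    split_ifs <;> norm_num
  simp_rw [h1]
  rw [sum_pc1 hd, Finset.sum_mul_sum]
  refine Finset.sum_congr rfl fun a _ => Finset.sum_congr rfl fun b _ => ?_
  rw [occ_append]

lemma pc1_abs {B₁ B₂ : Finset ℕ} (σ : Fin (n + n) → Option ℕ) : |pc1 n B₁ B₂ σ| ≤ 1 := by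
  unfold pc1
  split_ifs <;> simp

/-- a defect between different configurations -/
lemma defect_gen {N : ℕ} (S : Fin N → Finset (Finset ℕ)) (hS0 : ∀ τ, ∅ ∉ S τ)
    (σ σ' : Fin N → Option ℕ)
    (hSd : ∀ τ τ' a, σ τ = some a → σ' τ' = some a → τ ≠ τ' → Disjoint (S τ) (S τ'))
    (hne : σ ≠ σ') :
    Defect (extS {∅} S σ) (extS {∅} S σ') (ext none σ) (ext none σ') := by
  obtain ⟨τ, hτ⟩ := Function.ne_iff.1 hne
  cases h : σ τ with
  | some a =>
    by_cases ha : a ∈ pos (ext none σ')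
    · rw [mem_pos] at ha
      obtain ⟨t, ht⟩ := ha
      cases t with
      | none =>
        simp only [Pool.Agent.H400R2.AC4.ext, Option.elim_none] at ht
        simp at ht
      | some τ' =>
        simp only [Pool.Agent.H400R2.AC4.ext, Option.elim_some] at ht
        right; right
        refine ⟨some τ, some τ', a, by simp [Pool.Agent.H400R2.AC4.ext, h], by simp [Pool.Agent.H400R2.AC4.ext, ht], ?_⟩
        simp only [extS, Option.elim_some, absS, h, ht]
        simp only [reduceCtorEq, if_false]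
        apply hSd τ τ' a h ht
        rintro rfl
        exact hτ (h.trans ht.symm)
    · left
      refine ⟨some τ, a, by simp [Pool.Agent.H400R2.AC4.ext, h], ha, ?_⟩
      simp only [extS, Option.elim_some, absS, h, reduceCtorEq, if_false]
      exact hS0 τ
  | none =>
    cases h' : σ' τ with
    | none => exact absurd (h.trans h'.symm) hτ
    | some a =>
      by_cases ha : a ∈ pos (ext none σ)
      · rw [mem_pos] at ha
        obtain ⟨t, ht⟩ := ha
        cases t with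
        | none =>
          simp only [Pool.Agent.H400R2.AC4.ext, Option.elim_none] at ht
          simp at ht
        | some τ' =>
          simp only [Pool.Agent.H400R2.AC4.ext, Option.elim_some] at ht
          right; right
          refine ⟨some τ', some τ, a, by simp [Pool.Agent.H400R2.AC4.ext, ht], by simp [Pool.Agent.H400R2.AC4.ext, h'], ?_⟩
          simp only [extS, Option.elim_some, absS, ht, h']
          simp only [reduceCtorEq, if_false]
          apply hSd τ' τ a ht h'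
          rintro rfl
          exact hτ (ht.trans h'.symm)
      · right; left
        refine ⟨some τ, a, by simp [Pool.Agent.H400R2.AC4.ext, h'], ha, ?_⟩
        simp only [extS, Option.elim_some, absS, h', reduceCtorEq, if_false]
        exact hS0 τ

lemma defect_pair {B₁ B₂ : Finset ℕ} (hd : Disjoint B₁ B₂) (S : Fin n → Finset (Finset ℕ))
    (hS0 : ∀ τ, ∅ ∉ S τ) (hSd : ∀ τ τ', τ ≠ τ' → Disjoint (S τ) (S τ'))
    (σ σ' : Fin (n + n) → Option ℕ) (hne : σ ≠ σ') (h1 : pc1 n B₁ B₂ σ ≠ 0)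
    (h2 : pc1 n B₁ B₂ σ' ≠ 0) :
    Defect (extS {∅} (Fin.append S S) σ) (extS {∅} (Fin.append S S) σ') (ext none σ)
      (ext none σ') := by
  classical
  have hm : σ ∈ pcfg n B₁ B₂ := by
    by_contra h
    exact h1 (by unfold pc1; rw [if_neg h])
  have hm' : σ' ∈ pcfg n B₁ B₂ := by
    by_contra h
    exact h2 (by unfold pc1; rw [if_neg h])
  unfold pcfg at hm hm'
  rw [Finset.mem_image] at hm hm'
  obtain ⟨⟨a, b⟩, hab, rfl⟩ := hm
  obtain ⟨⟨a', b'⟩, hab', rfl⟩ := hm'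
  rw [Finset.mem_product] at hab hab'
  obtain ⟨ha, hb⟩ := hab
  obtain ⟨ha', hb'⟩ := hab'
  simp only at ha hb ha' hb' hne ⊢
  refine defect_gen _ ?_ _ _ ?_ hne
  · intro t
    refine Fin.addCases (fun i => ?_) (fun i => ?_) t
    · rw [Fin.append_left]
      exact hS0 i
    · rw [Fin.append_right]
      exact hS0 i
  · intro t t' x
    refine Fin.addCases (fun i => ?_) (fun i => ?_) t
    · refine Fin.addCases (fun j => ?_) (fun j => ?_) t'
      · rw [Fin.append_left, Fin.append_left, Fin.append_left, Fin.append_left]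
        intro _ _ hij
        exact hSd i j fun h => hij (by rw [h])
      · rw [Fin.append_left, Fin.append_right]
        intro g1 g2
        exfalso
        have h3 : x ∈ B₁ := pos_sub_of_cfg ha ((mem_pos a x).2 ⟨i, g1⟩)
        have h4 : x ∈ B₂ := pos_sub_of_cfg hb' ((mem_pos b' x).2 ⟨j, g2⟩)
        exact Finset.disjoint_left.mp hd h3 h4
    · refine Fin.addCases (fun j => ?_) (fun j => ?_) t'
      · rw [Fin.append_right, Fin.append_left]
        intro g1 g2
        exfalso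
        have h3 : x ∈ B₂ := pos_sub_of_cfg hb ((mem_pos b x).2 ⟨i, g1⟩)
        have h4 : x ∈ B₁ := pos_sub_of_cfg ha' ((mem_pos a' x).2 ⟨j, g2⟩)
        exact Finset.disjoint_left.mp hd h4 h3
      · rw [Fin.append_right, Fin.append_right, Fin.append_right, Fin.append_right]
        intro _ _ hij
        exact hSd i j fun h => hij (by rw [h])

lemma prod_append (Y : Fin n → ℕ) : ∏ τ, Fin.append Y Y τ = (∏ τ, Y τ) ^ 2 := by
  rw [Fin.prod_univ_add, sq]
  congr 1
  · exact Finset.prod_congr rfl fun i _ => by rw [Fin.append_left]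
  · exact Finset.prod_congr rfl fun i _ => by rw [Fin.append_right]

theorem momW : MomW :=
  Pool.Agent.H602R2.momW_of (Pool.Agent.H488R2.EN2a.expandW_of Pool.Agent.H20R2.fLem)
      Pool.Agent.H911R2.EN.sumW Pool.Agent.H415R2.ACLocal.localSum

/-- the correlation of the squares of the weights of two disjoint sets of positions -/
theorem pairW (n : ℕ) (C : ℝ) (hC : 1 ≤ C) : ∃ K : ℕ, 1 ≤ K ∧
    ∀ (b J z0 D0 : ℕ) (P1 P2 B₁ B₂ : Finset ℕ) (ρ : ℕ → ℕ → ℕ) (κ : ℕ → ℕ → ℝ) (e : ℕ → ℕ)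
    (w : ℕ → ℝ) (M : ℕ) (A : ℝ) (err : Finset ℕ → ℝ) (S : Fin n → Finset (Finset ℕ))
    (g : Fin n → ℝ) (Y : Fin n → ℕ) (V δ : ℝ), Disjoint B₁ B₂ →
    Setup K b J z0 D0 P1 P2 (B₁ ∪ B₂) ρ κ e w M A err →
    (2 ^ 2 ^ J) ^ (K * b) * (∏ τ, Y τ) ^ 4 ≤ D0 → 0 < V → V ≤ 1 → δ ≤ 1 →
    Pi1 P2 ≤ C / V → ((B₁ ∪ B₂).card : ℝ) * V1 P1 ≤ C / V → (∀ τ, 0 ≤ g τ ∧ g τ ≤ C) →
    (∀ τ, ∀ R ∈ S τ, R ⊆ P2) → (∀ τ, ∅ ∉ S τ) → (∀ τ τ', τ ≠ τ' → Disjoint (S τ) (S τ')) →
    (∀ U ⊆ B₁ ∪ B₂, U.card ≤ 4 * n + 2 → dl e ρ (P1 ∪ P2) U ≤ δ) →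
    (∀ τ, 1 ≤ Y τ ∧ ∀ R ∈ S τ, ∏ p ∈ R, p ≤ Y τ) →
      |∑ m ∈ range M, w m * (WW B₁ (fun _ => 1) (xx ρ P1 S g m) *
          WW B₂ (fun _ => 1) (xx ρ P1 S g m)) ^ 2 -
        A * ((∑ σ ∈ cfg n B₁, occ (fun τ => g τ ^ 2 * (V1 P1 * GG (S τ))) σ) *
          ∑ σ ∈ cfg n B₂, occ (fun τ => g τ ^ 2 * (V1 P1 * GG (S τ))) σ)| ≤
      EF (n + n) K b J (B₁ ∪ B₂).card A V δ (ET K (P1 ∪ P2) D0 err) := by
  obtain ⟨KM, hKM1, hM⟩ := momW (n + n + 1)
  obtain ⟨K0, hK0⟩ := exists_nat_ge (C ^ (2 * (n + n)) *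
    (1 + 2 * ((n + n : ℕ) : ℝ) + C) ^ (2 * (n + n)) * (KM * C ^ KM))
  refine ⟨K0 + (2 * (n + n) + KM), by omega, ?_⟩
  intro b J z0 D0 P1 P2 B₁ B₂ ρ κ e w M A err S g Y V δ hd hset hD hV hV1 hδ1 hPi hB hg hSP hS0
    hSd hdel hY
  have hKc : C ^ (2 * (n + n)) * (1 + 2 * ((n + n : ℕ) : ℝ) + C) ^ (2 * (n + n)) * (KM * C ^ KM) ≤
      ((K0 + (2 * (n + n) + KM) : ℕ) : ℝ) := by
    refine hK0.trans ?_
    exact_mod_cast Nat.le_add_right _ _
  have hY1 : ∀ τ, 1 ≤ Fin.append Y Y τ ∧ ∀ R ∈ Fin.append S S τ, ∏ p ∈ R, p ≤ Fin.append Y Y τ := by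
    intro t
    refine Fin.addCases (fun i => ?_) (fun i => ?_) t
    · rw [Fin.append_left, Fin.append_left]
      exact hY i
    · rw [Fin.append_right, Fin.append_right]
      exact hY i
  have hg' : ∀ τ, 0 ≤ Fin.append g g τ ∧ Fin.append g g τ ≤ C := by
    intro t
    refine Fin.addCases (fun i => ?_) (fun i => ?_) t
    · rw [Fin.append_left]
      exact hg i
    · rw [Fin.append_right]
      exact hg i
  have hSP' : ∀ τ, ∀ R ∈ Fin.append S S τ, R ⊆ P2 := by
    intro t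
    refine Fin.addCases (fun i => ?_) (fun i => ?_) t
    · rw [Fin.append_left]
      exact hSP i
    · rw [Fin.append_right]
      exact hSP i
  have h := main_c Pool.Agent.H212R2.AC4b.countMaps (n + n) C KM (K0 + (2 * (n + n) + KM)) hC hM
    (by omega) (by omega) hKc b J z0 D0 P1 P2 (B₁ ∪ B₂) (B₁ ∪ B₂) ρ κ e w M A err
    (Fin.append S S) (Fin.append g g) (Fin.append Y Y) 1 V δ hset (by
      rw [one_mul, prod_append]
      calc (2 ^ 2 ^ J) ^ ((K0 + (2 * (n + n) + KM)) * b) * ((∏ τ, Y τ) ^ 2) ^ 2 =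
            (2 ^ 2 ^ J) ^ ((K0 + (2 * (n + n) + KM)) * b) * (∏ τ, Y τ) ^ 4 := by
              rw [← pow_mul (∏ τ, Y τ)]
        _ ≤ D0 := hD) hV hV1 hδ1 hPi hB hg' hSP'
    (fun U hU hUc => hdel U hU (by omega)) hY1 {∅} none (Finset.Subset.refl _)
    (fun a h => by simp at h) (fun _ => rfl)
    (fun R hR => by rw [Finset.mem_singleton] at hR; rw [hR]; exact Finset.empty_subset _)
    (fun R hR => by rw [Finset.mem_singleton] at hR; rw [hR, Finset.prod_empty])
    (pc1 n B₁ B₂) pc1_abs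
    (fun σ _ σ' _ hne h1 h2 => defect_pair hd S hS0 hSd σ σ' hne h1 h2)
  simp only [rgo, Option.elim_none, FF_empty, mul_one, GG_empty, one_mul,
      Option.toFinset_none, Finset.card_empty, pow_zero] at h
  rw [q_append, occ_pair hd] at h
  simp_rw [xx_append, WW_pair hd] at h
  exact h

end Pool.Agent.J4H30.VW
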