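import Pool.Agent.J4H30.VW.EngD
import Pool.Agent.J4H30.VW.Pair

/-!
Project VW, part 9: the engine.  Second moments, correlations and fourth moments of the weights of many
sets of positions at the same time.
-/

set_option autoImplicit false

open Finset Filter

namespace Pool.Agent.J4H30.VW

open Pool.Agent.H410R2.AC Pool.Agent.H410R2.EN Pool.Agent.J4H30.AW

open Classical in
theorem engine_var (C D₀ η₁ : ℝ) (hC : 1 ≤ C) (hη₁ : 0 < η₁) : ∃ Mb : ℝ, 1 ≤ Mb ∧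
    ∀ t : ℝ, 0 < t → ∃ G : ℝ, 0 < G ∧ ∃ K : ℕ, 1 ≤ K ∧ ∃ δ : ℝ, 0 < δ ∧
    ∃ X₀ : ℕ, ∀ X : ℕ, X₀ ≤ X →
    ∀ z0 : ℕ, K ≤ z0 → (z0 : ℝ) ≤ Real.log X →
    ∀ (ρ : ℕ → ℕ → ℕ) (w : ℕ → ℝ) (M : ℕ) (A : ℝ) (err : Finset ℕ → ℝ),
      (∀ m, 0 ≤ w m) → 0 < A →
      Equid (fun p _ => 1 / (p : ℝ)) w M A (PP z0 X) X err →
      ET K (PP z0 X) X err ≤ A / Real.log X ^ K →
      ∃ (V : Finset ℕ → ℕ → ℝ) (Ms : Finset ℕ → ℝ),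
        (∀ B : Finset ℕ, (B.card : ℝ) * Real.log z0 ≤ C * Real.log X →
          (∀ p ∈ PP z0 X, ∀ a ∈ B, ρ p a < p) →
          (∀ U ⊆ B, U.card ≤ K → dl (fun p => p) ρ (PP z0 X) U ≤ δ) →
          (∀ m < M, w m ≠ 0 → ∀ a ∈ B,
            ∏ p ∈ (PP z0 X).filter (fun p => m % p = ρ p a), (p : ℝ) ≤ (X : ℝ) ^ D₀) →
          (1 ≤ Ms B ∧ Ms B ≤ Mb) ∧
          A * (Ms B - t) ≤ ∑ m ∈ range M, w m * V B m ^ 2 ∧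
          ∑ m ∈ (range M).filter (fun m => ¬ ∀ a ∈ B, ∃ p ∈ PP z0 X, m % p = ρ p a),
            w m * V B m ^ 2 ≤ A * (η₁ * Ms B + t) ∧
          ∑ m ∈ range M, w m * V B m ^ 4 ≤ A * G) ∧
        (∀ B₁ B₂ : Finset ℕ, Disjoint B₁ B₂ → (B₁.card : ℝ) * Real.log z0 ≤ C * Real.log X →
          (B₂.card : ℝ) * Real.log z0 ≤ C * Real.log X →
          (∀ p ∈ PP z0 X, ∀ a ∈ B₁ ∪ B₂, ρ p a < p) →
          (∀ U ⊆ B₁ ∪ B₂, U.card ≤ K → dl (fun p => p) ρ (PP z0 X) U ≤ δ) →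
          ∑ m ∈ range M, w m * (V B₁ m * V B₂ m) ^ 2 ≤ A * (Ms B₁ * Ms B₂ + t)) := by
  obtain ⟨C1, hC1, hN1, hN2, hN3, -, -, -⟩ := Pool.Agent.H647R2.ACNT.nt
  -- parameters
  obtain ⟨η, hη0, hηle, hη'⟩ := eta_choice C C1 η₁ hC hC1 hη₁
  obtain ⟨n, u, β, V₀, hV₀, huβ, hβs, hus, hS⟩ := Pool.Agent.H708R2.types (2 * C1) η (1 / 8)
    (by linarith) hη0 (by norm_num)
  have hn0 : 0 < n := by
    rcases Nat.eq_zero_or_pos n with h | h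
    · subst h
      simp at hβs
    · exact h
  haveI : Nonempty (Fin n) := ⟨⟨0, hn0⟩⟩
  obtain ⟨βm, hβm0, hβm⟩ : ∃ βm : ℝ, 0 < βm ∧ ∀ τ, βm ≤ β τ := by
    obtain ⟨τ0, -, h⟩ := Finset.exists_min_image (Finset.univ : Finset (Fin n)) β
      Finset.univ_nonempty
    exact ⟨β τ0, (huβ τ0).2, fun τ => h τ (Finset.mem_univ τ)⟩
  have hηβ : 0 < η / βm := by positivity
  have hCC1 : 0 < C * C1 := by positivity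
  obtain ⟨C2, hC2', hC2a, hC2b, hC2c, hC2d⟩ : ∃ C2 : ℝ, 1 ≤ C2 ∧ 2 * C1 ≤ C2 ∧
      2 * C * C1 ≤ C2 ∧ 4 * C * C1 ≤ C2 ∧ η / βm ≤ C2 :=
    ⟨2 * C1 + 4 * C * C1 + η / βm + 1, by linarith, by linarith, by linarith, by linarith,
      by linarith⟩
  obtain ⟨K₁, hK₁, hSec⟩ := secondW n C2 hC2'
  obtain ⟨K₄, hK₄, hFou⟩ := fourthW n C2 hC2'
  obtain ⟨K₅, hK₅, hPair⟩ := pairW n C2 hC2'
  refine ⟨2 ^ n, one_le_pow₀ (by norm_num), fun t ht => ?_⟩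
  -- the smallness constants
  obtain ⟨c2, hc2⟩ : ∃ c2 : ℝ, c2 = 512 * C * C1 ^ 3 := ⟨_, rfl⟩
  have hc20 : 0 < c2 := by rw [hc2]; positivity
  obtain ⟨b, v, δ, s, s5, hKb, hK₄b, hK₅b, hv0, hvV, hv8, hvK, hvK₄, hvK₅, hδ0, hδ1, hsdef, hs5def,
    hs0, hst, hst8, hst5⟩ := params K₁ K₄ K₅ hK₁ hK₄ hK₅ V₀ c2 t hV₀ hc20 ht
  -- the exponent
  obtain ⟨K, hKK₁, hKK₄, hKK₅, hK4n⟩ : ∃ K : ℕ, K₁ ≤ K ∧ K₄ ≤ K ∧ K₅ ≤ K ∧ 4 * n + 5 ≤ K :=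
    ⟨K₁ + K₄ + K₅ + (4 * n + 5), by omega, by omega, by omega, by omega⟩
  obtain ⟨k0, hk0⟩ : ∃ k0 : ℕ, 2 * D₀ / v ≤ k0 := exists_nat_ge _
  obtain ⟨D, hD⟩ : ∃ D : ℝ, D = (K₁ : ℝ) / v ^ K₁ * (2 * C) ^ (2 * n + 2) *
    (1 + C * (16 * C1) ^ 2) := ⟨_, rfl⟩
  obtain ⟨D5, hD5⟩ : ∃ D5 : ℝ, D5 = (K₅ : ℝ) / v ^ K₅ * (2 * (2 * C)) ^ (2 * (n + n) + 2) *
    (1 + 2 * C * (16 * C1) ^ 2) := ⟨_, rfl⟩
  -- asymptotic facts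
  have hev2 : ∀ᶠ X : ℕ in atTop, D / (t / 2) ≤ Real.log X := tendsto_log_nat.eventually_ge_atTop _
  have hev2' : ∀ᶠ X : ℕ in atTop, D5 / (t / 2) ≤ Real.log X :=
    tendsto_log_nat.eventually_ge_atTop _
  have hev5 : ∀ᶠ X : ℕ in atTop, (2 * C) ^ (4 * n) ≤ Real.log X :=
    tendsto_log_nat.eventually_ge_atTop _
  obtain ⟨X₀, hX₀⟩ := eventually_atTop.mp (hev2.and (hev2'.and (hev5.and
    (exists_scale v hv0 hv8))))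
  refine ⟨(K₄ / v) ^ K₄ * 2 ^ (4 * n * k0) * 2, by positivity, K, hK₁.trans hKK₁, δ,
    hδ0, X₀, fun X hX z0 hz0K hz0X ρ w M A err hw hA hEq hET => ?_⟩
  obtain ⟨he2, he2', he5, J, hsc⟩ := hX₀ X hX
  have ht2 : 0 < t / 2 := by positivity
  have hDL : D ≤ t / 2 * Real.log X := by
    rw [div_le_iff₀ ht2] at he2
    linarith
  have hDL5 : D5 ≤ t / 2 * Real.log X := by
    rw [div_le_iff₀ ht2] at he2'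
    linarith
  obtain ⟨P1, P2, S, Y, Y1, S1, hP2eq, hdat⟩ := exists_data hC1 hN1 hN2 hN3 hη0 hv0 hvV hv8 huβ
    hus hS hsc (by omega) hz0X
  have hl1 := scale_pow hsc K₁ b hvK
  have hl4 := scale_pow hsc K₄ b hvK₄
  have hl5 := scale_pow hsc K₅ b hvK₅
  have hE : EqX X z0 w M A err K := ⟨hw, hA, hEq, hET⟩
  have hβp : ∀ τ, 0 < β τ := fun τ => (huβ τ).2
  refine ⟨fun B m => Wt n ρ P1 S (fun τ => β τ / GG (S τ)) B m,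
    fun B => Mass n (fun τ => (β τ / GG (S τ)) ^ 2 * (V1 P1 * GG (S τ))) B, ?_, ?_⟩
  · intro B hBc hρ hdl hprod
    obtain ⟨r1, r2, r3⟩ := single_rough hC hC1 hη0 hηle hη' hβs hβp hβm0 hβm hC2a hC2b hC2d hK₁ hSec
      ht hc2 hKb hv0 hv8 hδ1 hsdef hs0 hst hst8 hKK₁ hK4n hD hsc hDL hdat hl1 hz0K hE hBc hρ hdl
    exact ⟨r1, r2, r3, single_four hC hC1 hη0 hβp hβm0 hβm hC2a hC2b hC2d hK₄ hFou hK₄b hv0 hv8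
      hδ1 hKK₄ hK4n hk0 he5 hsc hP2eq hdat hl4 hz0K hE hBc hρ hdl hprod⟩
  · intro B₁ B₂ hd hB₁c hB₂c hρ hdl
    exact pair_core hC hC1 hη0 hβp hβm0 hβm hC2a hC2c hC2d hK₅ hPair ht hK₅b hv0 hv8 hδ1 hs5def
      hst5 hKK₅ hK4n hD5 hsc hDL5 hdat hl5 hz0K hE hd hB₁c hB₂c hρ hdl

end Pool.Agent.J4H30.VW
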