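import Mathlib

/-!
Project VW, part 16: a discrete maximal inequality (rising sun lemma).
-/

set_option autoImplicit false

open Finset

namespace Pool.Agent.J4H30.VW

lemma card_Ico_split (E : Finset ℕ) {a b c : ℕ} (hab : a ≤ b) (hbc : b ≤ c) :
    (E.filter (fun x => a ≤ x ∧ x < c)).card =
      (E.filter (fun x => a ≤ x ∧ x < b)).card + (E.filter (fun x => b ≤ x ∧ x < c)).card := by
  rw [← Finset.card_union_of_disjoint]
  · congr 1
    ext x
    rw [mem_union, mem_filter, mem_filter, mem_filter]
    constructor
    · rintro ⟨h1, h2, h3⟩
      rcases lt_or_ge x b with h | h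
      · exact Or.inl ⟨h1, h2, h⟩
      · exact Or.inr ⟨h1, h, h3⟩
    · rintro (⟨h1, h2, h3⟩ | ⟨h1, h2, h3⟩)
      · exact ⟨h1, h2, by omega⟩
      · exact ⟨h1, by omega, h3⟩
  · rw [Finset.disjoint_left]
    intro x hx hx'
    rw [mem_filter] at hx hx'
    omega

open Classical in
/-- discrete maximal inequality -/
theorem rising (E : Finset ℕ) (N : ℕ) :
    ((range N).filter (fun n => ∃ k, 1 ≤ k ∧ k ≤ N ∧
      k ≤ 2 * (E.filter (fun x => n ≤ x ∧ x < n + k)).card)).card ≤
      2 * (E.filter (fun x => x < 2 * N)).card := by
  obtain ⟨B, hB⟩ : ∃ B : Finset ℕ, B = (range N).filter (fun n => ∃ k, 1 ≤ k ∧ k ≤ N ∧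
      k ≤ 2 * (E.filter (fun x => n ≤ x ∧ x < n + k)).card) := ⟨_, rfl⟩
  have hBN : ∀ x ∈ B, x < N := fun x hx => by
    rw [hB, mem_filter, mem_range] at hx
    exact hx.1
  have key : ∀ d a : ℕ, a + d = N → (B.filter (fun x => a ≤ x ∧ x < N)).card ≤
      2 * (E.filter (fun x => a ≤ x ∧ x < 2 * N)).card := by
    intro d
    induction d using Nat.strong_induction_on with
    | _ d ih =>
      intro a had
      rcases Nat.eq_zero_or_pos d with h0 | h0
      · have : B.filter (fun x => a ≤ x ∧ x < N) = ∅ := by
          rw [Finset.filter_eq_empty_iff]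
          intro x _
          omega
        rw [this, card_empty]
        exact Nat.zero_le _
      · by_cases ha : a ∈ B
        · have ha' := ha
          rw [hB, mem_filter] at ha'
          obtain ⟨-, k, hk1, hkN, hk⟩ := ha'
          rcases le_or_gt N (a + k) with h | h
          · have h1 : (B.filter (fun x => a ≤ x ∧ x < N)).card ≤ (Ico a N).card := by
              refine Finset.card_le_card fun x hx => ?_
              rw [mem_Ico]
              exact (mem_filter.mp hx).2
            rw [Nat.card_Ico] at h1
            have h2 : (E.filter (fun x => a ≤ x ∧ x < a + k)).card ≤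
                (E.filter (fun x => a ≤ x ∧ x < 2 * N)).card := by
              refine Finset.card_le_card fun x hx => ?_
              rw [mem_filter] at hx ⊢
              exact ⟨hx.1, hx.2.1, by omega⟩
            omega
          · have h1 := card_Ico_split B (a := a) (b := a + k) (c := N) (by omega) h.le
            have h2 := card_Ico_split E (a := a) (b := a + k) (c := 2 * N) (by omega) (by omega)
            have h3 := ih (d - k) (by omega) (a + k) (by omega)
            have h4 : (B.filter (fun x => a ≤ x ∧ x < a + k)).card ≤ (Ico a (a + k)).card := by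
              refine Finset.card_le_card fun x hx => ?_
              rw [mem_Ico]
              exact (mem_filter.mp hx).2
            rw [Nat.card_Ico] at h4
            omega
        · have h1 := card_Ico_split B (a := a) (b := a + 1) (c := N) (by omega) (by omega)
          have h2 := card_Ico_split E (a := a) (b := a + 1) (c := 2 * N) (by omega) (by omega)
          have h3 := ih (d - 1) (by omega) (a + 1) (by omega)
          have h4 : B.filter (fun x => a ≤ x ∧ x < a + 1) = ∅ := by
            rw [Finset.filter_eq_empty_iff]
            intro x hx h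
            have : x = a := by omega
            exact ha (this ▸ hx)
          rw [h4, card_empty] at h1
          omega
  have h1 := key N 0 (by omega)
  have h2 : B.filter (fun x => 0 ≤ x ∧ x < N) = B := by
    rw [Finset.filter_eq_self]
    intro x hx
    exact ⟨Nat.zero_le _, hBN x hx⟩
  have h3 : E.filter (fun x => 0 ≤ x ∧ x < 2 * N) = E.filter (fun x => x < 2 * N) := by
    refine Finset.filter_congr fun x _ => ?_
    exact ⟨fun h => h.2, fun h => ⟨Nat.zero_le _, h⟩⟩
  rw [h2, h3] at h1
  rw [← hB]
  exact h1

end Pool.Agent.J4H30.VW
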