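import Pool.Agent.H357R2.SI.Energy
import Pool.Agent.J4H30.VW.Rise

/-!
Project VW, part 17: counting indices of primes.
-/

set_option autoImplicit false

open Finset Filter

namespace Pool.Agent.J4H30.VW

open Pool.Agent.H357R2.SI

/-- the `n`-th prime -/
noncomputable def Pn (n : ℕ) : ℕ := Nat.nth Nat.Prime n

lemma Pn_mono : StrictMono Pn := Nat.nth_strictMono Nat.infinite_setOfPred_prime

lemma Pn_prime (n : ℕ) : (Pn n).Prime := Nat.prime_nth_prime n

lemma le_Pn (n : ℕ) : n + 2 ≤ Pn n := Nat.add_two_le_nth_prime n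

lemma count_Pn (n : ℕ) : Nat.primeCounting (Pn n) = n + 1 := by
  unfold Nat.primeCounting Nat.primeCounting' Pn
  exact Nat.count_nth_succ_of_infinite Nat.infinite_setOfPred_prime n

/-- the index of the last prime up to `m` -/
lemma exists_idx {i k m : ℕ} (h1 : Pn i ≤ m) (h2 : m < Pn (i + k)) :
    ∃ j, i ≤ j ∧ j < i + k ∧ Pn j ≤ m ∧ m < Pn (j + 1) := by
  obtain ⟨c, hc⟩ : ∃ c : ℕ, c = Nat.count Nat.Prime (m + 1) := ⟨_, rfl⟩
  have hi : i < c := by
    by_contra h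
    push Not at h
    have h3 : Pn c ≤ Pn i := Pn_mono.monotone h
    have h4 : m + 1 ≤ Pn c := by
      rw [hc]
      exact Nat.le_nth_count Nat.infinite_setOfPred_prime (m + 1)
    omega
  have hc1 : m < Pn c := by
    have h4 : m + 1 ≤ Pn c := by
      rw [hc]
      exact Nat.le_nth_count Nat.infinite_setOfPred_prime (m + 1)
    omega
  have hc2 : Pn (c - 1) ≤ m := by
    have h4 : Nat.nth Nat.Prime (c - 1) < m + 1 := Nat.nth_lt_of_lt_count (by omega)
    exact Nat.lt_succ_iff.mp h4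
  refine ⟨c - 1, by omega, ?_, hc2, ?_⟩
  · by_contra h
    push Not at h
    have h3 : Pn (i + k) ≤ Pn (c - 1) := Pn_mono.monotone h
    omega
  · have h5 : c - 1 + 1 = c := by omega
    rw [h5]
    exact hc1

open Classical in
/-- each index is counted `t` times -/
lemma pair_count (I : Finset ℕ) (t X : ℕ) (hI : ∀ i ∈ I, t ≤ Pn i ∧ Pn i ≤ X) :
    t * I.card ≤ ∑ n ∈ range X, (I.filter (fun i => n < Pn i ∧ Pn i ≤ n + t)).card := by
  simp_rw [Finset.card_filter]
  rw [Finset.sum_comm]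
  simp_rw [← Finset.card_filter]
  have h1 : ∀ i ∈ I, t ≤ ((range X).filter (fun n => n < Pn i ∧ Pn i ≤ n + t)).card := by
    intro i hi
    obtain ⟨h2, h3⟩ := hI i hi
    have h4 : (Ico (Pn i - t) (Pn i)).card ≤
        ((range X).filter (fun n => n < Pn i ∧ Pn i ≤ n + t)).card := by
      refine Finset.card_le_card fun n hn => ?_
      rw [mem_Ico] at hn
      rw [mem_filter, mem_range]
      omega
    rw [Nat.card_Ico] at h4
    omega
  calc t * I.card = ∑ i ∈ I, t := by rw [Finset.sum_const, smul_eq_mul, mul_comm]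
    _ ≤ _ := Finset.sum_le_sum h1

open Classical in
lemma fib_le_pc (I : Finset ℕ) (n t : ℕ) :
    (I.filter (fun i => n < Pn i ∧ Pn i ≤ n + t)).card ≤ pc n (n + t) := by
  unfold pc
  refine Finset.card_le_card_of_injOn Pn ?_ (Pn_mono.injective.injOn)
  intro i hi
  rw [mem_coe, mem_filter] at hi
  rw [mem_coe, mem_filter, mem_Ioc]
  exact ⟨hi.2, Pn_prime i⟩

lemma le_pc {i k n H : ℕ} (h1 : n < Pn i) (h2 : Pn (i + k) ≤ n + H) : k ≤ pc n (n + H) := by
  unfold pc
  have h3 : (Ico i (i + k)).card ≤ ((Ioc n (n + H)).filter Nat.Prime).card := by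
    refine Finset.card_le_card_of_injOn Pn ?_ (Pn_mono.injective.injOn)
    intro j hj
    rw [mem_coe, mem_Ico] at hj
    rw [mem_coe, mem_filter, mem_Ioc]
    have h4 : Pn i ≤ Pn j := Pn_mono.monotone hj.1
    have h5 : Pn j ≤ Pn (i + k) := Pn_mono.monotone (by omega)
    exact ⟨⟨by omega, by omega⟩, Pn_prime j⟩
  rw [Nat.card_Ico] at h3
  omega

/-- indices followed by many primes -/
lemma many_primes {I : Finset ℕ} {H k X : ℕ} (hI : ∀ i ∈ I, H ≤ Pn i ∧ Pn i ≤ X)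
    (hK : ∀ i ∈ I, Pn (i + k) ≤ Pn i + H) :
    k * (H * I.card) ≤ ∑ n ∈ range X, pc n (n + 2 * H) ^ 2 := by
  classical
  refine (Nat.mul_le_mul_left _ (pair_count I H X hI)).trans ?_
  rw [Finset.mul_sum]
  refine Finset.sum_le_sum fun n _ => ?_
  rcases Finset.eq_empty_or_nonempty (I.filter (fun i => n < Pn i ∧ Pn i ≤ n + H)) with h | h
  · rw [h, card_empty, mul_zero]
    exact Nat.zero_le _
  · obtain ⟨i, hi⟩ := h
    rw [mem_filter] at hi
    have h1 := hK i hi.1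
    have h2 : k ≤ pc n (n + 2 * H) := le_pc hi.2.1 (by omega)
    have h3 := fib_le_pc I n H
    have h4 : pc n (n + H) ≤ pc n (n + 2 * H) := pc_mono (by omega)
    calc k * (I.filter (fun i => n < Pn i ∧ Pn i ≤ n + H)).card ≤
          pc n (n + 2 * H) * pc n (n + 2 * H) := Nat.mul_le_mul h2 (h3.trans h4)
      _ = pc n (n + 2 * H) ^ 2 := by ring

/-- indices near the exceptional set -/
lemma few_in_E {I E : Finset ℕ} {t X : ℕ} (hI : ∀ i ∈ I, t ≤ Pn i ∧ Pn i ≤ X)
    (hE : ∀ i ∈ I, ∀ n, n < Pn i → Pn i ≤ n + t → n ∈ E) :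
    ((t : ℝ) * I.card) ^ 2 ≤ E.card * ∑ n ∈ range X, (pc n (n + t) : ℝ) ^ 2 := by
  classical
  have h1 := pair_count I t X hI
  have h2 : ∑ n ∈ range X, (I.filter (fun i => n < Pn i ∧ Pn i ≤ n + t)).card ≤
      ∑ n ∈ E ∩ range X, pc n (n + t) := by
    calc ∑ n ∈ range X, (I.filter (fun i => n < Pn i ∧ Pn i ≤ n + t)).card =
          ∑ n ∈ E ∩ range X, (I.filter (fun i => n < Pn i ∧ Pn i ≤ n + t)).card := by
            symm
            refine Finset.sum_subset Finset.inter_subset_right fun n hn hn2 => ?_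
            rw [Finset.card_eq_zero, Finset.filter_eq_empty_iff]
            intro i hi h
            exact hn2 (Finset.mem_inter.mpr ⟨hE i hi n h.1 h.2, hn⟩)
      _ ≤ _ := Finset.sum_le_sum fun n _ => fib_le_pc I n t
  have h3 : ((t : ℝ) * I.card) ≤ ∑ n ∈ E ∩ range X, (pc n (n + t) : ℝ) := by
    exact_mod_cast h1.trans h2
  have h4 := sq_sum_le_card_mul_sum_sq (s := E ∩ range X) (f := fun n => (pc n (n + t) : ℝ))
  refine (pow_le_pow_left₀ (by positivity) h3 2).trans (h4.trans ?_)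
  refine mul_le_mul ?_ ?_ (Finset.sum_nonneg fun _ _ => sq_nonneg _) (Nat.cast_nonneg _)
  · exact_mod_cast Finset.card_le_card Finset.inter_subset_left
  · exact Finset.sum_le_sum_of_subset_of_nonneg Finset.inter_subset_right
      fun _ _ _ => sq_nonneg _

/-- the choice of `X` -/
lemma exists_X (k X₁ : ℕ) : ∃ N₀ : ℕ, ∀ N : ℕ, N₀ ≤ N → ∃ X : ℕ, X₁ ≤ X ∧
    2 * Pn (2 * N + k) ≤ X ∧ (X : ℝ) ≤ 32 * N * Real.log X := by
  obtain ⟨X₀, hX₀, h⟩ := pnt (1 / 2) (by norm_num)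
  refine ⟨max (max X₀ X₁) (k + 1), fun N hN => ⟨2 * Pn (3 * N), ?_, ?_, ?_⟩⟩
  · have := le_Pn (3 * N)
    omega
  · have : Pn (2 * N + k) ≤ Pn (3 * N) := Pn_mono.monotone (by omega)
    omega
  · have h1 := le_Pn (3 * N)
    obtain ⟨h2, -⟩ := h (Pn (3 * N)) (by omega)
    rw [count_Pn] at h2
    have hN1 : (1 : ℝ) ≤ N := by exact_mod_cast (by omega : 1 ≤ N)
    obtain ⟨Q, hQ⟩ : ∃ Q : ℕ, Q = Pn (3 * N) := ⟨_, rfl⟩
    rw [← hQ] at h1 h2 ⊢
    have hQ3 : 3 ≤ Q := by omega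
    have hQR : (3 : ℝ) ≤ Q := by exact_mod_cast hQ3
    have hl : 0 < Real.log (Q : ℝ) := Real.log_pos (by linarith)
    rw [div_le_iff₀ hl] at h2
    push_cast at h2 ⊢
    have hl2 : Real.log (Q : ℝ) ≤ Real.log (2 * (Q : ℝ)) :=
      Real.log_le_log (by linarith) (by linarith)
    have h3 : (Q : ℝ) ≤ 8 * N * Real.log Q := by
      have h4 : (3 * (N : ℝ) + 1) * Real.log Q ≤ (4 * N) * Real.log Q :=
        mul_le_mul_of_nonneg_right (by linarith) hl.le
      linarith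
    have h5 : 8 * (N : ℝ) * Real.log Q ≤ 8 * N * Real.log (2 * (Q : ℝ)) :=
      mul_le_mul_of_nonneg_left hl2 (by positivity)
    have h6 : 0 ≤ (N : ℝ) * Real.log (2 * (Q : ℝ)) := mul_nonneg (by linarith) (by linarith)
    linarith

end Pool.Agent.J4H30.VW
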