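import Pool.Agent.J4H30.AW.WinA
import Pool.Agent.J4H30.VW.BaseV

/-!
Project VW, part 12: one residue class modulo the primorial.
-/

set_option autoImplicit false

open Finset Filter

namespace Pool.Agent.J4H30.VW

open Pool.Agent.H410R2.AC Pool.Agent.H410R2.EN Pool.Agent.H143R2.ACF Pool.Agent.J4H30.AW

/-- the positions of the `j`-th member of the residue class -/
noncomputable def Bj (S : Finset ℕ) (L z0 b J j : ℕ) : Finset ℕ :=
  (Bset S L z0 b).image (fun a => a + primorial z0 * (J - j))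

lemma Bj_le {S : Finset ℕ} {L z0 b J j a : ℕ} (ha : a ∈ Bj S L z0 b J j) :
    a ≤ L + primorial z0 * J := by
  unfold Bj at ha
  rw [mem_image] at ha
  obtain ⟨a', ha', rfl⟩ := ha
  exact Nat.add_le_add (Bset_le ha') (Nat.mul_le_mul_left _ (Nat.sub_le _ _))

lemma Bj_card (S : Finset ℕ) (L z0 b J j : ℕ) : (Bj S L z0 b J j).card ≤ (Bset S L z0 b).card :=
  Finset.card_image_le

lemma Bj_disj {S : Finset ℕ} {L z0 b J i j : ℕ} (hij : i ≤ j) (hj : j ≤ J)
    (h : L < primorial z0 * (j - i)) : Disjoint (Bj S L z0 b J i) (Bj S L z0 b J j) := by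
  rw [Finset.disjoint_left]
  intro a ha hb
  unfold Bj at ha hb
  rw [mem_image] at ha hb
  obtain ⟨a', ha', rfl⟩ := ha
  obtain ⟨b', hb', h2⟩ := hb
  have h3 := Bset_le hb'
  have h4 : primorial z0 * (J - i) = primorial z0 * (J - j) + primorial z0 * (j - i) := by
    rw [← Nat.mul_add]
    congr 1
    omega
  omega

lemma cov_of {S : Finset ℕ} {L z0 X b m0 m J j : ℕ} (hj : j ≤ J)
    (h : ∀ a ∈ Bj S L z0 b J j, ∃ p ∈ PP z0 X,
      m % p = rho (primorial z0) (b + primorial z0 * (J + m0)) p a) :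
    Cov S L z0 X b (m0 + m + j) := by
  intro a ha
  obtain ⟨p, hp, hmp⟩ := h (a + primorial z0 * (J - j)) (by
    unfold Bj
    exact mem_image_of_mem _ ha)
  refine ⟨p, hp, ?_⟩
  rw [rho_iff (PP_prime hp) (not_dvd_primorial hp)] at hmp ⊢
  have e : ((b + primorial z0 * (J + m0) : ℕ) : ℤ) + (primorial z0 : ℤ) * (m : ℤ) -
      ((a + primorial z0 * (J - j) : ℕ) : ℤ) =
      (b : ℤ) + (primorial z0 : ℤ) * ((m0 + m + j : ℕ) : ℤ) - (a : ℤ) := by
    push_cast [Nat.cast_sub hj]
    ring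
  rwa [e] at hmp

lemma close_card (J d : ℕ) : ((range J ×ˢ range J).filter
    (fun x : ℕ × ℕ => x.1 ≤ x.2 + d ∧ x.2 ≤ x.1 + d)).card ≤ (2 * d + 1) * J := by
  classical
  have h := Finset.card_le_mul_card_image ((range J ×ˢ range J).filter
    (fun x : ℕ × ℕ => x.1 ≤ x.2 + d ∧ x.2 ≤ x.1 + d)) (f := fun x : ℕ × ℕ => x.1) (2 * d + 1) ?_
  · refine h.trans (Nat.mul_le_mul_left _ ?_)
    have h2 : (((range J ×ˢ range J).filter
        (fun x : ℕ × ℕ => x.1 ≤ x.2 + d ∧ x.2 ≤ x.1 + d)).image (fun x : ℕ × ℕ => x.1)) ⊆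
        range J := by
      intro a ha
      rw [mem_image] at ha
      obtain ⟨x, hx, rfl⟩ := ha
      exact (mem_product.mp (mem_filter.mp hx).1).1
    have h3 := Finset.card_le_card h2
    rwa [card_range] at h3
  · intro i _
    have h2 : ((((range J ×ˢ range J).filter
        (fun x : ℕ × ℕ => x.1 ≤ x.2 + d ∧ x.2 ≤ x.1 + d))).filter (fun x => x.1 = i)).card ≤
        (Icc (i - d) (i + d)).card := by
      refine Finset.card_le_card_of_injOn (fun x => x.2) ?_ ?_
      · intro x hx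
        have hx' := mem_filter.mp hx
        have hx2 := (mem_filter.mp hx'.1).2
        have hx3 := hx'.2
        simp only [coe_Icc, Set.mem_Icc]
        omega
      · intro x hx y hy hxy
        have hx3 := (mem_filter.mp hx).2
        have hy3 := (mem_filter.mp hy).2
        exact Prod.ext (hx3.trans hy3.symm) hxy
    rw [Nat.card_Icc] at h2
    omega

lemma close_Bj (S : Finset ℕ) (L z0 b J : ℕ) :
    (((range J) ×ˢ (range J)).filter
      (fun x => ¬ Disjoint (Bj S L z0 b J x.1) (Bj S L z0 b J x.2))).card ≤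
      (2 * (L / primorial z0) + 1) * J := by
  refine le_trans (Finset.card_le_card ?_) (close_card J (L / primorial z0))
  intro x hx
  rw [mem_filter, mem_product, mem_range, mem_range] at hx
  rw [mem_filter, mem_product, mem_range, mem_range]
  have hW0 : 0 < primorial z0 := primorial_pos z0
  obtain ⟨q, hq⟩ : ∃ q : ℕ, q = L / primorial z0 := ⟨_, rfl⟩
  rw [← hq]
  refine ⟨hx.1, ?_, ?_⟩
  · by_contra hcon
    apply hx.2
    have h1 : L / primorial z0 < x.1 - x.2 := by rw [← hq]; omega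
    have h2 : L < (x.1 - x.2) * primorial z0 := (Nat.div_lt_iff_lt_mul hW0).mp h1
    exact (Bj_disj (by omega) (by omega) (by rwa [mul_comm])).symm
  · by_contra hcon
    apply hx.2
    have h1 : L / primorial z0 < x.2 - x.1 := by rw [← hq]; omega
    have h2 : L < (x.2 - x.1) * primorial z0 := (Nat.div_lt_iff_lt_mul hW0).mp h1
    exact Bj_disj (by omega) (by omega) (by rwa [mul_comm])

/-- the product of the primes at one position -/
lemma prod_le_pos {z0 X b a m : ℕ} {T : ℝ} (hpos : a < b + primorial z0 * m)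
    (hT : ((b + primorial z0 * m : ℕ) : ℝ) ≤ T) :
    ∏ p ∈ (PP z0 X).filter (fun p => m % p = rho (primorial z0) b p a), (p : ℝ) ≤ T := by
  refine le_trans ?_ hT
  have h3 : ∏ p ∈ (PP z0 X).filter (fun p => m % p = rho (primorial z0) b p a), p ∣
      b + primorial z0 * m - a := by
    apply Finset.prod_primes_dvd
    · intro p hp
      exact (PP_prime (mem_filter.mp hp).1).prime
    · intro p hp
      rw [mem_filter] at hp
      have h4 := (rho_iff (PP_prime hp.1) (not_dvd_primorial hp.1)).mp hp.2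
      rw [← Int.natCast_dvd_natCast]
      have h5 : ((b + primorial z0 * m - a : ℕ) : ℤ) = (b : ℤ) + primorial z0 * m - a := by omega
      rw [h5]
      exact h4
  have h4 := Nat.le_of_dvd (by omega) h3
  have h5 : ∏ p ∈ (PP z0 X).filter (fun p => m % p = rho (primorial z0) b p a), p ≤
      b + primorial z0 * m := by omega
  have h6 := (Nat.cast_le (α := ℝ)).mpr h5
  rwa [Nat.cast_prod] at h6

/-- the values of `eb` -/
lemma eb_sub {L W b N n : ℕ} (hW : 0 < W) (hn : n ≤ N) :
    eb L W b 0 ≤ eb L W b n ∧ eb L W b n - eb L W b 0 < N / W + 2 := by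
  unfold eb
  have h1 : (0 + (L + (W - b))) / W ≤ (n + (L + (W - b))) / W := Nat.div_le_div_right (by omega)
  refine ⟨by omega, ?_⟩
  have h2 : (n + (L + (W - b))) / W ≤ n / W + (L + (W - b)) / W + 1 := by
    have h3 := Nat.lt_mul_div_succ n hW
    have h4 := Nat.lt_mul_div_succ (L + (W - b)) hW
    rw [← Nat.lt_succ_iff, Nat.div_lt_iff_lt_mul hW]
    calc n + (L + (W - b)) < W * (n / W + 1) + W * ((L + (W - b)) / W + 1) := by omega
      _ = (n / W + (L + (W - b)) / W + 1).succ * W := by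
        rw [← Nat.mul_add, mul_comm, Nat.succ_eq_add_one]
        congr 1
        omega
  have h5 : n / W ≤ N / W := Nat.div_le_div_right hn
  rw [zero_add]
  obtain ⟨q1, hq1⟩ : ∃ q : ℕ, q = (L + (W - b)) / W := ⟨_, rfl⟩
  obtain ⟨q2, hq2⟩ : ∃ q : ℕ, q = (n + (L + (W - b))) / W := ⟨_, rfl⟩
  obtain ⟨q3, hq3⟩ : ∃ q : ℕ, q = n / W := ⟨_, rfl⟩
  obtain ⟨q4, hq4⟩ : ∃ q : ℕ, q = N / W := ⟨_, rfl⟩
  rw [← hq1, ← hq2, ← hq3] at h2
  rw [← hq1, ← hq2, ← hq4]
  rw [← hq3, ← hq4] at h5
  omega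

end Pool.Agent.J4H30.VW
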